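import Pool.Agent.H873R3.BuckCoercive

/-!
# Uniform weighted bound for near minimisers
-/

noncomputable section

namespace Pool.Agent.H873R3

open MeasureTheory Set Filter Topology InnerProductSpace
open scoped ContDiff Gradient

variable {b : OrthonormalBasis (Fin 2) ℝ Pl} {o : Pl}
variable {U : Set Pl} {f g h u v φ : Pl → ℝ} {ε : ℝ}

lemma Nb_self (u : Pl → ℝ) : Nb b u u = ∫ x, ((D (b 0) u x) ^ 2 + (D (b 1) u x) ^ 2) := by
  simp only [Nb]; congr 1; ext x; ring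

lemma Eb_self (u : Pl → ℝ) : Eb b u u = ∫ x, (Lp b u x) ^ 2 := by
  simp only [Eb]; congr 1; ext x; ring

lemma Nb_self_split (hu : TF U u) : Nb b u u = (∫ x, (D (b 0) u x) ^ 2) + ∫ x, (D (b 1) u x) ^ 2 := by
  rw [Nb_self, integral_add (hu.D _).sq'.integrable (hu.D _).sq'.integrable]

/-- Poincaré inequality in the bounded cone. -/
lemma poincare_L2 {β R : ℝ} (hU : ∀ x ∈ U, 0 < cx b o x) (hR : ∀ x ∈ U, cx b o x ≤ R)
    (hβ : 0 ≤ β) (hcone : ∀ x ∈ U, |cy b o x| ≤ β * cx b o x) (hu : TF U u) :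
    ∫ x, u x ^ 2 ≤ 4 * β ^ 2 * R ^ 2 * Nb b u u := by
  have h := Iw_poincare (ε := 0) hU le_rfl hβ hcone 2 hu
  have e1 : Iw b o 0 (2 - 2) (fun x => u x ^ 2) = ∫ x, u x ^ 2 := by
    simp [Iw]
  have e2 : Iw b o 0 2 (fun x => (D (b 1) u x) ^ 2) ≤ R ^ 2 * ∫ x, (D (b 1) u x) ^ 2 := by
    rw [Iw, ← integral_const_mul]
    refine integral_mono (Iw_integrable hU le_rfl 2 (hu.D _).sq')
      ((hu.D _).sq'.integrable.const_mul _) fun x => ?_
    by_cases hx : x ∈ U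
    · have h0 := hU x hx
      have h1 := hR x hx
      simp only
      refine mul_le_mul_of_nonneg_right ?_ (sq_nonneg _)
      rw [add_zero, Real.rpow_two]
      nlinarith
    · simp [(hu.D (b 1)).eq_zero hx]
  rw [e1] at h
  rw [Nb_self_split hu]
  have h3 : 0 ≤ ∫ x, (D (b 0) u x) ^ 2 := integral_nonneg fun x => sq_nonneg _
  have h4 : 4 * β ^ 2 * Iw b o 0 2 (fun x => (D (b 1) u x) ^ 2) ≤
      4 * β ^ 2 * (R ^ 2 * ∫ x, (D (b 1) u x) ^ 2) :=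
    mul_le_mul_of_nonneg_left e2 (by positivity)
  have h5 : 0 ≤ 4 * β ^ 2 * R ^ 2 * ∫ x, (D (b 0) u x) ^ 2 := by positivity
  nlinarith

/-- The gradient part of the weighted form. -/
lemma Nb_pw_le {q : ℝ} (hU : ∀ x ∈ U, 0 < cx b o x) (hε : 0 ≤ ε) (hq : 0 ≤ q) (hu : TF U u) :
    Nb b u (fun x => (cx b o x + ε) ^ (-q) * u x) ≤
      Iw b o ε (-q) (fun x => (D (b 0) u x) ^ 2) + Iw b o ε (-q) (fun x => (D (b 1) u x) ^ 2) := by
  have e : Nb b u (fun x => (cx b o x + ε) ^ (-q) * u x) =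
      ∫ x, (((cx b o x + ε) ^ (-q) * (D (b 0) u x) ^ 2 + (cx b o x + ε) ^ (-q) * (D (b 1) u x) ^ 2)
        + (-q) * ((cx b o x + ε) ^ (-q - 1) * (u x * D (b 0) u x))) := by
    simp only [Nb]
    rw [pw_D hU hε (-q) hu (b 0), pw_D hU hε (-q) hu (b 1), inner00, inner01]
    congr 1; ext x; ring
  rw [e, integral_add (iadd (Iw_integrable hU hε (-q) (hu.D _).sq')
    (Iw_integrable hU hε (-q) (hu.D _).sq')) ((Iw_integrable hU hε (-q - 1)
      (hu.mul' (hu.D _))).const_mul _), integral_add (Iw_integrable hU hε (-q) (hu.D _).sq')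
    (Iw_integrable hU hε (-q) (hu.D _).sq'), integral_const_mul]
  have h := Iw_sq0 hU hε (-q - 1) (-q - 2) (by ring) hu
  have n6 : 0 ≤ Iw b o ε (-q - 2) (fun x => u x ^ 2) :=
    Iw_nonneg (-q - 2) hU hε (fun x _ => sq_nonneg _)
      (fun x hx => by rw [hu.eq_zero hx]; ring)
  change Iw b o ε (-q) (fun x => (D (b 0) u x) ^ 2) + Iw b o ε (-q) (fun x => (D (b 1) u x) ^ 2)
    + -q * Iw b o ε (-q - 1) (fun x => u x * D (b 0) u x) ≤ _
  rw [h]
  have : 0 ≤ q * ((q + 1) / 2 * Iw b o ε (-q - 2) (fun x => u x ^ 2)) := by positivity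
  nlinarith

lemma weight_split {Λ k q : ℝ} (hΛ : 0 < Λ) (hk : 0 < k) (hq : 0 < q) :
    ∃ C : ℝ, 0 ≤ C ∧ ∀ X : ℝ, 0 < X → Λ * X ^ (-q) ≤ k * X ^ (-q - 2) + C := by
  set r₀ : ℝ := Real.sqrt (k / Λ) with hr₀
  have hr0 : 0 < r₀ := Real.sqrt_pos.2 (by positivity)
  have hr2 : r₀ ^ 2 = k / Λ := Real.sq_sqrt (by positivity)
  refine ⟨Λ * r₀ ^ (-q), by positivity, fun X hX => ?_⟩
  rcases le_total X r₀ with h | h
  · obtain ⟨-, p2, -, -⟩ := rp hX (-q)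
    have hXq : 0 < X ^ (-q) := Real.rpow_pos_of_pos hX _
    have : Λ * X ^ (-q) ≤ k * X ^ (-q - 2) := by
      rw [p2]
      have h1 : X ^ 2 ≤ k / Λ := by
        rw [← hr2]; exact pow_le_pow_left₀ hX.le h 2
      have h2 : Λ * X ^ 2 ≤ k := by
        rw [le_div_iff₀ hΛ] at h1; linarith
      rw [mul_div_assoc', le_div_iff₀ (by positivity)]
      nlinarith
    have h3 : 0 ≤ Λ * r₀ ^ (-q) := by positivity
    linarith
  · have h1 : X ^ (-q) ≤ r₀ ^ (-q) :=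
      Real.rpow_le_rpow_of_nonpos hr0 h (by linarith)
    have h3 : 0 ≤ k * X ^ (-q - 2) := by positivity
    nlinarith

lemma Iw_split {Λ k q C : ℝ} (hU : ∀ x ∈ U, 0 < cx b o x) (hε : 0 ≤ ε)
    (hC : ∀ X : ℝ, 0 < X → Λ * X ^ (-q) ≤ k * X ^ (-q - 2) + C) (hf : TF U f) :
    Λ * Iw b o ε (-q) (fun x => f x ^ 2) ≤
      k * Iw b o ε (-q - 2) (fun x => f x ^ 2) + C * ∫ x, f x ^ 2 := by
  rw [Iw, Iw, ← integral_const_mul, ← integral_const_mul, ← integral_const_mul,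
    ← integral_add ((Iw_integrable hU hε (-q - 2) hf.sq').const_mul _)
      (hf.sq'.integrable.const_mul _)]
  refine integral_mono ((Iw_integrable hU hε (-q) hf.sq').const_mul _)
    (((Iw_integrable hU hε (-q - 2) hf.sq').const_mul _).add
      (hf.sq'.integrable.const_mul _)) fun x => ?_
  by_cases hx : x ∈ U
  · have h0 := hU x hx
    have h1 := hC (cx b o x + ε) (by linarith)
    have h2 := mul_le_mul_of_nonneg_right h1 (sq_nonneg (f x))
    simp only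
    nlinarith
  · simp [hf.eq_zero hx]

/-- Crude bound for the Laplacian of `X^(-q) u`. -/
lemma Eb_pw_le {q : ℝ} (hU : ∀ x ∈ U, 0 < cx b o x) (hε : 0 < ε) (hq : 0 ≤ q) :
    ∃ K : ℝ, 0 ≤ K ∧ ∀ u, TF U u →
      Eb b (fun x => (cx b o x + ε) ^ (-q) * u x) (fun x => (cx b o x + ε) ^ (-q) * u x) ≤
        K * (Eb b u u + Nb b u u + ∫ x, u x ^ 2) := by
  set A : ℝ := ε ^ (-q) with hA
  set B : ℝ := 2 * -q * ε ^ (-q - 1) with hB
  set C : ℝ := -q * (-q - 1) * ε ^ (-q - 2) with hC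
  refine ⟨3 * (A ^ 2 + B ^ 2 + C ^ 2), by positivity, fun u hu => ?_⟩
  have hL := (hu.Lp (b := b))
  have i1 := hL.sq'.integrable
  have i2 := (hu.D (b 0)).sq'.integrable
  have i3 := (hu.D (b 1)).sq'.integrable
  have i4 := hu.sq'.integrable
  rw [Eb_self, Eb_self, Nb_self, ← integral_add i1 (iadd i2 i3),
    ← integral_add (iadd i1 (iadd i2 i3)) i4, ← integral_const_mul]
  refine integral_mono ((pw_TF hU hε.le (-q) hu).Lp (b := b)).sq'.integrable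
    ((iadd (iadd i1 (iadd i2 i3)) i4).const_mul _) fun x => ?_
  by_cases hx : x ∈ U
  · have h0 := hU x hx
    have hX : 0 < cx b o x + ε := by linarith
    have hXε : ε ≤ cx b o x + ε := by linarith
    have e : Lp b (fun x => (cx b o x + ε) ^ (-q) * u x) x = _ := lap_pw hU hε.le (-q) hu x
    have b1 : (cx b o x + ε) ^ (-q) ≤ A :=
      Real.rpow_le_rpow_of_nonpos hε hXε (by linarith)
    have b2 : (cx b o x + ε) ^ (-q - 1) ≤ ε ^ (-q - 1) :=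
      Real.rpow_le_rpow_of_nonpos hε hXε (by linarith)
    have b3 : (cx b o x + ε) ^ (-q - 2) ≤ ε ^ (-q - 2) :=
      Real.rpow_le_rpow_of_nonpos hε hXε (by linarith)
    have p1 : 0 < (cx b o x + ε) ^ (-q) := Real.rpow_pos_of_pos hX _
    have p2 : 0 < (cx b o x + ε) ^ (-q - 1) := Real.rpow_pos_of_pos hX _
    have p3 : 0 < (cx b o x + ε) ^ (-q - 2) := Real.rpow_pos_of_pos hX _
    have s1 : ((cx b o x + ε) ^ (-q)) ^ 2 ≤ A ^ 2 := pow_le_pow_left₀ p1.le b1 2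
    have s2 : (2 * -q * (cx b o x + ε) ^ (-q - 1)) ^ 2 ≤ B ^ 2 := by
      rw [hB, mul_pow, mul_pow (2 * -q)]
      exact mul_le_mul_of_nonneg_left (pow_le_pow_left₀ p2.le b2 2) (sq_nonneg _)
    have s3 : (-q * (-q - 1) * (cx b o x + ε) ^ (-q - 2)) ^ 2 ≤ C ^ 2 := by
      rw [hC, mul_pow, mul_pow (-q * (-q - 1))]
      exact mul_le_mul_of_nonneg_left (pow_le_pow_left₀ p3.le b3 2) (sq_nonneg _)
    simp only
    rw [e]
    change ((cx b o x + ε) ^ (-q) * (Lp b u x) + 2 * -q * ((cx b o x + ε) ^ (-q - 1) * D (b 0) u x)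
        + -q * (-q - 1) * ((cx b o x + ε) ^ (-q - 2) * u x)) ^ 2 ≤ _
    generalize (cx b o x + ε) ^ (-q) = w0 at *
    generalize (cx b o x + ε) ^ (-q - 1) = w1 at *
    generalize (cx b o x + ε) ^ (-q - 2) = w2 at *
    generalize Lp b u x = L at *
    generalize D (b 0) u x = u1 at *
    generalize D (b 1) u x = u2 at *
    generalize u x = u0 at *
    have t1 : (w0 * L) ^ 2 ≤ A ^ 2 * L ^ 2 := by
      rw [mul_pow]; exact mul_le_mul_of_nonneg_right s1 (sq_nonneg _)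
    have t2 : (2 * -q * (w1 * u1)) ^ 2 ≤ B ^ 2 * u1 ^ 2 := by
      have := mul_le_mul_of_nonneg_right s2 (sq_nonneg u1)
      calc _ = (2 * -q * w1) ^ 2 * u1 ^ 2 := by ring
        _ ≤ _ := this
    have t3 : (-q * (-q - 1) * (w2 * u0)) ^ 2 ≤ C ^ 2 * u0 ^ 2 := by
      have := mul_le_mul_of_nonneg_right s3 (sq_nonneg u0)
      calc _ = (-q * (-q - 1) * w2) ^ 2 * u0 ^ 2 := by ring
        _ ≤ _ := this
    have t4 : ∀ a b c : ℝ, (a + b + c) ^ 2 ≤ 3 * (a ^ 2 + b ^ 2 + c ^ 2) := by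
      intro a b c
      nlinarith [sq_nonneg (a - b), sq_nonneg (b - c), sq_nonneg (a - c)]
    refine (t4 _ _ _).trans ?_
    have m1 : 0 ≤ A ^ 2 * u1 ^ 2 := by positivity
    have m2 : 0 ≤ A ^ 2 * u2 ^ 2 := by positivity
    have m3 : 0 ≤ A ^ 2 * u0 ^ 2 := by positivity
    have m4 : 0 ≤ B ^ 2 * L ^ 2 := by positivity
    have m5 : 0 ≤ B ^ 2 * u2 ^ 2 := by positivity
    have m6 : 0 ≤ B ^ 2 * u0 ^ 2 := by positivity
    have m7 : 0 ≤ C ^ 2 * L ^ 2 := by positivity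
    have m8 : 0 ≤ C ^ 2 * u1 ^ 2 := by positivity
    have m9 : 0 ≤ C ^ 2 * u2 ^ 2 := by positivity
    nlinarith
  · simp [((pw_TF hU hε.le (-q) hu).Lp (b := b)).eq_zero hx, hL.eq_zero hx, hu.eq_zero hx,
      (hu.D (b 0)).eq_zero hx, (hu.D (b 1)).eq_zero hx]

/-- Uniform weighted bound for near minimisers. -/
lemma weighted_bound {Λ CP β κ q : ℝ} (hU : ∀ x ∈ U, 0 < cx b o x)
    (hCP : 0 ≤ CP) (hPoin : ∀ u, TF U u → ∫ x, u x ^ 2 ≤ CP * Nb b u u) (hβ : 2 ≤ β)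
    (hcone : ∀ x ∈ U, |cy b o x| ≤ β * cx b o x) (hκ : κ = 1 / (4 * β ^ 2))
    (hq : q = 1 + κ ^ 2 / 40) (hΛ0 : 0 < Λ)
    (hΛ : ∀ φ, TF U φ → Λ * Nb b φ φ ≤ Eb b φ φ) :
    ∃ M : ℝ, 0 ≤ M ∧ ∀ ε > (0 : ℝ), ∃ η₀ > (0 : ℝ), ∀ η > (0 : ℝ), η ≤ η₀ → ∀ u, TF U u →
      Nb b u u = 1 → Eb b u u ≤ Λ + η ^ 2 →
      Iw b o ε (-q) (fun x => Lp b u x ^ 2) + Iw b o ε (-q - 2) (fun x => (D (b 0) u x) ^ 2)
        + Iw b o ε (-q - 4) (fun x => u x ^ 2) ≤ M := by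
  have hβ2 : 4 ≤ β ^ 2 := by nlinarith
  have hκ0 : 0 < κ := by rw [hκ]; positivity
  have hq1 : 1 ≤ q := by rw [hq]; nlinarith [sq_nonneg κ]
  obtain ⟨C, hC0, hC⟩ := weight_split (k := κ ^ 2 / 8) (q := q) hΛ0 (by positivity) (by linarith)
  set S₀ : ℝ := 8 * (1 + C) / κ ^ 2 with hS₀
  refine ⟨2 * (1 + C) + (2 * q * (q + 1) + 2) * S₀, by positivity, fun ε hε => ?_⟩
  obtain ⟨K, hK0, hK⟩ := Eb_pw_le (b := b) (o := o) (q := q) hU hε (by linarith)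
  set T : ℝ := K * (Λ + 1 + 1 + CP) with hT
  have hT0 : 0 ≤ T := by positivity
  refine ⟨min 1 (1 / (1 + T)), by positivity, fun η hη hηle u hu hN hE => ?_⟩
  have hη1 : η ≤ 1 := hηle.trans (min_le_left _ _)
  have hη2 : η * (1 + T) ≤ 1 := by
    have := hηle.trans (min_le_right _ _)
    rw [le_div_iff₀ (by positivity)] at this
    exact this
  have hP := hPoin u hu
  rw [hN, mul_one] at hP
  have hEφ : Eb b (fun x => (cx b o x + ε) ^ (-q) * u x) (fun x => (cx b o x + ε) ^ (-q) * u x)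
      ≤ T := by
    refine (hK u hu).trans ?_
    rw [hT]
    refine mul_le_mul_of_nonneg_left ?_ hK0
    rw [hN]
    nlinarith
  have hnear := near_min hΛ0.le hΛ hη hu hN hE (pw_TF hU hε.le (-q) hu)
  obtain ⟨hc1, hc2, hc3⟩ := coercive hU hε.le hβ hcone hκ hq hu
  have hNb := Nb_pw_le hU hε.le (by linarith : (0 : ℝ) ≤ q) hu
  have hs1 := Iw_split hU hε.le hC (hu.D (b 0))
  have hs2 := Iw_split hU hε.le hC (hu.D (b 1))
  rw [Nb_self_split hu] at hN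
  have n4 : 0 ≤ Iw b o ε (-q - 2) (fun x => (D (b 0) u x) ^ 2) :=
    Iw_nonneg (-q - 2) hU hε.le (fun x _ => sq_nonneg _)
      (fun x hx => by rw [(hu.D (b 0)).eq_zero hx]; ring)
  have n5 : 0 ≤ Iw b o ε (-q - 2) (fun x => (D (b 1) u x) ^ 2) :=
    Iw_nonneg (-q - 2) hU hε.le (fun x _ => sq_nonneg _)
      (fun x hx => by rw [(hu.D (b 1)).eq_zero hx]; ring)
  generalize Eb b (fun x => (cx b o x + ε) ^ (-q) * u x) (fun x => (cx b o x + ε) ^ (-q) * u x)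
    = Eφ at *
  generalize Eb b u (fun x => (cx b o x + ε) ^ (-q) * u x) = A at *
  generalize Nb b u (fun x => (cx b o x + ε) ^ (-q) * u x) = Nφ at *
  generalize Iw b o ε (-q) (fun x => (D (b 0) u x) ^ 2) = gx at *
  generalize Iw b o ε (-q) (fun x => (D (b 1) u x) ^ 2) = gy at *
  generalize Iw b o ε (-q - 2) (fun x => (D (b 0) u x) ^ 2) = bx at *
  generalize Iw b o ε (-q - 2) (fun x => (D (b 1) u x) ^ 2) = by' at *
  generalize Iw b o ε (-q - 4) (fun x => u x ^ 2) = cc at *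
  generalize Iw b o ε (-q) (fun x => Lp b u x ^ 2) = LL at *
  generalize (∫ x, (D (b 0) u x) ^ 2) = N0 at *
  generalize (∫ x, (D (b 1) u x) ^ 2) = N1 at *
  have h1 : A ≤ 1 + Λ * Nφ := by
    have h2 := (abs_le.1 hnear).2
    have h3 : η * (1 + Eφ) / 2 ≤ 1 := by nlinarith
    linarith
  have h2 : Λ * Nφ ≤ κ ^ 2 / 8 * (bx + by') + C := by
    have : Λ * Nφ ≤ Λ * (gx + gy) := mul_le_mul_of_nonneg_left hNb hΛ0.le
    have h5 : C * N0 + C * N1 = C := by rw [← mul_add, hN, mul_one]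
    nlinarith
  have hS : bx + by' ≤ S₀ := by
    rw [hS₀, le_div_iff₀ (by positivity)]
    nlinarith
  have hbx : bx ≤ S₀ := by linarith
  have hκS : κ ^ 2 / 8 * S₀ = 1 + C := by rw [hS₀]; field_simp
  have hA : A ≤ 2 * (1 + C) := by
    have : κ ^ 2 / 8 * (bx + by') ≤ κ ^ 2 / 8 * S₀ := mul_le_mul_of_nonneg_left hS (by positivity)
    linarith
  have hfin : 2 * q * (q + 1) * bx ≤ 2 * q * (q + 1) * S₀ :=
    mul_le_mul_of_nonneg_left hbx (by positivity)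
  nlinarith

end Pool.Agent.H873R3
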