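import Pool.Agent.H873R3.BuckDefs

/-!
# Calculus of compactly supported smooth functions of the plane
-/

noncomputable section

namespace Pool.Agent.H873R3

open MeasureTheory Set Filter Topology InnerProductSpace
open scoped ContDiff Gradient

namespace TF

variable {U : Set Pl} {f g : Pl → ℝ}

lemma smooth (hf : TF U f) : ContDiff ℝ ∞ f := hf.1

lemma cont (hf : TF U f) : Continuous f := hf.1.continuous

lemma diff (hf : TF U f) : Differentiable ℝ f := hf.1.differentiable (by simp)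

lemma integrable (hf : TF U f) : Integrable f := hf.cont.integrable_of_hasCompactSupport hf.2.1

lemma eq_zero (hf : TF U f) {x : Pl} (hx : x ∉ U) : f x = 0 :=
  image_eq_zero_of_notMem_tsupport fun h => hx (hf.2.2 h)

lemma mono {V : Set Pl} (hf : TF U f) (h : U ⊆ V) : TF V f := ⟨hf.1, hf.2.1, hf.2.2.trans h⟩

lemma of_subset (hf : TF U f) (hg : ContDiff ℝ ∞ g) (h : tsupport g ⊆ tsupport f) : TF U g :=
  ⟨hg, hf.2.1.of_isClosed_subset (isClosed_tsupport g) h, h.trans hf.2.2⟩

lemma add (hf : TF U f) (hg : TF U g) : TF U (f + g) :=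
  ⟨hf.1.add hg.1, hf.2.1.add hg.2.1,
    (closure_mono (Function.support_add f g)).trans (by
      rw [closure_union]; exact union_subset hf.2.2 hg.2.2)⟩

lemma mul_left (hg : TF U g) (hf : ContDiff ℝ ∞ f) : TF U (f * g) :=
  hg.of_subset (hf.mul hg.1) (closure_mono (Function.support_mul_subset_right f g))

lemma mul (hf : TF U f) (hg : TF U g) : TF U (f * g) := hg.mul_left hf.1

lemma smul (hf : TF U f) (c : ℝ) : TF U (fun x => c * f x) :=
  hf.mul_left (f := fun _ => c) contDiff_const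

lemma neg (hf : TF U f) : TF U (-f) := by
  have := hf.smul (-1)
  convert this using 1
  ext x; simp

lemma sub (hf : TF U f) (hg : TF U g) : TF U (f - g) := by
  rw [sub_eq_add_neg]; exact hf.add hg.neg

lemma tsupport_D (v : Pl) (f : Pl → ℝ) : tsupport (D v f) ⊆ tsupport f := by
  refine closure_minimal ?_ (isClosed_tsupport f)
  intro x hx
  by_contra h
  apply hx
  have : fderiv ℝ f x = 0 := by
    have h1 : f =ᶠ[𝓝 x] 0 := notMem_tsupport_iff_eventuallyEq.1 h
    rw [h1.fderiv_eq]; simp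
  simp [D, this]

lemma D (hf : TF U f) (v : Pl) : TF U (D v f) :=
  hf.of_subset ((hf.1.fderiv_right (m := ∞) (by simp)).clm_apply contDiff_const)
    (tsupport_D v f)

lemma int_D (hf : TF U f) (v : Pl) : ∫ x, H873R3.D v f x = 0 := by
  have h := integral_mul_fderiv_eq_neg_fderiv_mul_of_integrable (μ := (volume : Measure Pl))
    (f := fun _ => (1 : ℝ)) (g := f) (v := v) (by simp)
    (by simp only [one_mul]; exact (hf.D v).integrable)
    (by simpa using hf.integrable) (fun x _ => by fun_prop) (fun x _ => hf.diff x)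
  simpa [H873R3.D] using h

end TF

lemma D_add {f g : Pl → ℝ} (hf : Differentiable ℝ f) (hg : Differentiable ℝ g) (v : Pl) :
    D v (f + g) = D v f + D v g := by
  ext x; simp [D, fderiv_add (hf x) (hg x)]

lemma D_sub {f g : Pl → ℝ} (hf : Differentiable ℝ f) (hg : Differentiable ℝ g) (v : Pl) :
    D v (f - g) = D v f - D v g := by
  ext x; simp [D, fderiv_sub (hf x) (hg x)]

lemma D_mul {f g : Pl → ℝ} (hf : Differentiable ℝ f) (hg : Differentiable ℝ g) (v : Pl) :
    D v (f * g) = D v f * g + f * D v g := by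
  ext x; simp [D, fderiv_mul (hf x) (hg x)]; ring

lemma D_smul {f : Pl → ℝ} (hf : Differentiable ℝ f) (c : ℝ) (v : Pl) :
    D v (fun x => c * f x) = fun x => c * D v f x := by
  ext x
  have := fderiv_const_mul (hf x) c
  simp only [D]
  rw [this]; simp

lemma D_D_eq {f : Pl → ℝ} (hf : ContDiff ℝ ∞ f) (a b x : Pl) :
    D a (D b f) x = fderiv ℝ (fderiv ℝ f) x a b := by
  have hd : DifferentiableAt ℝ (fderiv ℝ f) x :=
    ((hf.fderiv_right (m := ∞) (by simp)).differentiable (by simp)) x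
  change fderiv ℝ (fun y => fderiv ℝ f y b) x a = _
  rw [fderiv_clm_apply hd (differentiableAt_const b)]
  simp

lemma D_comm {f : Pl → ℝ} (hf : ContDiff ℝ ∞ f) (v w : Pl) : D v (D w f) = D w (D v f) := by
  ext x
  rw [D_D_eq hf, D_D_eq hf]
  have h2 : ContDiffAt ℝ 2 f x := (contDiff_infty.1 hf 2).contDiffAt
  exact (h2.isSymmSndFDerivAt (by simp)).eq v w

/-- The Laplacian in an orthonormal frame. -/
lemma laplacian_eq {f : Pl → ℝ} (hf : ContDiff ℝ ∞ f) (b : OrthonormalBasis (Fin 2) ℝ Pl) (x : Pl) :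
    Laplacian.laplacian f x = D (b 0) (D (b 0) f) x + D (b 1) (D (b 1) f) x := by
  rw [laplacian_eq_iteratedFDeriv_orthonormalBasis f b]
  simp [iteratedFDeriv_two_apply, Fin.sum_univ_two, D_D_eq hf]

/-- The squared norm of the gradient in an orthonormal frame. -/
lemma gradient_eq_frame (f : Pl → ℝ) (b : OrthonormalBasis (Fin 2) ℝ Pl) (x : Pl) :
    ‖gradient f x‖ ^ 2 = (D (b 0) f x) ^ 2 + (D (b 1) f x) ^ 2 := by
  rw [← b.sum_sq_norm_inner_left (gradient f x)]
  simp [Fin.sum_univ_two, inner_gradient_left, D]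

/-- The divergence in an orthonormal frame. -/
lemma divergence_eq (φ : Pl → Pl) (b : OrthonormalBasis (Fin 2) ℝ Pl) (x : Pl) :
    divergence φ x = ⟪b 0, fderiv ℝ φ x (b 0)⟫_ℝ + ⟪b 1, fderiv ℝ φ x (b 1)⟫_ℝ := by
  have h1 := LinearMap.trace_eq_sum_inner ((fderiv ℝ φ x : Pl →L[ℝ] Pl) : Pl →ₗ[ℝ] Pl) b
  have h2 := LinearMap.trace_eq_sum_inner ((fderiv ℝ φ x : Pl →L[ℝ] Pl) : Pl →ₗ[ℝ] Pl)
    (EuclideanSpace.basisFun (Fin 2) ℝ)
  rw [h2] at h1
  simp only [Fin.sum_univ_two, ContinuousLinearMap.coe_coe] at h1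
  rw [← h1]
  simp [divergence, Fin.sum_univ_two, EuclideanSpace.inner_single_left]

end Pool.Agent.H873R3
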