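import Pool.Agent.H873R3.BuckWeighted

/-!
# Coercivity of the weighted form and the near minimiser argument
-/

noncomputable section

namespace Pool.Agent.H873R3

open MeasureTheory Set Filter Topology InnerProductSpace
open scoped ContDiff Gradient

/-- The Laplacian in the frame. -/
def Lp (b : OrthonormalBasis (Fin 2) ℝ Pl) (u : Pl → ℝ) : Pl → ℝ :=
  fun x => D (b 0) (D (b 0) u) x + D (b 1) (D (b 1) u) x

/-- `∫ Δu Δφ`. -/
def Eb (b : OrthonormalBasis (Fin 2) ℝ Pl) (u φ : Pl → ℝ) : ℝ := ∫ x, Lp b u x * Lp b φ x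

/-- `∫ ∇u ∇φ`. -/
def Nb (b : OrthonormalBasis (Fin 2) ℝ Pl) (u φ : Pl → ℝ) : ℝ :=
  ∫ x, (D (b 0) u x * D (b 0) φ x + D (b 1) u x * D (b 1) φ x)

variable {b : OrthonormalBasis (Fin 2) ℝ Pl} {o : Pl}
variable {U : Set Pl} {f g h u v φ : Pl → ℝ} {ε : ℝ}

lemma TF.Lp (hu : TF U u) : TF U (H873R3.Lp b u) := ((hu.D _).D _).add' ((hu.D _).D _)

lemma Lp_add (hu : TF U u) (hv : TF U v) : Lp b (u + v) = Lp b u + Lp b v := by
  ext x
  simp only [Lp, Pi.add_apply]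
  rw [D_add hu.diff hv.diff, D_add hu.diff hv.diff, D_add (hu.D _).diff (hv.D _).diff,
    D_add (hu.D _).diff (hv.D _).diff]
  simp only [Pi.add_apply]; ring

lemma Lp_smul (hu : TF U u) (t : ℝ) : Lp b (fun x => t * u x) = fun x => t * Lp b u x := by
  ext x
  simp only [Lp]
  rw [D_smul hu.diff, D_smul hu.diff, D_smul (hu.D _).diff, D_smul (hu.D _).diff]
  ring

lemma Nb_nonneg (u : Pl → ℝ) : 0 ≤ Nb b u u :=
  integral_nonneg fun _ => add_nonneg (mul_self_nonneg _) (mul_self_nonneg _)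

lemma Eb_nonneg (u : Pl → ℝ) : 0 ≤ Eb b u u := integral_nonneg fun _ => mul_self_nonneg _

lemma Eb_expand (hu : TF U u) (hv : TF U v) (t : ℝ) :
    Eb b (u + fun x => t * v x) (u + fun x => t * v x) =
      Eb b u u + 2 * t * Eb b u v + t ^ 2 * Eb b v v := by
  have i1 := (hu.Lp (b := b)).mul' (hu.Lp (b := b)) |>.integrable
  have i2 := ((hu.Lp (b := b)).mul' (hv.Lp (b := b)) |>.integrable).const_mul (2 * t)
  have i3 := ((hv.Lp (b := b)).mul' (hv.Lp (b := b)) |>.integrable).const_mul (t ^ 2)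
  simp only [Eb]
  rw [Lp_add hu (hv.smul t), Lp_smul hv, ← integral_const_mul, ← integral_const_mul,
    ← integral_add i1 i2, ← integral_add (iadd i1 i2) i3]
  congr 1; ext x; simp only [Pi.add_apply]; ring

lemma Nb_expand (hu : TF U u) (hv : TF U v) (t : ℝ) :
    Nb b (u + fun x => t * v x) (u + fun x => t * v x) =
      Nb b u u + 2 * t * Nb b u v + t ^ 2 * Nb b v v := by
  have i1 := ((hu.D (b 0)).mul' (hu.D (b 0))).add' ((hu.D (b 1)).mul' (hu.D (b 1))) |>.integrable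
  have i2 := (((hu.D (b 0)).mul' (hv.D (b 0))).add' ((hu.D (b 1)).mul' (hv.D (b 1)))
    |>.integrable).const_mul (2 * t)
  have i3 := (((hv.D (b 0)).mul' (hv.D (b 0))).add' ((hv.D (b 1)).mul' (hv.D (b 1)))
    |>.integrable).const_mul (t ^ 2)
  simp only [Nb]
  rw [D_add hu.diff (hv.smul t).diff, D_add hu.diff (hv.smul t).diff, D_smul hv.diff,
    D_smul hv.diff, ← integral_const_mul, ← integral_const_mul,
    ← integral_add i1 i2, ← integral_add (iadd i1 i2) i3]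
  congr 1; ext x; simp only [Pi.add_apply]; ring

/-- The near minimiser trick. -/
lemma near_min {Λ η : ℝ} (hΛ0 : 0 ≤ Λ) (hΛ : ∀ φ, TF U φ → Λ * Nb b φ φ ≤ Eb b φ φ)
    (hη : 0 < η) (hu : TF U u) (hN : Nb b u u = 1) (hE : Eb b u u ≤ Λ + η ^ 2) (hφ : TF U φ) :
    |Eb b u φ - Λ * Nb b u φ| ≤ η * (1 + Eb b φ φ) / 2 := by
  have key : ∀ t : ℝ, 0 ≤ η ^ 2 + 2 * t * (Eb b u φ - Λ * Nb b u φ) + t ^ 2 * Eb b φ φ := by
    intro t
    have h := hΛ _ (hu.add (hφ.smul t))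
    rw [Eb_expand hu hφ, Nb_expand hu hφ, hN] at h
    have h2 : 0 ≤ Λ * (t ^ 2 * Nb b φ φ) := by
      have := Nb_nonneg (b := b) φ
      positivity
    nlinarith
  have k1 := key η
  have k2 := key (-η)
  rw [abs_le]
  constructor
  · by_contra hcon
    push Not at hcon
    nlinarith
  · by_contra hcon
    push Not at hcon
    nlinarith

/-- Coercivity of the weighted form for exponents slightly larger than one. -/
lemma coercive {β κ q : ℝ} (hU : ∀ x ∈ U, 0 < cx b o x) (hε : 0 ≤ ε) (hβ : 2 ≤ β)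
    (hcone : ∀ x ∈ U, |cy b o x| ≤ β * cx b o x) (hκ : κ = 1 / (4 * β ^ 2))
    (hq : q = 1 + κ ^ 2 / 40) (hu : TF U u) :
    κ ^ 2 / 4 * (Iw b o ε (-q - 2) (fun x => (D (b 0) u x) ^ 2)
        + Iw b o ε (-q - 2) (fun x => (D (b 1) u x) ^ 2))
      ≤ Eb b u (fun x => (cx b o x + ε) ^ (-q) * u x) ∧
    Iw b o ε (-q) (fun x => Lp b u x ^ 2) ≤ Eb b u (fun x => (cx b o x + ε) ^ (-q) * u x)
      + 2 * q * (q + 1) * Iw b o ε (-q - 2) (fun x => (D (b 0) u x) ^ 2) ∧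
    Iw b o ε (-q - 4) (fun x => u x ^ 2) ≤ Iw b o ε (-q - 2) (fun x => (D (b 0) u x) ^ 2) := by
  have hβ2 : 4 ≤ β ^ 2 := by nlinarith
  have hκ0 : 0 < κ := by rw [hκ]; positivity
  have hκ1 : κ ≤ 1 / 16 := by
    rw [hκ]
    apply one_div_le_one_div_of_le (by norm_num); linarith
  have hκβ : 4 * β ^ 2 * κ = 1 := by rw [hκ]; field_simp
  have hform := form_pw hU hε (-q) hu
  have hlap := Iw_lap_sq hU hε (-q) hu
  have hJ1 := Iw_J1 hU hε (-q) hu
  have hH1 := Iw_hardy hU hε (-q) (hu.D (b 1))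
  have hH2 := Iw_hardy hU hε (-q - 2) hu
  have hP1 := Iw_poincare hU hε (by linarith : (0 : ℝ) ≤ β) hcone (-q) (hu.D (b 0))
  have hP2 := Iw_poincare hU hε (by linarith : (0 : ℝ) ≤ β) hcone (-q) (hu.D (b 1))
  have c1 : D (b 1) (D (b 0) u) = D (b 0) (D (b 1) u) := D_comm hu.1 _ _
  rw [c1] at hP1
  have e4 : (-q - 2 - 2 : ℝ) = -q - 4 := by ring
  rw [e4] at hH2
  change Eb b u (fun x => (cx b o x + ε) ^ (-q) * u x) = _ at hform
  change Iw b o ε (-q) (fun x => Lp b u x ^ 2) = _ at hlap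
  rw [hform, hlap]
  have n1 : 0 ≤ Iw b o ε (-q) (fun x => (D (b 0) (D (b 0) u) x) ^ 2) :=
    Iw_nonneg (-q) hU hε (fun x _ => sq_nonneg _)
      (fun x hx => by rw [((hu.D (b 0)).D (b 0)).eq_zero hx]; ring)
  have n2 : 0 ≤ Iw b o ε (-q) (fun x => (D (b 0) (D (b 1) u) x) ^ 2) :=
    Iw_nonneg (-q) hU hε (fun x _ => sq_nonneg _)
      (fun x hx => by rw [((hu.D (b 1)).D (b 0)).eq_zero hx]; ring)
  have n3 : 0 ≤ Iw b o ε (-q) (fun x => (D (b 1) (D (b 1) u) x) ^ 2) :=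
    Iw_nonneg (-q) hU hε (fun x _ => sq_nonneg _)
      (fun x hx => by rw [((hu.D (b 1)).D (b 1)).eq_zero hx]; ring)
  have n4 : 0 ≤ Iw b o ε (-q - 2) (fun x => (D (b 0) u x) ^ 2) :=
    Iw_nonneg (-q - 2) hU hε (fun x _ => sq_nonneg _)
      (fun x hx => by rw [(hu.D (b 0)).eq_zero hx]; ring)
  have n5 : 0 ≤ Iw b o ε (-q - 2) (fun x => (D (b 1) u x) ^ 2) :=
    Iw_nonneg (-q - 2) hU hε (fun x _ => sq_nonneg _)
      (fun x hx => by rw [(hu.D (b 1)).eq_zero hx]; ring)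
  have n6 : 0 ≤ Iw b o ε (-q - 4) (fun x => u x ^ 2) :=
    Iw_nonneg (-q - 4) hU hε (fun x _ => sq_nonneg _)
      (fun x hx => by rw [hu.eq_zero hx]; ring)
  generalize Iw b o ε (-q) (fun x => (D (b 0) (D (b 0) u) x) ^ 2) = axx at *
  generalize Iw b o ε (-q) (fun x => (D (b 0) (D (b 1) u) x) ^ 2) = axy at *
  generalize Iw b o ε (-q) (fun x => (D (b 1) (D (b 1) u) x) ^ 2) = ayy at *
  generalize Iw b o ε (-q - 2) (fun x => (D (b 0) u x) ^ 2) = bx at *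
  generalize Iw b o ε (-q - 2) (fun x => (D (b 1) u x) ^ 2) = by' at *
  generalize Iw b o ε (-q - 4) (fun x => u x ^ 2) = cc at *
  clear hform hlap
  have hq1 : 1 ≤ q := by rw [hq]; nlinarith [sq_nonneg κ]
  have hq2 : q ≤ 2 := by rw [hq]; nlinarith
  have P1 : κ * bx ≤ axy := by nlinarith
  have P2 : κ * by' ≤ ayy := by nlinarith
  have H1 : by' * (1 + κ ^ 2 / 40) ≤ axy := by
    have : (-q - 1) ^ 2 / 4 ≥ 1 + κ ^ 2 / 40 := by rw [hq]; nlinarith [sq_nonneg (κ ^ 2)]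
    nlinarith
  have H2 : cc ≤ bx := by
    have : (-q - 2 - 1) ^ 2 / 4 ≥ 1 := by nlinarith
    nlinarith
  refine ⟨?_, ?_, H2⟩
  · -- main inequality
    set γ : ℝ := κ ^ 2 / 40 with hγ
    have hγ0 : 0 ≤ γ := by positivity
    have hγ1 : γ ≤ 1 / 1000 := by rw [hγ]; nlinarith
    have step1 : axx ≥ 2 * (q + 1) * bx - 2 * (q + 1) * (q + 2) * cc := by nlinarith
    have step2 : 0 ≤ (q + 1) * (q + 2) * (q + 4) * (q - 1) / 2 * cc := by
      have : 0 ≤ q - 1 := by linarith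
      positivity
    have eq1 : -q * (-q - 1) * (-q - 2) * (-q - 3) / 2 * cc - 2 * (q + 1) * (q + 2) * cc =
      (q + 1) * (q + 2) * (q + 4) * (q - 1) / 2 * cc := by ring
    have step3 : axx + 2 * axy + ayy - -q * (-q - 1) * (2 * bx + by')
        + -q * (-q - 1) * (-q - 2) * (-q - 3) / 2 * cc ≥
        2 * (q + 1) * bx + 2 * axy + ayy - q * (q + 1) * (2 * bx + by') := by nlinarith
    have step4 : 2 * axy ≥ κ / 2 * (κ * bx) + 2 * (1 - κ / 4) * (by' * (1 + γ)) := by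
      have h1 : 0 ≤ (κ / 2) * (axy - κ * bx) := by
        apply mul_nonneg (by positivity); linarith
      have h2 : 0 ≤ 2 * (1 - κ / 4) * (axy - by' * (1 + γ)) := by
        apply mul_nonneg; · nlinarith
        · linarith
      nlinarith
    have hk2 : κ ^ 2 = 40 * γ := by rw [hγ]; ring
    have b1 : 2 * (q + 1) * bx - q * (q + 1) * (2 * bx) + κ / 2 * (κ * bx) ≥ κ ^ 2 / 4 * bx := by
      have : 2 * (q + 1) - q * (q + 1) * 2 + κ / 2 * κ - κ ^ 2 / 4 ≥ 0 := by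
        have : κ / 2 * κ = κ ^ 2 / 2 := by ring
        rw [this, hk2, hq]
        nlinarith
      nlinarith
    have b2 : 2 * (1 - κ / 4) * (by' * (1 + γ)) + κ * by' - q * (q + 1) * by' ≥
        κ ^ 2 / 4 * by' := by
      have : 2 * (1 - κ / 4) * (1 + γ) + κ - q * (q + 1) - κ ^ 2 / 4 ≥ 0 := by
        have h40 : γ ≤ κ / 640 := by rw [hγ]; nlinarith
        rw [hk2, hq]
        nlinarith
      nlinarith
    nlinarith
  · have : 0 ≤ -q * (-q - 1) * (-q - 2) * (-q - 3) / 2 * cc := by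
      have e : -q * (-q - 1) * (-q - 2) * (-q - 3) / 2 * cc =
        q * (q + 1) * (q + 2) * (q + 3) / 2 * cc := by ring
      rw [e]
      have : 0 ≤ q := by linarith
      positivity
    nlinarith

end Pool.Agent.H873R3
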