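import Pool.Agent.H873R3.BuckMainG

/-!
# Uniqueness of the supporting line
-/

noncomputable section

namespace Pool.Agent.H873R3

open MeasureTheory Set Filter Topology InnerProductSpace Metric
open scoped ContDiff Gradient Pointwise

lemma strict_support {Ω : Set Pl} (hΩ : IsOpen Ω) {x n : Pl} (hn : ‖n‖ = 1)
    (hs : ∀ y ∈ Ω, ⟪n, y⟫_ℝ ≤ ⟪n, x⟫_ℝ) : ∀ y ∈ Ω, ⟪n, y⟫_ℝ < ⟪n, x⟫_ℝ := by
  intro y hy
  obtain ⟨r, hr, hball⟩ := Metric.isOpen_iff.1 hΩ y hy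
  have hy' : y + (r / 2) • n ∈ Ω := by
    apply hball
    rw [mem_ball, dist_eq_norm, add_sub_cancel_left, norm_smul, hn, mul_one,
      Real.norm_of_nonneg (by positivity)]
    linarith
  have h := hs _ hy'
  rw [inner_add_right, real_inner_smul_right, real_inner_self_eq_norm_sq, hn] at h
  linarith

/-- Two supporting lines at a boundary point of an optimal set coincide. -/
theorem unique_support {p : ℝ} {Ω : Set Pl} (hp : 0 < p) (hopt : IsOptimal p Ω)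
    {x n₁ n₂ : Pl} (hx : x ∈ frontier Ω)
    (h1 : ‖n₁‖ = 1) (h2 : ‖n₂‖ = 1)
    (hs1 : ∀ y ∈ Ω, ⟪n₁, y⟫_ℝ ≤ ⟪n₁, x⟫_ℝ) (hs2 : ∀ y ∈ Ω, ⟪n₂, y⟫_ℝ ≤ ⟪n₂, x⟫_ℝ) :
    n₁ = n₂ := by
  by_contra hne
  have hxc : x ∈ closure Ω := hx.1
  have hΩne : Ω.Nonempty := by
    rw [← closure_nonempty_iff]; exact ⟨x, hxc⟩
  have t1 := strict_support hopt.isOpen h1 hs1
  have t2 := strict_support hopt.isOpen h2 hs2
  have hsum : n₁ + n₂ ≠ 0 := by
    intro h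
    obtain ⟨y, hy⟩ := hΩne
    have h3 : n₂ = -n₁ := by rw [add_comm] at h; exact eq_neg_of_add_eq_zero_left h
    have a1 := t1 y hy
    have a2 := t2 y hy
    rw [h3, inner_neg_left, inner_neg_left] at a2
    linarith
  have hdiff : n₁ - n₂ ≠ 0 := sub_ne_zero.2 hne
  set M : ℝ := ‖n₁ + n₂‖ with hM
  set S : ℝ := ‖n₁ - n₂‖ with hS
  have hM0 : 0 < M := norm_pos_iff.2 hsum
  have hS0 : 0 < S := norm_pos_iff.2 hdiff
  have horth : ⟪n₁ + n₂, n₁ - n₂⟫_ℝ = 0 := by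
    rw [inner_add_left, inner_sub_right, inner_sub_right, real_inner_self_eq_norm_sq,
      real_inner_self_eq_norm_sq, h1, h2, real_inner_comm n₁ n₂]
    ring
  set v : Fin 2 → Pl := ![(-M⁻¹) • (n₁ + n₂), S⁻¹ • (n₁ - n₂)] with hv
  have hvo : Orthonormal ℝ v := by
    rw [orthonormal_iff_ite]
    intro i j
    fin_cases i <;> fin_cases j
    · change ⟪(-M⁻¹) • (n₁ + n₂), (-M⁻¹) • (n₁ + n₂)⟫_ℝ = 1
      rw [real_inner_smul_left, real_inner_smul_right, real_inner_self_eq_norm_sq, ← hM]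
      field_simp
    · change ⟪(-M⁻¹) • (n₁ + n₂), S⁻¹ • (n₁ - n₂)⟫_ℝ = 0
      rw [real_inner_smul_left, real_inner_smul_right, horth]
      ring
    · change ⟪S⁻¹ • (n₁ - n₂), (-M⁻¹) • (n₁ + n₂)⟫_ℝ = 0
      rw [real_inner_smul_left, real_inner_smul_right, real_inner_comm, horth]
      ring
    · change ⟪S⁻¹ • (n₁ - n₂), S⁻¹ • (n₁ - n₂)⟫_ℝ = 1
      rw [real_inner_smul_left, real_inner_smul_right, real_inner_self_eq_norm_sq, ← hS]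
      field_simp
  have hcard : Fintype.card (Fin 2) = Module.finrank ℝ Pl := by simp
  set b : OrthonormalBasis (Fin 2) ℝ Pl :=
    (basisOfOrthonormalOfCardEqFinrank hvo hcard).toOrthonormalBasis
      (by rw [coe_basisOfOrthonormalOfCardEqFinrank]; exact hvo) with hb
  have hbv : ∀ i, b i = v i := by
    intro i
    rw [hb, Module.Basis.coe_toOrthonormalBasis, coe_basisOfOrthonormalOfCardEqFinrank]
  have hb0 : b 0 = (-M⁻¹) • (n₁ + n₂) := by rw [hbv]; rfl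
  have hb1 : b 1 = S⁻¹ • (n₁ - n₂) := by rw [hbv]; rfl
  have hcx : ∀ y, cx b x y = M⁻¹ * (-(⟪n₁, y⟫_ℝ - ⟪n₁, x⟫_ℝ) - (⟪n₂, y⟫_ℝ - ⟪n₂, x⟫_ℝ)) := by
    intro y
    simp only [cx, hb0, real_inner_smul_left, inner_add_left, inner_sub_right]
    ring
  have hcy : ∀ y, cy b x y = S⁻¹ * ((⟪n₁, y⟫_ℝ - ⟪n₁, x⟫_ℝ) - (⟪n₂, y⟫_ℝ - ⟪n₂, x⟫_ℝ)) := by
    intro y
    simp only [cy, hb1, real_inner_smul_left, inner_sub_left, inner_sub_right]
    ring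
  have hU : ∀ y ∈ Ω, 0 < cx b x y := by
    intro y hy
    rw [hcx]
    have a1 := t1 y hy
    have a2 := t2 y hy
    apply mul_pos (by positivity)
    linarith
  refine no_coneG (b := b) (o := x) (β := max (M / S) 2) hp hopt hxc hΩne
    (le_max_right _ _) hU ?_
  intro y hy
  have h0 := hU y hy
  have a1 := t1 y hy
  have a2 := t2 y hy
  have h3 : |cy b x y| ≤ M / S * cx b x y := by
    rw [hcx, hcy, abs_mul, abs_of_pos (by positivity : 0 < S⁻¹)]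
    have h4 : |(⟪n₁, y⟫_ℝ - ⟪n₁, x⟫_ℝ) - (⟪n₂, y⟫_ℝ - ⟪n₂, x⟫_ℝ)| ≤
        -(⟪n₁, y⟫_ℝ - ⟪n₁, x⟫_ℝ) - (⟪n₂, y⟫_ℝ - ⟪n₂, x⟫_ℝ) := by
      rw [abs_le]; constructor <;> linarith
    calc S⁻¹ * |(⟪n₁, y⟫_ℝ - ⟪n₁, x⟫_ℝ) - (⟪n₂, y⟫_ℝ - ⟪n₂, x⟫_ℝ)|
        ≤ S⁻¹ * (-(⟪n₁, y⟫_ℝ - ⟪n₁, x⟫_ℝ) - (⟪n₂, y⟫_ℝ - ⟪n₂, x⟫_ℝ)) :=
          mul_le_mul_of_nonneg_left h4 (by positivity)
      _ = _ := by field_simp
  exact h3.trans (mul_le_mul_of_nonneg_right (le_max_left _ _) h0.le)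

/-- Every boundary point of an open convex set has a supporting line. -/
lemma exists_support {Ω : Set Pl} (hΩ : IsOpen Ω) (hconv : Convex ℝ Ω) {x : Pl}
    (hx : x ∈ frontier Ω) : ∃ n : Pl, ‖n‖ = 1 ∧ ∀ y ∈ Ω, ⟪n, y⟫_ℝ ≤ ⟪n, x⟫_ℝ := by
  have hxn : x ∉ Ω := by
    intro h
    rw [frontier, hΩ.interior_eq] at hx
    exact hx.2 h
  have hΩne : Ω.Nonempty := by
    rw [← closure_nonempty_iff]; exact ⟨x, hx.1⟩
  obtain ⟨f, hf⟩ := geometric_hahn_banach_open_point hconv hΩ hxn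
  set w : Pl := (InnerProductSpace.toDual ℝ Pl).symm f with hw
  have hwf : ∀ y, ⟪w, y⟫_ℝ = f y := fun y => InnerProductSpace.toDual_symm_apply
  have hw0 : w ≠ 0 := by
    intro h
    obtain ⟨y, hy⟩ := hΩne
    have h1 := hf y hy
    rw [← hwf, ← hwf, h, inner_zero_left, inner_zero_left] at h1
    exact lt_irrefl _ h1
  have hwn : 0 < ‖w‖ := norm_pos_iff.2 hw0
  refine ⟨‖w‖⁻¹ • w, ?_, fun y hy => ?_⟩
  · rw [norm_smul, norm_inv, norm_norm, inv_mul_cancel₀ hwn.ne']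
  · rw [real_inner_smul_left, real_inner_smul_left, hwf, hwf]
    exact mul_le_mul_of_nonneg_left (hf y hy).le (by positivity)

end Pool.Agent.H873R3
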