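import Pool.Agent.H873R3.BuckBound

/-!
# Cutting off a near minimiser at a corner
-/

noncomputable section

namespace Pool.Agent.H873R3

open MeasureTheory Set Filter Topology InnerProductSpace
open scoped ContDiff Gradient

/-- The cut-off profile. -/
def chi (s : ℝ) : ℝ := Real.smoothTransition (3 - s)

lemma chi_smooth : ContDiff ℝ ∞ chi :=
  Real.smoothTransition.contDiff.comp (contDiff_const.sub contDiff_id)

lemma chi_one {s : ℝ} (hs : s ≤ 2) : chi s = 1 :=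
  Real.smoothTransition.one_of_one_le (by linarith)

lemma chi_zero {s : ℝ} (hs : 3 ≤ s) : chi s = 0 :=
  Real.smoothTransition.zero_of_nonpos (by linarith)

lemma chi_abs (s : ℝ) : |chi s| ≤ 1 := by
  rw [abs_le]
  have h1 := Real.smoothTransition.nonneg (3 - s)
  have h2 := Real.smoothTransition.le_one (3 - s)
  exact ⟨by unfold chi; linarith, h2⟩

lemma chi_deriv_of_gt {s : ℝ} (hs : 3 < s) : deriv chi s = 0 ∧ deriv (deriv chi) s = 0 := by
  have h : chi =ᶠ[𝓝 s] fun _ => (0 : ℝ) := by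
    filter_upwards [lt_mem_nhds hs] with t ht using chi_zero ht.le
  have h2 := h.deriv
  constructor
  · rw [h.deriv_eq]; simp
  · rw [h2.deriv_eq]; simp

lemma chi_deriv_of_lt {s : ℝ} (hs : s < 2) : deriv chi s = 0 ∧ deriv (deriv chi) s = 0 := by
  have h : chi =ᶠ[𝓝 s] fun _ => (1 : ℝ) := by
    filter_upwards [gt_mem_nhds hs] with t ht using chi_one ht.le
  have h2 := h.deriv
  constructor
  · rw [h.deriv_eq]; simp
  · rw [h2.deriv_eq]; simp

lemma chi_deriv_smooth : ContDiff ℝ ∞ (deriv chi) :=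
  (contDiff_infty_iff_deriv.1 chi_smooth).2

lemma chi_bounds : ∃ K : ℝ, 1 ≤ K ∧ ∀ s, |deriv chi s| ≤ K ∧ |deriv (deriv chi) s| ≤ K := by
  obtain ⟨K1, hK1⟩ := (isCompact_Icc (a := (2 : ℝ)) (b := 3)).exists_bound_of_continuousOn
    chi_deriv_smooth.continuous.continuousOn
  obtain ⟨K2, hK2⟩ := (isCompact_Icc (a := (2 : ℝ)) (b := 3)).exists_bound_of_continuousOn
    (contDiff_infty_iff_deriv.1 chi_deriv_smooth).2.continuous.continuousOn
  refine ⟨max 1 (max K1 K2), le_max_left _ _, fun s => ?_⟩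
  rcases lt_or_ge s 2 with h | h
  · obtain ⟨h1, h2⟩ := chi_deriv_of_lt h
    rw [h1, h2]; simp
  · rcases lt_or_ge 3 s with h' | h'
    · obtain ⟨h1, h2⟩ := chi_deriv_of_gt h'
      rw [h1, h2]; simp
    · exact ⟨(hK1 s ⟨h, h'⟩).trans ((le_max_left _ _).trans (le_max_right _ _)),
        (hK2 s ⟨h, h'⟩).trans ((le_max_right _ _).trans (le_max_right _ _))⟩

/-- The scaled cut-off. -/
def chie (ε : ℝ) (s : ℝ) : ℝ := chi (ε⁻¹ * s)

lemma chie_smooth (ε : ℝ) : ContDiff ℝ ∞ (chie ε) :=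
  chi_smooth.comp (contDiff_const.mul contDiff_id)

lemma chie_deriv (ε : ℝ) : deriv (chie ε) = fun s => ε⁻¹ * deriv chi (ε⁻¹ * s) := by
  ext s
  have := deriv_comp_mul_left ε⁻¹ chi s
  change deriv (fun x => chi (ε⁻¹ * x)) s = _
  rw [this]; simp

lemma chie_deriv2 (ε : ℝ) :
    deriv (deriv (chie ε)) = fun s => ε⁻¹ * (ε⁻¹ * deriv (deriv chi) (ε⁻¹ * s)) := by
  rw [chie_deriv]
  ext s
  have h1 : DifferentiableAt ℝ (fun s => deriv chi (ε⁻¹ * s)) s :=
    ((chi_deriv_smooth.differentiable (by simp)).comp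
      (differentiable_const _ |>.mul differentiable_id)) s
  rw [deriv_const_mul _ h1]
  have := deriv_comp_mul_left ε⁻¹ (deriv chi) s
  rw [this]; simp

variable {b : OrthonormalBasis (Fin 2) ℝ Pl} {o : Pl}
variable {U : Set Pl} {c : ℝ → ℝ} {f g h u v φ : Pl → ℝ} {ε : ℝ}

lemma Lp_wt (hU : ∀ x ∈ U, 0 < cx b o x) (hc : ContDiff ℝ ∞ c) (hu : TF U u) (x : Pl) :
    Lp b (wt b o c u) x = deriv (deriv c) (cx b o x) * u x
      + 2 * (deriv c (cx b o x) * D (b 0) u x) + c (cx b o x) * Lp b u x := by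
  have hc' : ContDiff ℝ ∞ (deriv c) := (contDiff_infty_iff_deriv.1 hc).2
  have s1 : ∀ s > 0, ContDiffAt ℝ ∞ c s := fun s _ => hc.contDiffAt
  have s2 : ∀ s > 0, ContDiffAt ℝ ∞ (deriv c) s := fun s _ => hc'.contDiffAt
  have e0 : D (b 0) (wt b o c u) = wt b o (deriv c) u + wt b o c (D (b 0) u) := by
    rw [wt_D hU s1 hu, inner00]; ext x; simp
  have e1 : D (b 1) (wt b o c u) = wt b o c (D (b 1) u) := by
    rw [wt_D hU s1 hu, inner01]; ext x; simp
  simp only [Lp]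
  rw [e0, e1, D_add (wt_TF hU s2 hu).diff (wt_TF hU s1 (hu.D _)).diff]
  simp only [Pi.add_apply]
  rw [wt_D hU s2 hu, wt_D hU s1 (hu.D _), wt_D hU s1 (hu.D _), inner00, inner01]
  simp only [wt]; ring

/-- The cut-off part has small energy. -/
lemma cut_energy {q M K : ℝ} (hU : ∀ x ∈ U, 0 < cx b o x) (hq : 0 ≤ q)
    (hK1 : 1 ≤ K) (hK : ∀ s, |deriv chi s| ≤ K ∧ |deriv (deriv chi) s| ≤ K)
    (hε : 0 < ε) (hu : TF U u)
    (hM : Iw b o ε (-q) (fun x => Lp b u x ^ 2) + Iw b o ε (-q - 2) (fun x => (D (b 0) u x) ^ 2)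
        + Iw b o ε (-q - 4) (fun x => u x ^ 2) ≤ M) :
    Eb b (wt b o (chie ε) u) (wt b o (chie ε) u) ≤ 768 * K ^ 2 * (4 * ε) ^ q * M := by
  have hK0 : 0 ≤ K ^ 2 := sq_nonneg K
  have s1 : ∀ s > 0, ContDiffAt ℝ ∞ (chie ε) s := fun s _ => (chie_smooth ε).contDiffAt
  have hV := wt_TF hU s1 hu
  set P : ℝ := (4 * ε) ^ q with hP
  have hP0 : 0 < P := by positivity
  refine le_trans ?_ (mul_le_mul_of_nonneg_left hM (by positivity : 0 ≤ 768 * K ^ 2 * P))
  have i1 := Iw_integrable hU hε.le (-q) (hu.Lp (b := b)).sq'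
  have i2 := Iw_integrable hU hε.le (-q - 2) (hu.D (b 0)).sq'
  have i3 := Iw_integrable hU hε.le (-q - 4) hu.sq'
  rw [Eb_self, Iw, Iw, Iw, ← integral_add i1 i2, ← integral_add (iadd i1 i2) i3,
    ← integral_const_mul]
  refine integral_mono (hV.Lp (b := b)).sq'.integrable ((iadd (iadd i1 i2) i3).const_mul _)
    fun x => ?_
  by_cases hx : x ∈ U
  · have h0 := hU x hx
    have hX : 0 < cx b o x + ε := by linarith
    simp only
    rw [Lp_wt hU (chie_smooth ε) hu x]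
    have w0 : 0 < (cx b o x + ε) ^ (-q) := Real.rpow_pos_of_pos hX _
    have w1 : 0 < (cx b o x + ε) ^ (-q - 2) := Real.rpow_pos_of_pos hX _
    have w2 : 0 < (cx b o x + ε) ^ (-q - 4) := Real.rpow_pos_of_pos hX _
    rcases lt_or_ge (3 * ε) (cx b o x) with hc | hc
    · have h3 : 3 < ε⁻¹ * cx b o x := by
        rw [inv_mul_eq_div, lt_div_iff₀ hε]; exact hc
      obtain ⟨d1, d2⟩ := chi_deriv_of_gt h3
      rw [chie_deriv2, chie_deriv]
      simp only [chie, d1, d2, chi_zero h3.le]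
      have : 0 ≤ 768 * K ^ 2 * P * ((cx b o x + ε) ^ (-q) * Lp b u x ^ 2
        + (cx b o x + ε) ^ (-q - 2) * D (b 0) u x ^ 2
        + (cx b o x + ε) ^ (-q - 4) * u x ^ 2) := by positivity
      simpa using this
    · have hX4 : cx b o x + ε ≤ 4 * ε := by linarith
      obtain ⟨-, p2, -, p4⟩ := rp hX (-q)
      have g0 : 1 ≤ P * (cx b o x + ε) ^ (-q) := by
        rw [Real.rpow_neg hX.le, hP, ← div_eq_mul_inv, one_le_div (by positivity)]
        exact Real.rpow_le_rpow hX.le hX4 hq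
      have g2 : ε⁻¹ ^ 2 ≤ 16 * (P * (cx b o x + ε) ^ (-q - 2)) := by
        rw [p2]
        have a1 : (cx b o x + ε) ^ 2 ≤ 16 * ε ^ 2 := by nlinarith
        have a2 : ε⁻¹ ^ 2 ≤ 16 * (1 / (cx b o x + ε) ^ 2) := by
          rw [inv_pow, mul_one_div, inv_eq_one_div, div_le_div_iff₀ (by positivity) (by positivity)]
          linarith
        have a3 : 1 / (cx b o x + ε) ^ 2 ≤ P * ((cx b o x + ε) ^ (-q) / (cx b o x + ε) ^ 2) := by
          rw [mul_div_assoc']
          exact div_le_div_of_nonneg_right g0 (by positivity)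
        linarith
      have g4 : ε⁻¹ ^ 4 ≤ 256 * (P * (cx b o x + ε) ^ (-q - 4)) := by
        rw [p4]
        have a1 : (cx b o x + ε) ^ 4 ≤ 256 * ε ^ 4 := by
          have := pow_le_pow_left₀ hX.le hX4 4
          calc _ ≤ (4 * ε) ^ 4 := this
            _ = _ := by ring
        have a2 : ε⁻¹ ^ 4 ≤ 256 * (1 / (cx b o x + ε) ^ 4) := by
          rw [inv_pow, mul_one_div, inv_eq_one_div, div_le_div_iff₀ (by positivity) (by positivity)]
          linarith
        have a3 : 1 / (cx b o x + ε) ^ 4 ≤ P * ((cx b o x + ε) ^ (-q) / (cx b o x + ε) ^ 4) := by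
          rw [mul_div_assoc']
          exact div_le_div_of_nonneg_right g0 (by positivity)
        linarith
      rw [chie_deriv2, chie_deriv]
      simp only [chie]
      obtain ⟨k1, k2⟩ := hK (ε⁻¹ * cx b o x)
      have k0 := chi_abs (ε⁻¹ * cx b o x)
      generalize deriv (deriv chi) (ε⁻¹ * cx b o x) = c2 at *
      generalize deriv chi (ε⁻¹ * cx b o x) = c1 at *
      generalize chi (ε⁻¹ * cx b o x) = c0 at *
      have q0 : c0 ^ 2 ≤ K ^ 2 := by
        rw [← sq_abs]; exact pow_le_pow_left₀ (abs_nonneg _) (k0.trans hK1) 2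
      have q1 : c1 ^ 2 ≤ K ^ 2 := by
        rw [← sq_abs]; exact pow_le_pow_left₀ (abs_nonneg _) k1 2
      have q2 : c2 ^ 2 ≤ K ^ 2 := by
        rw [← sq_abs]; exact pow_le_pow_left₀ (abs_nonneg _) k2 2
      clear p2 p4 k0 k1 k2 hP
      generalize (cx b o x + ε) ^ (-q) = W0 at *
      generalize (cx b o x + ε) ^ (-q - 2) = W2 at *
      generalize (cx b o x + ε) ^ (-q - 4) = W4 at *
      generalize Lp b u x = L at *
      generalize D (b 0) u x = u1 at *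
      generalize u x = u0 at *
      generalize ε⁻¹ = e at *
      have t4 : ∀ a b c : ℝ, (a + b + c) ^ 2 ≤ 3 * (a ^ 2 + b ^ 2 + c ^ 2) := by
        intro a b c
        nlinarith [sq_nonneg (a - b), sq_nonneg (b - c), sq_nonneg (a - c)]
      refine (t4 _ _ _).trans ?_
      have r0 : (c0 * L) ^ 2 ≤ K ^ 2 * (P * W0 * L ^ 2) := by
        calc (c0 * L) ^ 2 = c0 ^ 2 * L ^ 2 := by ring
          _ ≤ K ^ 2 * L ^ 2 := mul_le_mul_of_nonneg_right q0 (sq_nonneg _)
          _ = K ^ 2 * (1 * L ^ 2) := by ring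
          _ ≤ K ^ 2 * (P * W0 * L ^ 2) :=
            mul_le_mul_of_nonneg_left (mul_le_mul_of_nonneg_right g0 (sq_nonneg _)) hK0
      have r1 : (2 * (e * c1 * u1)) ^ 2 ≤ 4 * (K ^ 2 * (16 * (P * W2) * u1 ^ 2)) := by
        calc (2 * (e * c1 * u1)) ^ 2 = 4 * (c1 ^ 2 * (e ^ 2 * u1 ^ 2)) := by ring
          _ ≤ 4 * (K ^ 2 * (e ^ 2 * u1 ^ 2)) :=
            mul_le_mul_of_nonneg_left (mul_le_mul_of_nonneg_right q1 (by positivity)) (by norm_num)
          _ ≤ 4 * (K ^ 2 * (16 * (P * W2) * u1 ^ 2)) :=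
            mul_le_mul_of_nonneg_left (mul_le_mul_of_nonneg_left
              (mul_le_mul_of_nonneg_right g2 (sq_nonneg _)) hK0) (by norm_num)
      have r2 : (e * (e * c2) * u0) ^ 2 ≤ K ^ 2 * (256 * (P * W4) * u0 ^ 2) := by
        calc (e * (e * c2) * u0) ^ 2 = c2 ^ 2 * (e ^ 4 * u0 ^ 2) := by ring
          _ ≤ K ^ 2 * (e ^ 4 * u0 ^ 2) := mul_le_mul_of_nonneg_right q2 (by positivity)
          _ ≤ K ^ 2 * (256 * (P * W4) * u0 ^ 2) :=
            mul_le_mul_of_nonneg_left (mul_le_mul_of_nonneg_right g4 (sq_nonneg _)) hK0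
      have z0 : 0 ≤ K ^ 2 * (P * W0 * L ^ 2) := by positivity
      have z1 : 0 ≤ K ^ 2 * (P * W2 * u1 ^ 2) := by positivity
      have z2 : 0 ≤ K ^ 2 * (P * W4 * u0 ^ 2) := by positivity
      nlinarith
  · simp [(hV.Lp (b := b)).eq_zero hx, (hu.Lp (b := b)).eq_zero hx, hu.eq_zero hx,
      (hu.D (b 0)).eq_zero hx]

/-- Part A: cutting the corner off raises the buckling load by at most `C ε^q`, `q > 1`. -/
theorem cut_corner {Λ CP β : ℝ} (hU : ∀ x ∈ U, 0 < cx b o x)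
    (hCP : 0 ≤ CP) (hPoin : ∀ u, TF U u → ∫ x, u x ^ 2 ≤ CP * Nb b u u) (hβ : 2 ≤ β)
    (hcone : ∀ x ∈ U, |cy b o x| ≤ β * cx b o x) (hΛ0 : 0 < Λ)
    (hΛ : ∀ φ, TF U φ → Λ * Nb b φ φ ≤ Eb b φ φ)
    (hmin : ∀ δ > (0 : ℝ), ∃ u, TF U u ∧ Nb b u u = 1 ∧ Eb b u u ≤ Λ + δ) :
    ∃ q : ℝ, 1 < q ∧ ∃ C : ℝ, ∃ ε₀ > (0 : ℝ), ∀ ε > (0 : ℝ), ε < ε₀ →
      ∃ W, TF (U ∩ {x | ε < cx b o x}) W ∧ 0 < Nb b W W ∧
        Eb b W W ≤ (Λ + C * ε ^ q) * Nb b W W := by
  set κ : ℝ := 1 / (4 * β ^ 2) with hκ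
  set q : ℝ := 1 + κ ^ 2 / 40 with hq
  have hβ2 : 4 ≤ β ^ 2 := by nlinarith
  have hκ0 : 0 < κ := by rw [hκ]; positivity
  have hκ1 : κ ≤ 1 / 16 := by
    rw [hκ]
    apply one_div_le_one_div_of_le (by norm_num); linarith
  have hq1 : 1 < q := by rw [hq]; have : 0 < κ ^ 2 / 40 := by positivity
                         linarith
  have hq2 : q ≤ 2 := by rw [hq]; nlinarith
  obtain ⟨M, hM0, hM⟩ := weighted_bound hU hCP hPoin hβ hcone hκ hq hΛ0 hΛ
  obtain ⟨K, hK1, hK⟩ := chi_bounds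
  set B : ℝ := 768 * K ^ 2 * M with hB
  have hB0 : 0 ≤ B := by positivity
  refine ⟨q, hq1, 64 * (2 + 2 * B), min (1 / 4) (Λ / (16 * (B + 1))), by positivity,
    fun ε hε hεlt => ?_⟩
  have hε1 : 4 * ε ≤ 1 := by
    have := hεlt.le.trans (min_le_left _ _); linarith
  have hε2 : 16 * (B + 1) * ε ≤ Λ := by
    have := hεlt.le.trans (min_le_right _ _)
    rw [le_div_iff₀ (by positivity)] at this; linarith
  set P : ℝ := (4 * ε) ^ q with hP
  have hP0 : 0 < P := by positivity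
  have hP1 : P ≤ 4 * ε := by
    rw [hP]
    calc (4 * ε) ^ q ≤ (4 * ε) ^ (1 : ℝ) :=
          Real.rpow_le_rpow_of_exponent_ge (by positivity) hε1 hq1.le
      _ = _ := Real.rpow_one _
  obtain ⟨η₀, hη₀, hηM⟩ := hM ε hε
  set η : ℝ := min η₀ P with hη
  have hη0 : 0 < η := by positivity
  have hηP : η ≤ P := min_le_right _ _
  have hη1 : η ≤ 1 := by linarith
  obtain ⟨u, hu, hN, hE⟩ := hmin (η ^ 2) (by positivity)
  have hMu := hηM η hη0 (min_le_left _ _) u hu hN hE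
  have hEV := cut_energy hU (by linarith : (0 : ℝ) ≤ q) hK1 hK hε hu hMu
  have s1 : ∀ s > 0, ContDiffAt ℝ ∞ (chie ε) s := fun s _ => (chie_smooth ε).contDiffAt
  have hV := wt_TF hU s1 hu
  set V := wt b o (chie ε) u with hVdef
  have hEV' : Eb b V V ≤ B * P := by
    rw [hB]; rw [← hP] at hEV; linarith
  have hEV0 := Eb_nonneg (b := b) V
  have hNV : Λ * Nb b V V ≤ B * P := (hΛ V hV).trans hEV'
  have hNV0 := Nb_nonneg (b := b) V
  have hNV4 : Nb b V V ≤ 1 / 4 := by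
    have h1 : B * P ≤ Λ / 4 := by nlinarith
    nlinarith
  have hnear := near_min hΛ0.le hΛ hη0 hu hN hE hV
  have hEW := Eb_expand (b := b) hu hV (-1)
  have hNW := Nb_expand (b := b) hu hV (-1)
  have hNW2 := Nb_expand (b := b) hu hV (-2)
  have hN2 := Nb_nonneg (b := b) (u + fun x => (-2) * V x)
  refine ⟨u + fun x => (-1) * V x, ?_, ?_, ?_⟩
  · have hW := hu.add (hV.smul (-1))
    refine ⟨hW.1, hW.2.1, fun x hx => ⟨hW.2.2 hx, ?_⟩⟩
    have hsub : tsupport (u + fun x => (-1) * V x) ⊆ {x | 2 * ε ≤ cx b o x} := by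
      refine closure_minimal (fun y hy => ?_) (isClosed_le continuous_const (contDiff_cx b o).continuous)
      by_contra hlt
      simp only [mem_ofPred_eq, not_le] at hlt
      apply hy
      have : chie ε (cx b o y) = 1 := by
        apply chi_one
        rw [inv_mul_eq_div, div_le_iff₀ hε]; linarith
      simp [hVdef, wt, this]
    have := hsub hx
    simp only [mem_ofPred_eq] at this ⊢
    linarith
  · rw [hNW, hN]; rw [hN] at hNW2; nlinarith
  · rw [hEW, hNW, hN]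
    rw [hN] at hNW2
    have hab := (abs_le.1 hnear).1
    have hP16 : P ≤ 16 * ε ^ q := by
      rw [hP, Real.mul_rpow (by norm_num) hε.le]
      have : (4 : ℝ) ^ q ≤ 16 := by
        calc (4 : ℝ) ^ q ≤ (4 : ℝ) ^ (2 : ℝ) :=
              Real.rpow_le_rpow_of_exponent_le (by norm_num) hq2
          _ = 16 := by norm_num
      have h0 : 0 ≤ ε ^ q := by positivity
      nlinarith
    have hNWge : 1 / 4 ≤ 1 + 2 * -1 * Nb b u V + (-1) ^ 2 * Nb b V V := by nlinarith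
    have hup : (Eb b u u + 2 * -1 * Eb b u V + (-1) ^ 2 * Eb b V V)
        - Λ * (1 + 2 * -1 * Nb b u V + (-1) ^ 2 * Nb b V V) ≤ (2 + 2 * B) * P := by
      have e1 : η ^ 2 ≤ P := by nlinarith
      have e2 : η * (1 + Eb b V V) ≤ P + B * P := by nlinarith
      nlinarith
    have hCε : (2 + 2 * B) * P ≤ 64 * (2 + 2 * B) * ε ^ q * (1 / 4) := by nlinarith
    have h6 : 64 * (2 + 2 * B) * ε ^ q * (1 / 4) ≤
        64 * (2 + 2 * B) * ε ^ q * (1 + 2 * -1 * Nb b u V + (-1) ^ 2 * Nb b V V) :=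
      mul_le_mul_of_nonneg_left hNWge (by positivity)
    nlinarith

end Pool.Agent.H873R3
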