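import Mathlib

/-!
# Definitions for the planar buckling load under a perimeter constraint

The plane, test functions, the Rayleigh quotient of the clamped plate buckling problem, the first
buckling eigenvalue, the De Giorgi perimeter and optimal sets.
-/

noncomputable section

namespace Pool.Agent.H873R3

open MeasureTheory Set Filter Topology InnerProductSpace
open scoped ContDiff Gradient

/-- The Euclidean plane. -/
abbrev Pl : Type := EuclideanSpace ℝ (Fin 2)

/-- `TF U f`: the function `f` belongs to `C_c^∞(U)`. -/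
def TF (U : Set Pl) (f : Pl → ℝ) : Prop :=
  ContDiff ℝ ∞ f ∧ HasCompactSupport f ∧ tsupport f ⊆ U

/-- The Rayleigh quotient `∫ (Δu)² / ∫ |∇u|²`. -/
def rayleigh (u : Pl → ℝ) : ℝ :=
  (∫ x, (Laplacian.laplacian u x) ^ 2) / ∫ x, ‖gradient u x‖ ^ 2

/-- The first buckling eigenvalue `Λ₁(U)`: the infimum of the Rayleigh quotient over the nonzero
functions of `C_c^∞(U)` (it is `∞` for the empty set). -/
def bucklingLoad (U : Set Pl) : ENNReal :=
  ⨅ (u : Pl → ℝ) (_ : TF U u) (_ : u ≠ 0), ENNReal.ofReal (rayleigh u)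

/-- The divergence of a vector field of the plane. -/
def divergence (φ : Pl → Pl) (x : Pl) : ℝ :=
  ∑ i : Fin 2, (fderiv ℝ φ x (EuclideanSpace.single i 1)) i

/-- The De Giorgi perimeter
`P(E) = sup {∫_E div φ : φ ∈ C¹_c(ℝ²; ℝ²), ‖φ‖_∞ ≤ 1}`. -/
def perimeter (E : Set Pl) : EReal :=
  ⨆ (φ : Pl → Pl) (_ : ContDiff ℝ 1 φ) (_ : HasCompactSupport φ) (_ : ∀ x, ‖φ x‖ ≤ 1),
    ((∫ x in E, divergence φ x : ℝ) : EReal)

/-- `Ω` is an optimal set: it attains the minimum of `Λ₁` among the open sets of finite measure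
and perimeter at most `p`. -/
structure IsOptimal (p : ℝ) (Ω : Set Pl) : Prop where
  isOpen : IsOpen Ω
  volume_lt_top : volume Ω < ⊤
  perimeter_le : perimeter Ω ≤ (p : EReal)
  minimal : ∀ Ω' : Set Pl, IsOpen Ω' → volume Ω' < ⊤ → perimeter Ω' ≤ (p : EReal) →
    bucklingLoad Ω ≤ bucklingLoad Ω'

/-- The directional derivative in the direction `v`. -/
def D (v : Pl) (f : Pl → ℝ) : Pl → ℝ := fun x => fderiv ℝ f x v

end Pool.Agent.H873R3
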