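import Pool.Agent.H873R3.BuckPerim

/-!
# The perimeter drop without convexity
-/

noncomputable section

namespace Pool.Agent.H873R3

open MeasureTheory Set Filter Topology InnerProductSpace Metric
open scoped ContDiff Gradient

section fields

variable (b : OrthonormalBasis (Fin 2) ℝ Pl) (o : Pl)

/-- The field used near the corner. -/
def ZV (σ k : ℝ) (V : Pl → ℝ) (x : Pl) : Pl := (-σ) • b 0 + (k * V x) • b 1

/-- The interpolated field. -/
def psiV (H : ℝ → ℝ) (σ k : ℝ) (V : Pl → ℝ) (φ : Pl → Pl) (x : Pl) : Pl :=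
  (1 - H (cx b o x)) • ZV b σ k V x + H (cx b o x) • φ x

lemma div_psiV {H : ℝ → ℝ} (hH : ContDiff ℝ ∞ H) (σ k : ℝ) {V : Pl → ℝ} (hV : ContDiff ℝ ∞ V)
    {φ : Pl → Pl} (hφ : ContDiff ℝ 1 φ) (x : Pl) :
    divergence (psiV b o H σ k V φ) x = H (cx b o x) * divergence φ x
      + (1 - H (cx b o x)) * (k * D (b 1) V x)
      + deriv H (cx b o x) * (⟪b 0, φ x⟫_ℝ + σ) := by
  have hd : HasDerivAt H (deriv H (cx b o x)) (cx b o x) :=
    ((hH.differentiable (by simp)) _).hasDerivAt
  have hH1 : HasFDerivAt (fun x => H (cx b o x)) (deriv H (cx b o x) • innerSL ℝ (b 0)) x :=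
    hd.comp_hasFDerivAt x (hasFDerivAt_cx b o x)
  have h1 := hH1.const_sub 1
  have hV1 : HasFDerivAt V (fderiv ℝ V x) x := ((hV.differentiable (by simp)) x).hasFDerivAt
  have hZ : HasFDerivAt (ZV b σ k V) ((k • fderiv ℝ V x).smulRight (b 1)) x :=
    ((hV1.const_mul k).smul_const (b 1)).const_add _
  have hφ1 : HasFDerivAt φ (fderiv ℝ φ x) x := ((hφ.differentiable (by simp)) x).hasFDerivAt
  have hF := (h1.smul hZ).add (hH1.smul hφ1)
  have hF' : fderiv ℝ (psiV b o H σ k V φ) x = _ := hF.fderiv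
  rw [divergence_eq _ b, hF', divergence_eq φ b]
  simp [inner_add_right, inner_smul_right, ZV, D]
  ring

lemma norm_ZV_sq (σ k : ℝ) (V : Pl → ℝ) (x : Pl) :
    ‖ZV b σ k V x‖ ^ 2 = σ ^ 2 + (k * V x) ^ 2 := by
  rw [← real_inner_self_eq_norm_sq]
  simp only [ZV, inner_add_left, inner_add_right, real_inner_smul_left, real_inner_smul_right,
    inner00, inner11, inner01, inner10]
  ring

end fields

variable {b : OrthonormalBasis (Fin 2) ℝ Pl} {o : Pl}

/-- The data of a transversal potential: `V` is smooth, `|V| ≤ 1`, lives in the strip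
`a < x₁ < c`, is nondecreasing in `x₂`, and `∫_U ∂₂V ≥ γ`. -/
def TP (b : OrthonormalBasis (Fin 2) ℝ Pl) (o : Pl) (U : Set Pl) (a c γ : ℝ) (V : Pl → ℝ) : Prop :=
  ContDiff ℝ ∞ V ∧ (∀ x, |V x| ≤ 1) ∧ (∀ x, V x ≠ 0 → a < cx b o x ∧ cx b o x < c) ∧
    (∀ x, 0 ≤ D (b 1) V x) ∧ (∃ M, ∀ x, |D (b 1) V x| ≤ M) ∧ γ ≤ ∫ x in U, D (b 1) V x

lemma cx_add_smul (x : Pl) (t : ℝ) : cx b o (x + t • b 1) = cx b o x := by
  simp only [cx, inner_sub_right, inner_add_right, real_inner_smul_right, inner01]
  ring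

lemma D1_zero_of_strip {V : Pl → ℝ} (hV : Differentiable ℝ V) {x : Pl}
    (h : ∀ y, cx b o y = cx b o x → V y = 0) : D (b 1) V x = 0 := by
  have h1 : HasDerivAt (fun t : ℝ => V (x + t • b 1)) (fderiv ℝ V x (b 1)) 0 := by
    have h2 : HasDerivAt (fun t : ℝ => x + t • b 1) (b 1) 0 := by
      simpa using ((hasDerivAt_id (0 : ℝ)).smul_const (b 1)).const_add x
    have h3 : HasFDerivAt V (fderiv ℝ V x) (x + (0 : ℝ) • b 1) := by
      simpa using (hV x).hasFDerivAt
    exact h3.comp_hasDerivAt 0 h2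
  have h4 : (fun t : ℝ => V (x + t • b 1)) = fun _ => 0 := by
    ext t; exact h _ (cx_add_smul x t)
  rw [h4] at h1
  exact h1.unique (hasDerivAt_const 0 0)

lemma D1_integrableOn {U : Set Pl} (hv : volume U < ⊤) {V : Pl → ℝ} (hV : ContDiff ℝ ∞ V)
    (hM : ∃ M, ∀ x, |D (b 1) V x| ≤ M) : Integrable (D (b 1) V) (volume.restrict U) := by
  obtain ⟨M, hM⟩ := hM
  have : IsFiniteMeasure (volume.restrict U) :=
    ⟨by rw [Measure.restrict_apply_univ]; exact hv⟩
  have hc : Continuous (D (b 1) V) := by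
    have := (hV.of_le (by simp) : ContDiff ℝ 1 V).continuous_fderiv (by simp)
    unfold D
    fun_prop
  exact Integrable.of_bound hc.aestronglyMeasurable M (ae_of_all _ fun x => hM x)

/-- The main step of the perimeter drop. -/
lemma drop_stepG {U : Set Pl} {β p k ε n K L a γ : ℝ} {V : Pl → ℝ} (hUo : IsOpen U)
    (hvol : volume U < ⊤)
    (hU : ∀ x ∈ U, 0 < cx b o x) (hβ : 0 < β) (hcone : ∀ x ∈ U, |cy b o x| ≤ β * cx b o x)
    (hp : perimeter U ≤ (p : EReal)) (hk0 : 0 ≤ k) (hk1 : k ≤ 1) (hε : 0 < ε) (hn : 0 < n)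
    (hεn : 1 / n ≤ ε) (hK0 : 0 ≤ K) (hK : ∀ s, deriv Real.smoothTransition s ≤ K)
    (hV : TP b o U a ε γ V)
    {φ : Pl → Pl} (h1 : ContDiff ℝ 1 φ) (h2 : HasCompactSupport φ) (h3 : ∀ x, ‖φ x‖ ≤ 1)
    (hL0 : 0 ≤ L) (hL : ∀ x, |divergence φ x| ≤ L) :
    ∫ x in U ∩ {x | ε < cx b o x}, divergence φ x ≤
      p - k * γ + (L + k ^ 2 * n * K) * (1 / n * (4 * β * ε)) := by
  obtain ⟨hVs, hV1, hVsup, hVD, hVM, hVγ⟩ := hV
  set σ : ℝ := 1 - k ^ 2 with hσ
  set H : ℝ → ℝ := stp ε n with hH
  have hHs : ContDiff ℝ ∞ H := stp_smooth ε n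
  set ζ : ContDiffBump o := ⟨3 * ε * (1 + β), 4 * ε * (1 + β), by positivity, by nlinarith⟩ with hζ
  set ψ : Pl → Pl := fun x => (1 - H (cx b o x)) • (ζ x • ZV b σ k V x) + H (cx b o x) • φ x with hψ
  have hHc : ContDiff ℝ 1 (fun x => H (cx b o x)) :=
    ((hHs.of_le (by simp)).comp ((contDiff_cx b o).of_le (by simp)))
  have hZs : ContDiff ℝ 1 (ZV b σ k V) :=
    contDiff_const.add ((contDiff_const.mul (hVs.of_le (by simp))).smul contDiff_const)
  have hψ1 : ContDiff ℝ 1 ψ :=
    ((contDiff_const.sub hHc).smul (ζ.contDiff.smul hZs)).add (hHc.smul h1)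
  have hψ2 : HasCompactSupport ψ := by
    have c1 : HasCompactSupport (fun x => ζ x • ZV b σ k V x) :=
      HasCompactSupport.smul_right (f := ζ) ζ.hasCompactSupport
    have c2 : HasCompactSupport (fun x => (1 - H (cx b o x)) • (ζ x • ZV b σ k V x)) :=
      HasCompactSupport.smul_left (f := fun x => (1 - H (cx b o x))) c1
    have c3 : HasCompactSupport (fun x => H (cx b o x) • φ x) :=
      HasCompactSupport.smul_left (f := fun x => H (cx b o x)) h2
    exact c2.add c3
  have hZ1 : ∀ x, ‖ζ x • ZV b σ k V x‖ ≤ 1 := by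
    intro x
    have hZn : ‖ZV b σ k V x‖ ≤ 1 := by
      have h5 := norm_ZV_sq b σ k V x
      have h6 : (k * V x) ^ 2 ≤ k ^ 2 := by
        rw [mul_pow]
        have : V x ^ 2 ≤ 1 := by
          rw [← sq_abs]; nlinarith [abs_nonneg (V x), hV1 x]
        nlinarith [sq_nonneg k]
      have h7 : k ^ 2 ≤ 1 := by nlinarith
      have h8 : ‖ZV b σ k V x‖ ^ 2 ≤ 1 := by
        rw [h5, hσ]; nlinarith [sq_nonneg k]
      nlinarith [norm_nonneg (ZV b σ k V x)]
    rw [norm_smul, Real.norm_of_nonneg ζ.nonneg]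
    calc ζ x * ‖ZV b σ k V x‖ ≤ 1 * 1 :=
          mul_le_mul ζ.le_one hZn (norm_nonneg _) (by norm_num)
      _ = 1 := by norm_num
  have hψ3 : ∀ x, ‖ψ x‖ ≤ 1 := by
    intro x
    have a0 : 0 ≤ H (cx b o x) := stp_nonneg _ _ _
    have a1 : H (cx b o x) ≤ 1 := stp_le_one _ _ _
    calc ‖ψ x‖ ≤ ‖(1 - H (cx b o x)) • (ζ x • ZV b σ k V x)‖ + ‖H (cx b o x) • φ x‖ :=
          norm_add_le _ _
      _ = (1 - H (cx b o x)) * ‖ζ x • ZV b σ k V x‖ + H (cx b o x) * ‖φ x‖ := by
          rw [norm_smul, norm_smul (H (cx b o x)), Real.norm_of_nonneg (by linarith),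
            Real.norm_of_nonneg a0]
      _ ≤ (1 - H (cx b o x)) * 1 + H (cx b o x) * 1 :=
          add_le_add (mul_le_mul_of_nonneg_left (hZ1 x) (by linarith))
            (mul_le_mul_of_nonneg_left (h3 x) a0)
      _ = 1 := by ring
  have hmain := le_perimeter hp hψ1 hψ2 hψ3
  have hdiv : ∀ x ∈ U, divergence ψ x = divergence (psiV b o H σ k V φ) x := by
    intro x hx
    have hev : ψ =ᶠ[𝓝 x] psiV b o H σ k V φ := by
      by_cases hxb : ‖x - o‖ < 3 * ε * (1 + β)
      · have : ζ =ᶠ[𝓝 x] 1 := ζ.eventuallyEq_one_of_mem_ball (by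
          rw [mem_ball, dist_eq_norm]; exact hxb)
        filter_upwards [this] with y hy
        simp [hψ, psiV, hy]
      · push Not at hxb
        have hx0 := hU x hx
        have hcx3 : 3 * ε ≤ cx b o x := by
          by_contra hcon
          push Not at hcon
          have e1 := norm_sub_sq_frame b o x
          have e2 : cy b o x ^ 2 ≤ β ^ 2 * cx b o x ^ 2 := by
            rw [← sq_abs, ← mul_pow]
            exact pow_le_pow_left₀ (abs_nonneg _) (hcone x hx) 2
          have e3 : ‖x - o‖ ^ 2 ≤ ((1 + β) * cx b o x) ^ 2 := by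
            rw [e1, mul_pow]; nlinarith [sq_nonneg (cx b o x)]
          have e4 : ‖x - o‖ ≤ (1 + β) * cx b o x :=
            le_of_sq_le_sq e3 (by positivity)
          have e5 : (1 + β) * cx b o x < (1 + β) * (3 * ε) :=
            mul_lt_mul_of_pos_left hcon (by positivity)
          nlinarith
        have hcx2 : ε + 1 / n < cx b o x := by linarith
        have hopen : ∀ᶠ y in 𝓝 x, ε + 1 / n < cx b o y :=
          (contDiff_cx b o).continuous.continuousAt.eventually (lt_mem_nhds hcx2)
        filter_upwards [hopen] with y hy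
        have : H (cx b o y) = 1 := stp_one hn hy.le
        simp [hψ, psiV, this]
    simp only [divergence]
    rw [hev.fderiv_eq]
  have hUm : MeasurableSet U := hUo.measurableSet
  have : IsFiniteMeasure (volume.restrict U) :=
    ⟨by rw [Measure.restrict_apply_univ]; exact hvol⟩
  set A : Set Pl := {x | ε < cx b o x} with hA
  set S : Set Pl := {x | cx b o x ∈ Icc ε (ε + 1 / n) ∧ cy b o x ∈ Icc (-(2 * β * ε)) (2 * β * ε)}
    with hS
  have hAm : MeasurableSet A := (isOpen_lt continuous_const (contDiff_cx b o).continuous).measurableSet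
  have hSm : MeasurableSet S :=
    ((contDiff_cx b o).continuous.measurable measurableSet_Icc).inter
      ((contDiff_cy b o).continuous.measurable measurableSet_Icc)
  have hSvol : volume.real S = 1 / n * (4 * β * ε) := by
    rw [measureReal_def, hS, volume_rect, ENNReal.toReal_mul, ENNReal.toReal_ofReal (by
      have : 0 < 1 / n := by positivity
      linarith), ENNReal.toReal_ofReal (by positivity)]
    ring
  have hSfin : volume S ≠ ⊤ := by
    rw [hS, volume_rect]; exact ENNReal.mul_ne_top ENNReal.ofReal_ne_top ENNReal.ofReal_ne_top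
  set T : ℝ := L + k ^ 2 * n * K with hT
  have hT0 : 0 ≤ T := by positivity
  have hpt : ∀ x ∈ U, (A.indicator (divergence φ) x + k * D (b 1) V x)
      - T * S.indicator (fun _ => (1 : ℝ)) x ≤ divergence ψ x := by
    intro x hx
    rw [hdiv x hx, div_psiV b o hHs σ k hVs h1 x]
    have a0 : 0 ≤ H (cx b o x) := stp_nonneg _ _ _
    have a1 : H (cx b o x) ≤ 1 := stp_le_one _ _ _
    have hLx := abs_le.1 (hL x)
    have hin : -1 ≤ ⟪b 0, φ x⟫_ℝ := by
      have := abs_real_inner_le_norm (b 0) (φ x)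
      rw [b.norm_eq_one, one_mul] at this
      have := (abs_le.1 (this.trans (h3 x))).1
      exact this
    have hH' : 0 ≤ deriv H (cx b o x) := by
      rw [hH, stp_deriv]; exact mul_nonneg hn.le (sT_deriv_nonneg _)
    have hnKk : 0 ≤ k ^ 2 * n * K := by positivity
    have hBi : k * D (b 1) V x ≤ (1 - H (cx b o x)) * (k * D (b 1) V x) := by
      by_cases hxB : cx b o x < ε
      · have : H (cx b o x) = 0 := stp_zero hn hxB.le
        rw [this]; linarith
      · have : D (b 1) V x = 0 := by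
          apply D1_zero_of_strip (o := o) (hVs.differentiable (by simp))
          intro y hy
          by_contra hne
          have := (hVsup y hne).2
          rw [hy] at this
          exact hxB this
        rw [this]; simp
    rcases lt_or_ge (cx b o x) ε with hz | hz
    · have e0 : H (cx b o x) = 0 := stp_zero hn hz.le
      have e1 : deriv H (cx b o x) = 0 := by
        rw [hH, stp_deriv, sT_deriv_neg, mul_zero]
        exact mul_neg_of_pos_of_neg hn (by linarith)
      have e2 : x ∉ A := by simp [hA]; linarith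
      have e3 : x ∉ S := by
        intro h; have := h.1.1; linarith
      rw [indicator_of_notMem e2, indicator_of_notMem e3, e1]
      rw [e0] at hBi ⊢
      linarith
    · rcases lt_or_ge (ε + 1 / n) (cx b o x) with hz' | hz'
      · have e0 : H (cx b o x) = 1 := stp_one hn hz'.le
        have e1 : deriv H (cx b o x) = 0 := by
          rw [hH, stp_deriv, sT_deriv_gt, mul_zero]
          have : 1 / n < cx b o x - ε := by linarith
          rw [div_lt_iff₀ hn] at this
          linarith
        have e3 : x ∉ S := by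
          intro h; have := h.1.2; linarith
        have e2 : A.indicator (divergence φ) x = divergence φ x := by
          apply indicator_of_mem
          have : 0 < 1 / n := by positivity
          simp only [hA, mem_ofPred_eq]; linarith
        rw [e2, indicator_of_notMem e3, e1]
        rw [e0] at hBi ⊢
        linarith
      · have hxS : x ∈ S := by
          refine ⟨⟨hz, hz'⟩, ?_⟩
          have h5 := hcone x hx
          have h6 : β * cx b o x ≤ 2 * β * ε := by nlinarith
          exact abs_le.1 (h5.trans h6)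
        rw [indicator_of_mem hxS]
        have hA' : A.indicator (divergence φ) x ≤ H (cx b o x) * divergence φ x + L := by
          by_cases hxA : x ∈ A
          · rw [indicator_of_mem hxA]; nlinarith [hLx.1, hLx.2]
          · rw [indicator_of_notMem hxA]; nlinarith [hLx.1, hLx.2]
        have hd : deriv H (cx b o x) ≤ n * K := by
          rw [hH, stp_deriv]; exact mul_le_mul_of_nonneg_left (hK _) hn.le
        have hd2 : -(k ^ 2 * (n * K)) ≤ deriv H (cx b o x) * (⟪b 0, φ x⟫_ℝ + σ) := by
          have e5 : -k ^ 2 ≤ ⟪b 0, φ x⟫_ℝ + σ := by rw [hσ]; linarith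
          have e6 : deriv H (cx b o x) * (-k ^ 2) ≤ deriv H (cx b o x) * (⟪b 0, φ x⟫_ℝ + σ) :=
            mul_le_mul_of_nonneg_left e5 hH'
          have e7 : deriv H (cx b o x) * k ^ 2 ≤ n * K * k ^ 2 :=
            mul_le_mul_of_nonneg_right hd (sq_nonneg k)
          linarith
        rw [hT]
        linarith
  have hdc : Integrable (divergence φ) :=
    (divergence_continuous h1).integrable_of_hasCompactSupport (divergence_compact h2)
  have j1 : Integrable (A.indicator (divergence φ)) (volume.restrict U) :=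
    (hdc.indicator hAm).restrict
  have j2 : Integrable (fun x => k * D (b 1) V x) (volume.restrict U) :=
    (D1_integrableOn hvol hVs hVM).const_mul k
  have j3 : Integrable (fun x => T * S.indicator (fun _ => (1 : ℝ)) x) (volume.restrict U) :=
    ((integrable_const (1 : ℝ)).indicator hSm).const_mul T
  have j4 : Integrable (divergence ψ) (volume.restrict U) :=
    ((divergence_continuous hψ1).integrable_of_hasCompactSupport (divergence_compact hψ2)).restrict
  have j12 : Integrable (fun x => A.indicator (divergence φ) x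
      + k * D (b 1) V x) (volume.restrict U) := j1.add j2
  have hint : ∫ x in U, ((A.indicator (divergence φ) x + k * D (b 1) V x)
      - T * S.indicator (fun _ => (1 : ℝ)) x) ≤ ∫ x in U, divergence ψ x :=
    setIntegral_mono_on (j12.sub j3) j4 hUm hpt
  rw [integral_sub j12 j3, integral_add j1 j2, integral_const_mul, integral_const_mul,
    setIntegral_indicator hAm, setIntegral_indicator hSm,
    setIntegral_one_eq_measureReal] at hint
  have hUS : volume.real (U ∩ S) ≤ 1 / n * (4 * β * ε) := by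
    rw [← hSvol]; exact measureReal_mono inter_subset_right hSfin
  have hTS : T * volume.real (U ∩ S) ≤ T * (1 / n * (4 * β * ε)) :=
    mul_le_mul_of_nonneg_left hUS hT0
  have hkγ : k * γ ≤ k * ∫ x in U, D (b 1) V x := mul_le_mul_of_nonneg_left hVγ hk0
  linarith

/-- The perimeter drop for a transversal potential. -/
theorem perim_dropG {U : Set Pl} {β p k ε K a γ : ℝ} {V : Pl → ℝ} (hUo : IsOpen U)
    (hvol : volume U < ⊤)
    (hU : ∀ x ∈ U, 0 < cx b o x) (hβ : 0 < β) (hcone : ∀ x ∈ U, |cy b o x| ≤ β * cx b o x)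
    (hp : perimeter U ≤ (p : EReal)) (hk0 : 0 ≤ k) (hk1 : k ≤ 1) (hε : 0 < ε)
    (hK0 : 0 ≤ K) (hK : ∀ s, deriv Real.smoothTransition s ≤ K) (hV : TP b o U a ε γ V) :
    perimeter (U ∩ {x | ε < cx b o x}) ≤
      ((p - k * γ + k ^ 2 * K * (4 * β * ε) : ℝ) : EReal) := by
  refine iSup_le fun φ => iSup_le fun h1 => iSup_le fun h2 => iSup_le fun h3 => ?_
  rw [EReal.coe_le_coe_iff]
  obtain ⟨L, hL⟩ := (divergence_continuous h1).bounded_above_of_compact_support
    (divergence_compact h2)
  have hL0 : 0 ≤ L := (norm_nonneg _).trans (hL 0)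
  refine le_of_forall_pos_le_add fun δ hδ => ?_
  obtain ⟨N, hN⟩ := exists_nat_gt (max (1 / ε) (4 * β * ε * L / δ))
  have hn : (0 : ℝ) < N := lt_of_lt_of_le (by positivity) ((le_max_left _ _).trans hN.le)
  have hN1 : 1 / (N : ℝ) ≤ ε := by
    have := (le_max_left _ _).trans hN.le
    rw [div_le_iff₀ hε] at this
    rw [div_le_iff₀ hn]; linarith
  have hN2 : 4 * β * ε * L ≤ δ * N := by
    have := (le_max_right _ _).trans hN.le
    rw [div_le_iff₀ hδ] at this
    linarith
  have hstep := drop_stepG hUo hvol hU hβ hcone hp hk0 hk1 hε hn hN1 hK0 hK hV h1 h2 h3 hL0 hL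
  refine hstep.trans ?_
  have e2 : (L + k ^ 2 * N * K) * (1 / (N : ℝ) * (4 * β * ε)) =
      4 * β * ε * L / N + k ^ 2 * K * (4 * β * ε) := by
    field_simp
  have e4 : 4 * β * ε * L / N ≤ δ := by
    rw [div_le_iff₀ hn]; exact hN2
  rw [e2]
  linarith

end Pool.Agent.H873R3
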