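import Pool.Agent.H873R3.BuckCalc

/-!
# Weighted integrals in an orthonormal frame
-/

noncomputable section

namespace Pool.Agent.H873R3

open MeasureTheory Set Filter Topology InnerProductSpace
open scoped ContDiff Gradient

variable (b : OrthonormalBasis (Fin 2) ℝ Pl) (o : Pl)

/-- First coordinate in the frame `b` with origin `o`. -/
def cx (x : Pl) : ℝ := ⟪b 0, x - o⟫_ℝ

/-- Second coordinate in the frame `b` with origin `o`. -/
def cy (x : Pl) : ℝ := ⟪b 1, x - o⟫_ℝ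

lemma hasFDerivAt_cx (x : Pl) : HasFDerivAt (cx b o) (innerSL ℝ (b 0)) x := by
  have h : cx b o = fun x => innerSL ℝ (b 0) x - innerSL ℝ (b 0) o := by
    ext y; simp [cx, inner_sub_right]
  rw [h]
  exact (innerSL ℝ (b 0)).hasFDerivAt.sub_const _

lemma hasFDerivAt_cy (x : Pl) : HasFDerivAt (cy b o) (innerSL ℝ (b 1)) x := by
  have h : cy b o = fun x => innerSL ℝ (b 1) x - innerSL ℝ (b 1) o := by
    ext y; simp [cy, inner_sub_right]
  rw [h]
  exact (innerSL ℝ (b 1)).hasFDerivAt.sub_const _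

lemma contDiff_cx : ContDiff ℝ ∞ (cx b o) :=
  ((innerSL ℝ (b 0)).contDiff).comp (contDiff_id.sub contDiff_const)

lemma contDiff_cy : ContDiff ℝ ∞ (cy b o) :=
  ((innerSL ℝ (b 1)).contDiff).comp (contDiff_id.sub contDiff_const)

lemma inner00 : ⟪b 0, b 0⟫_ℝ = 1 := by
  rw [real_inner_self_eq_norm_sq, b.norm_eq_one]; norm_num

lemma inner11 : ⟪b 1, b 1⟫_ℝ = 1 := by
  rw [real_inner_self_eq_norm_sq, b.norm_eq_one]; norm_num

lemma inner01 : ⟪b 0, b 1⟫_ℝ = 0 := b.orthonormal.2 (by decide)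

lemma inner10 : ⟪b 1, b 0⟫_ℝ = 0 := b.orthonormal.2 (by decide)

/-- Multiplication by a function of the first coordinate. -/
def wt (c : ℝ → ℝ) (f : Pl → ℝ) : Pl → ℝ := fun x => c (cx b o x) * f x

variable {b o}
variable {U : Set Pl} {c : ℝ → ℝ} {f g : Pl → ℝ}

lemma TF.D_eq_zero (hf : TF U f) {x : Pl} (v : Pl) (hx : x ∉ U) : H873R3.D v f x = 0 :=
  (hf.D v).eq_zero hx

lemma wt_TF (hU : ∀ x ∈ U, 0 < cx b o x) (hc : ∀ s > 0, ContDiffAt ℝ ∞ c s) (hf : TF U f) :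
    TF U (wt b o c f) := by
  refine hf.of_subset ?_ (closure_mono (Function.support_mul_subset_right _ f))
  rw [contDiff_iff_contDiffAt]
  intro x
  by_cases hx : x ∈ tsupport f
  · exact ((hc _ (hU x (hf.2.2 hx))).comp x (contDiff_cx b o).contDiffAt).mul hf.1.contDiffAt
  · have h1 : f =ᶠ[𝓝 x] 0 := notMem_tsupport_iff_eventuallyEq.1 hx
    have h2 : wt b o c f =ᶠ[𝓝 x] fun _ => 0 := by
      filter_upwards [h1] with y hy
      simp [wt, hy]
    exact contDiffAt_const.congr_of_eventuallyEq h2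

lemma wt_D (hU : ∀ x ∈ U, 0 < cx b o x) (hc : ∀ s > 0, ContDiffAt ℝ ∞ c s) (hf : TF U f) (v : Pl) :
    D v (wt b o c f) = fun x => ⟪b 0, v⟫_ℝ * wt b o (deriv c) f x + wt b o c (D v f) x := by
  ext x
  by_cases hx : x ∈ tsupport f
  · have h0 := hU x (hf.2.2 hx)
    have h1 : HasDerivAt c (deriv c (cx b o x)) (cx b o x) :=
      ((hc _ h0).differentiableAt (by simp)).hasDerivAt
    have h2 : HasFDerivAt (fun y => c (cx b o y)) (deriv c (cx b o x) • innerSL ℝ (b 0)) x :=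
      h1.comp_hasFDerivAt x (hasFDerivAt_cx b o x)
    have h3 := h2.mul (hf.diff x).hasFDerivAt
    change fderiv ℝ ((fun y => c (cx b o y)) * f) x v = _
    rw [h3.fderiv]
    simp [wt, D]
    ring
  · have h1 : f =ᶠ[𝓝 x] 0 := notMem_tsupport_iff_eventuallyEq.1 hx
    have h2 : wt b o c f =ᶠ[𝓝 x] fun _ => 0 := by
      filter_upwards [h1] with y hy
      simp [wt, hy]
    have h3 : D v (wt b o c f) x = 0 := by
      simp [D, h2.fderiv_eq]
    have h4 : f x = 0 := image_eq_zero_of_notMem_tsupport hx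
    have h5 : D v f x = 0 := by
      simp [D, h1.fderiv_eq]
    rw [h3]; simp [wt, h4, h5]

/-- The weighted integral `∫ (x₁ + ε)^r f`. -/
def Iw (b : OrthonormalBasis (Fin 2) ℝ Pl) (o : Pl) (ε r : ℝ) (f : Pl → ℝ) : ℝ :=
  ∫ x, (cx b o x + ε) ^ r * f x

variable {ε : ℝ}

lemma pw_smooth (hε : 0 ≤ ε) (r : ℝ) : ∀ s > (0 : ℝ), ContDiffAt ℝ ∞ (fun s : ℝ => (s + ε) ^ r) s := by
  intro s hs
  have h : s + ε ≠ 0 := by linarith
  exact (contDiffAt_id.add contDiffAt_const).rpow_const_of_ne h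

lemma pw_deriv (hε : 0 ≤ ε) (r s : ℝ) (hs : 0 < s) :
    deriv (fun s : ℝ => (s + ε) ^ r) s = r * (s + ε) ^ (r - 1) := by
  have h : s + ε ≠ 0 := by linarith
  have h1 : HasDerivAt (fun s : ℝ => (s + ε) ^ r) (1 * r * (s + ε) ^ (r - 1)) s :=
    ((hasDerivAt_id s).add_const ε).rpow_const (Or.inl h)
  rw [h1.deriv]; ring

lemma pw_TF (hU : ∀ x ∈ U, 0 < cx b o x) (hε : 0 ≤ ε) (r : ℝ) (hf : TF U f) :
    TF U (fun x => (cx b o x + ε) ^ r * f x) :=
  wt_TF (c := fun s => (s + ε) ^ r) hU (pw_smooth hε r) hf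

lemma pw_D (hU : ∀ x ∈ U, 0 < cx b o x) (hε : 0 ≤ ε) (r : ℝ) (hf : TF U f) (v : Pl) :
    D v (fun x => (cx b o x + ε) ^ r * f x) = fun x =>
      ⟪b 0, v⟫_ℝ * (r * ((cx b o x + ε) ^ (r - 1) * f x)) + (cx b o x + ε) ^ r * D v f x := by
  have h := wt_D (c := fun s => (s + ε) ^ r) hU (pw_smooth hε r) hf v
  change D v (wt b o (fun s => (s + ε) ^ r) f) = _
  rw [h]
  ext x
  by_cases hx : x ∈ U
  · simp only [wt, pw_deriv hε r _ (hU x hx)]; ring
  · simp [wt, hf.eq_zero hx]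

lemma Iw_integrable (hU : ∀ x ∈ U, 0 < cx b o x) (hε : 0 ≤ ε) (r : ℝ) (hf : TF U f) :
    Integrable (fun x => (cx b o x + ε) ^ r * f x) := (pw_TF hU hε r hf).integrable

lemma Iw_add (hU : ∀ x ∈ U, 0 < cx b o x) (hε : 0 ≤ ε) (r : ℝ) (hf : TF U f) (hg : TF U g) :
    Iw b o ε r (fun x => f x + g x) = Iw b o ε r f + Iw b o ε r g := by
  rw [Iw, Iw, Iw, ← integral_add (Iw_integrable hU hε r hf) (Iw_integrable hU hε r hg)]
  congr 1; ext x; ring

lemma Iw_sub (hU : ∀ x ∈ U, 0 < cx b o x) (hε : 0 ≤ ε) (r : ℝ) (hf : TF U f) (hg : TF U g) :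
    Iw b o ε r (fun x => f x - g x) = Iw b o ε r f - Iw b o ε r g := by
  rw [Iw, Iw, Iw, ← integral_sub (Iw_integrable hU hε r hf) (Iw_integrable hU hε r hg)]
  congr 1; ext x; ring

lemma Iw_smul (r k : ℝ) (f : Pl → ℝ) :
    Iw b o ε r (fun x => k * f x) = k * Iw b o ε r f := by
  rw [Iw, Iw, ← integral_const_mul]
  congr 1; ext x; ring

lemma Iw_D0 (hU : ∀ x ∈ U, 0 < cx b o x) (hε : 0 ≤ ε) (r r' : ℝ) (hr : r' = r - 1)
    (hf : TF U f) : Iw b o ε r (D (b 0) f) = - r * Iw b o ε r' f := by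
  subst hr
  have h := (pw_TF hU hε r hf).int_D (b 0)
  rw [pw_D hU hε r hf (b 0), inner00] at h
  have h2 : ∫ x, (1 * (r * ((cx b o x + ε) ^ (r - 1) * f x)) + (cx b o x + ε) ^ r * D (b 0) f x)
      = r * Iw b o ε (r - 1) f + Iw b o ε r (D (b 0) f) := by
    rw [Iw, Iw, ← integral_const_mul, ← integral_add
      ((Iw_integrable hU hε (r - 1) hf).const_mul r) (Iw_integrable hU hε r (hf.D _))]
    congr 1; ext x; ring
  rw [h2] at h
  linarith

lemma Iw_D1 (hU : ∀ x ∈ U, 0 < cx b o x) (hε : 0 ≤ ε) (r : ℝ)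
    (hf : TF U f) : Iw b o ε r (D (b 1) f) = 0 := by
  have h := (pw_TF hU hε r hf).int_D (b 1)
  rw [pw_D hU hε r hf (b 1), inner01] at h
  simpa [Iw] using h

lemma cy_TF (hf : TF U f) : TF U (fun x => cy b o x * f x) :=
  hf.mul_left (f := cy b o) (contDiff_cy b o)

lemma Iw_Dy (hU : ∀ x ∈ U, 0 < cx b o x) (hε : 0 ≤ ε) (r : ℝ)
    (hf : TF U f) : Iw b o ε r f + Iw b o ε r (fun x => cy b o x * D (b 1) f x) = 0 := by
  have h := Iw_D1 hU hε r (cy_TF (b := b) (o := o) hf)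
  have h1 : D (b 1) (fun x => cy b o x * f x) = fun x => f x + cy b o x * D (b 1) f x := by
    ext x
    have := (hasFDerivAt_cy b o x).mul (hf.diff x).hasFDerivAt
    change fderiv ℝ (cy b o * f) x (b 1) = _
    rw [this.fderiv]
    simp [D]
    ring
  rw [h1, Iw_add hU hε r hf (cy_TF (hf.D _))] at h
  exact h

lemma Iw_nonneg (r : ℝ) (hU : ∀ x ∈ U, 0 < cx b o x) (hε : 0 ≤ ε) (hf : ∀ x ∈ U, 0 ≤ f x)
    (hf0 : ∀ x ∉ U, f x = 0) : 0 ≤ Iw b o ε r f := by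
  refine integral_nonneg fun x => ?_
  by_cases hx : x ∈ U
  · exact mul_nonneg (Real.rpow_nonneg (by linarith [hU x hx]) _) (hf x hx)
  · simp [hf0 x hx]

lemma Iw_mono (r : ℝ) (hU : ∀ x ∈ U, 0 < cx b o x) (hε : 0 ≤ ε) (hf : TF U f) (hg : TF U g)
    (h : ∀ x ∈ U, f x ≤ g x) : Iw b o ε r f ≤ Iw b o ε r g := by
  refine integral_mono (Iw_integrable hU hε r hf) (Iw_integrable hU hε r hg) fun x => ?_
  by_cases hx : x ∈ U
  · exact mul_le_mul_of_nonneg_left (h x hx) (Real.rpow_nonneg (by linarith [hU x hx]) _)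
  · simp [hf.eq_zero hx, hg.eq_zero hx]

end Pool.Agent.H873R3
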