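import Pool.Agent.H873R3.BuckFrame

/-!
# Cutting off a corner lowers the perimeter at a linear rate
-/

noncomputable section

namespace Pool.Agent.H873R3

open MeasureTheory Set Filter Topology InnerProductSpace Metric
open scoped ContDiff Gradient

/-- The smooth step from `0` to `1` on `[ε, ε + 1/n]`. -/
def stp (ε n s : ℝ) : ℝ := Real.smoothTransition (n * (s - ε))

lemma stp_smooth (ε n : ℝ) : ContDiff ℝ ∞ (stp ε n) :=
  Real.smoothTransition.contDiff.comp (contDiff_const.mul (contDiff_id.sub contDiff_const))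

lemma stp_nonneg (ε n s : ℝ) : 0 ≤ stp ε n s := Real.smoothTransition.nonneg _

lemma stp_le_one (ε n s : ℝ) : stp ε n s ≤ 1 := Real.smoothTransition.le_one _

lemma stp_zero {ε n s : ℝ} (hn : 0 < n) (hs : s ≤ ε) : stp ε n s = 0 :=
  Real.smoothTransition.zero_of_nonpos (mul_nonpos_of_nonneg_of_nonpos hn.le (by linarith))

lemma stp_one {ε n s : ℝ} (hn : 0 < n) (hs : ε + 1 / n ≤ s) : stp ε n s = 1 := by
  apply Real.smoothTransition.one_of_one_le
  have h : 1 / n ≤ s - ε := by linarith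
  rw [div_le_iff₀ hn] at h
  linarith

lemma stp_deriv (ε n s : ℝ) :
    deriv (stp ε n) s = n * deriv Real.smoothTransition (n * (s - ε)) := by
  have h1 : HasDerivAt (fun s => n * (s - ε)) (n * 1) s :=
    ((hasDerivAt_id s).sub_const ε).const_mul n
  have h2 : HasDerivAt Real.smoothTransition (deriv Real.smoothTransition (n * (s - ε)))
      (n * (s - ε)) :=
    ((Real.smoothTransition.contDiff (n := 1)).differentiable (by simp) _).hasDerivAt
  have h3 := h2.comp s h1
  have h4 : deriv (stp ε n) s = _ := h3.deriv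
  rw [h4]; ring

lemma sT_deriv_nonneg (s : ℝ) : 0 ≤ deriv Real.smoothTransition s :=
  Real.smoothTransition.monotone.deriv_nonneg

lemma sT_deriv_neg {s : ℝ} (hs : s < 0) : deriv Real.smoothTransition s = 0 := by
  have h : Real.smoothTransition =ᶠ[𝓝 s] fun _ => (0 : ℝ) := by
    filter_upwards [gt_mem_nhds hs] with t ht using
      Real.smoothTransition.zero_of_nonpos (le_of_lt ht)
  rw [h.deriv_eq]; simp

lemma sT_deriv_gt {s : ℝ} (hs : 1 < s) : deriv Real.smoothTransition s = 0 := by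
  have h : Real.smoothTransition =ᶠ[𝓝 s] fun _ => (1 : ℝ) := by
    filter_upwards [lt_mem_nhds hs] with t ht using
      Real.smoothTransition.one_of_one_le (le_of_lt ht)
  rw [h.deriv_eq]; simp

lemma sT_deriv_bound : ∃ K : ℝ, 1 ≤ K ∧ ∀ s, deriv Real.smoothTransition s ≤ K := by
  have hc : Continuous (deriv Real.smoothTransition) :=
    (Real.smoothTransition.contDiff (n := 1)).continuous_deriv (by simp)
  obtain ⟨K1, hK1⟩ := (isCompact_Icc (a := (0 : ℝ)) (b := 1)).exists_bound_of_continuousOn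
    hc.continuousOn
  refine ⟨max 1 K1, le_max_left _ _, fun s => ?_⟩
  rcases lt_or_ge s 0 with h | h
  · rw [sT_deriv_neg h]; positivity
  · rcases lt_or_ge 1 s with h' | h'
    · rw [sT_deriv_gt h']; positivity
    · exact (le_abs_self _).trans ((hK1 s ⟨h, h'⟩).trans (le_max_right _ _))

variable (b : OrthonormalBasis (Fin 2) ℝ Pl) (o : Pl)

/-- The linear field used near the corner. -/
def Zf (σ m : ℝ) (x : Pl) : Pl := (-σ) • b 0 + (m * cy b o x) • b 1

/-- The interpolated field. -/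
def psi0 (H : ℝ → ℝ) (σ m : ℝ) (φ : Pl → Pl) (x : Pl) : Pl :=
  (1 - H (cx b o x)) • Zf b o σ m x + H (cx b o x) • φ x

lemma Zf_smooth (σ m : ℝ) : ContDiff ℝ ∞ (Zf b o σ m) :=
  contDiff_const.add ((contDiff_const.mul (contDiff_cy b o)).smul contDiff_const)

lemma div_psi0 {H : ℝ → ℝ} (hH : ContDiff ℝ ∞ H) (σ m : ℝ) {φ : Pl → Pl}
    (hφ : ContDiff ℝ 1 φ) (x : Pl) :
    divergence (psi0 b o H σ m φ) x = H (cx b o x) * divergence φ x + (1 - H (cx b o x)) * m
      + deriv H (cx b o x) * (⟪b 0, φ x⟫_ℝ + σ) := by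
  have hd : HasDerivAt H (deriv H (cx b o x)) (cx b o x) :=
    ((hH.differentiable (by simp)) _).hasDerivAt
  have hH1 : HasFDerivAt (fun x => H (cx b o x)) (deriv H (cx b o x) • innerSL ℝ (b 0)) x :=
    hd.comp_hasFDerivAt x (hasFDerivAt_cx b o x)
  have h1 := hH1.const_sub 1
  have hZ : HasFDerivAt (Zf b o σ m) ((m • innerSL ℝ (b 1)).smulRight (b 1)) x :=
    (((hasFDerivAt_cy b o x).const_mul m).smul_const (b 1)).const_add _
  have hφ1 : HasFDerivAt φ (fderiv ℝ φ x) x := ((hφ.differentiable (by simp)) x).hasFDerivAt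
  have hF := (h1.smul hZ).add (hH1.smul hφ1)
  have hF' : fderiv ℝ (psi0 b o H σ m φ) x = _ := hF.fderiv
  rw [divergence_eq _ b, hF', divergence_eq φ b]
  simp [inner_add_right, inner_smul_right, Zf]
  ring

lemma norm_Zf_sq (σ m : ℝ) (x : Pl) : ‖Zf b o σ m x‖ ^ 2 = σ ^ 2 + (m * cy b o x) ^ 2 := by
  rw [← real_inner_self_eq_norm_sq]
  simp only [Zf, inner_add_left, inner_add_right, real_inner_smul_left, real_inner_smul_right,
    inner00, inner11, inner01, inner10]
  ring

lemma abs_cy_le (x : Pl) : |cy b o x| ≤ ‖x - o‖ := by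
  have := abs_real_inner_le_norm (b 1) (x - o)
  rwa [b.norm_eq_one, one_mul] at this

lemma norm_sub_sq_frame (x : Pl) : ‖x - o‖ ^ 2 = cx b o x ^ 2 + cy b o x ^ 2 := by
  rw [← b.sum_sq_norm_inner_right (x - o)]
  simp [Fin.sum_univ_two, cx, cy]

/-- The measure of a rectangle. -/
lemma volume_rect (s t w : ℝ) :
    volume {x : Pl | cx b o x ∈ Icc s t ∧ cy b o x ∈ Icc (-w) w} =
      ENNReal.ofReal (t - s) * ENNReal.ofReal (2 * w) := by
  have hmp : MeasurePreserving (fun x : Pl => WithLp.ofLp (b.repr (x - o)))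
      (volume : Measure Pl) (volume : Measure (Fin 2 → ℝ)) :=
    (PiLp.volume_preserving_ofLp (Fin 2)).comp
      (b.measurePreserving_repr.comp (measurePreserving_sub_right volume o))
  have hset : {x : Pl | cx b o x ∈ Icc s t ∧ cy b o x ∈ Icc (-w) w} =
      (fun x : Pl => WithLp.ofLp (b.repr (x - o))) ⁻¹' (Icc ![s, -w] ![t, w]) := by
    ext x
    simp only [mem_preimage, mem_Icc, Pi.le_def, Fin.forall_fin_two]
    simp [OrthonormalBasis.repr_apply_apply, cx, cy, inner_sub_right]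
    constructor <;> rintro ⟨⟨h1, h2⟩, h3, h4⟩ <;> refine ⟨⟨?_, ?_⟩, ?_, ?_⟩ <;> linarith
  rw [hset, hmp.measure_preimage measurableSet_Icc.nullMeasurableSet, Real.volume_Icc_pi,
    Fin.prod_univ_two]
  simp only [Matrix.cons_val_zero, Matrix.cons_val_one]
  congr 2; ring

lemma divergence_continuous {φ : Pl → Pl} (hφ : ContDiff ℝ 1 φ) :
    Continuous (divergence φ) := by
  have h := hφ.continuous_fderiv (by simp)
  unfold divergence
  fun_prop

lemma divergence_compact {φ : Pl → Pl} (hc : HasCompactSupport φ) :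
    HasCompactSupport (divergence φ) := by
  refine (hc.fderiv (𝕜 := ℝ)).mono ?_
  intro x hx
  contrapose! hx
  simp only [Function.mem_support, not_not] at hx ⊢
  simp [divergence, hx]

lemma le_perimeter {E : Set Pl} {p : ℝ} (hp : perimeter E ≤ p) {φ : Pl → Pl}
    (h1 : ContDiff ℝ 1 φ) (h2 : HasCompactSupport φ) (h3 : ∀ x, ‖φ x‖ ≤ 1) :
    ∫ x in E, divergence φ x ≤ p := by
  have h : ((∫ x in E, divergence φ x : ℝ) : EReal) ≤ perimeter E :=
    le_iSup_of_le φ (le_iSup_of_le h1 (le_iSup_of_le h2 (le_iSup_of_le h3 le_rfl)))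
  exact_mod_cast h.trans hp

end Pool.Agent.H873R3
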