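import Pool.Agent.H873R3.BuckCut
import Pool.Agent.H873R3.BuckPerim

/-!
# Planar optimal sets for the buckling load under a perimeter constraint have no corners
-/

noncomputable section

namespace Pool.Agent.H873R3

open MeasureTheory Set Filter Topology InnerProductSpace Metric
open scoped ContDiff Gradient Pointwise

variable {b : OrthonormalBasis (Fin 2) ℝ Pl} {o : Pl}
variable {U E : Set Pl} {u : Pl → ℝ}

lemma rayleigh_eq (b : OrthonormalBasis (Fin 2) ℝ Pl) (hu : TF U u) :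
    rayleigh u = Eb b u u / Nb b u u := by
  rw [rayleigh, Eb_self, Nb_self]
  congr 1
  · congr 1; ext x; rw [laplacian_eq hu.1 b]; rfl
  · congr 1; ext x; rw [gradient_eq_frame u b]

/-! ### Scaling -/

lemma D_scale {f : Pl → ℝ} (hf : Differentiable ℝ f) (s : ℝ) (v : Pl) :
    D v (fun x => f (s • x)) = fun x => s * D v f (s • x) := by
  ext x
  have h1 : HasFDerivAt (fun x : Pl => s • x) (s • ContinuousLinearMap.id ℝ Pl) x :=
    (hasFDerivAt_id x).const_smul s
  have h2 := (hf (s • x)).hasFDerivAt.comp x h1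
  have h3 : fderiv ℝ (fun x => f (s • x)) x = _ := h2.fderiv
  simp only [D]
  rw [h3]; simp

lemma TF_scale {t : ℝ} (ht : 0 < t) (hu : TF E u) : TF (t • E) (fun x => u (t⁻¹ • x)) := by
  have hti : t⁻¹ ≠ 0 := inv_ne_zero ht.ne'
  refine ⟨hu.1.comp (contDiff_const_smul t⁻¹), hu.2.1.comp_smul hti, ?_⟩
  have h := tsupport_comp_eq_preimage u (Homeomorph.smulOfNeZero (α := Pl) t⁻¹ hti)
  intro x hx
  have hx' : x ∈ tsupport (u ∘ (Homeomorph.smulOfNeZero (α := Pl) t⁻¹ hti)) := hx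
  rw [h] at hx'
  have hx2 : t⁻¹ • x ∈ E := hu.2.2 hx'
  exact (mem_smul_set_iff_inv_smul_mem₀ ht.ne' E x).2 hx2

lemma finrank_Pl : Module.finrank ℝ Pl = 2 := by simp

lemma Eb_scale {t : ℝ} (ht : 0 < t) (hu : TF E u) :
    Eb b (fun x => u (t⁻¹ • x)) (fun x => u (t⁻¹ • x)) = t⁻¹ ^ 2 * Eb b u u := by
  have h : Lp b (fun x => u (t⁻¹ • x)) = fun x => t⁻¹ ^ 2 * Lp b u (t⁻¹ • x) := by
    have s1 := TF_scale ht (hu.D (b 0))
    have s2 := TF_scale ht (hu.D (b 1))
    ext x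
    simp only [Lp]
    rw [D_scale hu.diff, D_scale hu.diff, D_smul s1.diff, D_smul s2.diff,
      D_scale (hu.D _).diff, D_scale (hu.D _).diff]
    ring
  rw [Eb_self, Eb_self, h]
  have h2 : (fun x : Pl => (t⁻¹ ^ 2 * Lp b u (t⁻¹ • x)) ^ 2) =
      fun x => t⁻¹ ^ 4 * (fun y => Lp b u y ^ 2) (t⁻¹ • x) := by
    ext x; ring
  rw [h2, integral_const_mul, Measure.integral_comp_smul volume (fun y => Lp b u y ^ 2) t⁻¹,
    finrank_Pl, smul_eq_mul, abs_of_pos (by positivity)]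
  field_simp

lemma Nb_scale {t : ℝ} (ht : 0 < t) (hu : TF E u) :
    Nb b (fun x => u (t⁻¹ • x)) (fun x => u (t⁻¹ • x)) = Nb b u u := by
  rw [Nb_self, Nb_self, D_scale hu.diff, D_scale hu.diff]
  have h2 : (fun x : Pl => (t⁻¹ * D (b 0) u (t⁻¹ • x)) ^ 2 + (t⁻¹ * D (b 1) u (t⁻¹ • x)) ^ 2) =
      fun x => t⁻¹ ^ 2 * (fun y => D (b 0) u y ^ 2 + D (b 1) u y ^ 2) (t⁻¹ • x) := by
    ext x; ring
  rw [h2, integral_const_mul,
    Measure.integral_comp_smul volume (fun y => D (b 0) u y ^ 2 + D (b 1) u y ^ 2) t⁻¹,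
    finrank_Pl, smul_eq_mul, abs_of_pos (by positivity)]
  field_simp

lemma perimeter_scale {t p : ℝ} (ht : 0 < t) (hp : perimeter E ≤ (p : EReal)) :
    perimeter (t • E) ≤ ((t * p : ℝ) : EReal) := by
  refine iSup_le fun φ => iSup_le fun h1 => iSup_le fun h2 => iSup_le fun h3 => ?_
  rw [EReal.coe_le_coe_iff]
  have c1 : ContDiff ℝ 1 (fun x : Pl => φ (t • x)) := h1.comp (contDiff_const_smul t)
  have c2 : HasCompactSupport (fun x : Pl => φ (t • x)) := h2.comp_smul ht.ne'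
  have c3 : ∀ x, ‖φ (t • x)‖ ≤ 1 := fun x => h3 _
  have h := le_perimeter hp c1 c2 c3
  have hd : divergence (fun x : Pl => φ (t • x)) = fun x => t * divergence φ (t • x) := by
    ext x
    have g1 : HasFDerivAt (fun x : Pl => t • x) (t • ContinuousLinearMap.id ℝ Pl) x :=
      (hasFDerivAt_id x).const_smul t
    have g2 := ((h1.differentiable (by simp)) (t • x)).hasFDerivAt.comp x g1
    have g3 : fderiv ℝ (fun x => φ (t • x)) x = _ := g2.fderiv
    simp only [divergence]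
    rw [g3, Finset.mul_sum]
    simp
  rw [hd, integral_const_mul, Measure.setIntegral_comp_smul_of_pos _ _ _ ht, finrank_Pl,
    smul_eq_mul] at h
  have h4 : t * ((t ^ 2)⁻¹ * ∫ x in t • E, divergence φ x) =
      t⁻¹ * ∫ x in t • E, divergence φ x := by
    field_simp
  rw [h4, inv_mul_le_iff₀ ht] at h
  exact h

/-! ### Positivity -/

lemma Nb_ibp (hu : TF U u) : Nb b u u = - ∫ x, u x * Lp b u x := by
  have h0 := (hu.mul' (hu.D (b 0))).int_D (b 0)
  have h1 := (hu.mul' (hu.D (b 1))).int_D (b 1)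
  rw [D_mul' hu (hu.D _)] at h0 h1
  have t0 := (hu.D (b 0)).mul' (hu.D (b 0))
  have t1 := (hu.D (b 1)).mul' (hu.D (b 1))
  have s0 := hu.mul' ((hu.D (b 0)).D (b 0))
  have s1 := hu.mul' ((hu.D (b 1)).D (b 1))
  rw [integral_add t0.integrable s0.integrable] at h0
  rw [integral_add t1.integrable s1.integrable] at h1
  have e1 : (fun x => u x * Lp b u x) =
      fun x => u x * D (b 0) (D (b 0) u) x + u x * D (b 1) (D (b 1) u) x := by
    ext x; simp only [Lp]; ring
  rw [e1, integral_add s0.integrable s1.integrable]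
  simp only [Nb]
  rw [integral_add t0.integrable t1.integrable]
  linarith

/-- `N(u) ≤ C E(u)` on bounded sets. -/
lemma Nb_le_Eb {β R : ℝ} (hU : ∀ x ∈ U, 0 < cx b o x) (hR : ∀ x ∈ U, cx b o x ≤ R) (hR0 : 0 < R)
    (hβ : 0 < β) (hcone : ∀ x ∈ U, |cy b o x| ≤ β * cx b o x) (hu : TF U u) :
    Nb b u u ≤ 4 * β ^ 2 * R ^ 2 * Eb b u u := by
  have hP := poincare_L2 hU hR hβ.le hcone hu
  have hI := Nb_ibp (b := b) hu
  set C : ℝ := 4 * β ^ 2 * R ^ 2 with hC
  have hC0 : 0 < C := by positivity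
  have i1 := hu.sq'.integrable.const_mul (1 / (2 * C))
  have i2 := (hu.Lp (b := b)).sq'.integrable.const_mul (C / 2)
  have h1 : - ∫ x, u x * Lp b u x ≤ 1 / (2 * C) * (∫ x, u x ^ 2) + C / 2 * Eb b u u := by
    rw [Eb_self, ← integral_neg, ← integral_const_mul, ← integral_const_mul, ← integral_add i1 i2]
    refine integral_mono (hu.mul' (hu.Lp (b := b))).integrable.neg (iadd i1 i2) fun x => ?_
    have h2 : 0 ≤ 1 / (2 * C) * (u x + C * Lp b u x) ^ 2 := by positivity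
    have h3 : 1 / (2 * C) * (u x + C * Lp b u x) ^ 2 =
      1 / (2 * C) * u x ^ 2 + C / 2 * Lp b u x ^ 2 + u x * Lp b u x := by
      field_simp; ring
    simp only
    linarith
  have h4 : 1 / (2 * C) * (∫ x, u x ^ 2) ≤ 1 / 2 * Nb b u u := by
    calc 1 / (2 * C) * (∫ x, u x ^ 2) ≤ 1 / (2 * C) * (C * Nb b u u) :=
          mul_le_mul_of_nonneg_left hP (by positivity)
      _ = 1 / 2 * Nb b u u := by field_simp
  linarith

lemma Nb_pos {β R : ℝ} (hU : ∀ x ∈ U, 0 < cx b o x) (hR : ∀ x ∈ U, cx b o x ≤ R)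
    (hβ : 0 < β) (hcone : ∀ x ∈ U, |cy b o x| ≤ β * cx b o x) (hu : TF U u) (hne : u ≠ 0) :
    0 < Nb b u u := by
  have hP := poincare_L2 hU hR hβ.le hcone hu
  have h0 := Nb_nonneg (b := b) u
  rcases h0.lt_or_eq with h | h
  · exact h
  · exfalso
    rw [← h, mul_zero] at hP
    have h1 : ∫ x, u x ^ 2 = 0 := le_antisymm hP (integral_nonneg fun x => sq_nonneg _)
    have h2 : (fun x => u x ^ 2) = fun _ => (0 : ℝ) := by
      have := (integral_eq_zero_iff_of_nonneg (fun x => sq_nonneg (u x)) hu.sq'.integrable).1 h1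
      exact (Continuous.ae_eq_iff_eq volume hu.sq'.cont continuous_const).1 this
    apply hne
    ext x
    have := congrFun h2 x
    simpa using this

lemma exists_TF (hUo : IsOpen U) (hne : U.Nonempty) : ∃ u : Pl → ℝ, TF U u ∧ u ≠ 0 := by
  obtain ⟨q, hq⟩ := hne
  obtain ⟨r, hr, hball⟩ := Metric.isOpen_iff.1 hUo q hq
  let f : ContDiffBump q := ⟨r / 4, r / 2, by positivity, by linarith⟩
  refine ⟨f, ⟨f.contDiff, f.hasCompactSupport, ?_⟩, ?_⟩
  · rw [f.tsupport_eq]
    exact (closedBall_subset_ball (by show r / 2 < r; linarith)).trans hball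
  · intro h
    have h1 : f q = 1 := f.one_of_mem_closedBall (mem_closedBall_self (by show (0:ℝ) ≤ r / 4; positivity))
    rw [h] at h1
    simp at h1

end Pool.Agent.H873R3
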