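import Pool.Agent.H873R3.BuckDropG

/-!
# Existence of transversal potentials
-/

noncomputable section

namespace Pool.Agent.H873R3

open MeasureTheory Set Filter Topology InnerProductSpace Metric
open scoped ContDiff Gradient

variable {b : OrthonormalBasis (Fin 2) ℝ Pl} {o : Pl} {U : Set Pl}

lemma TP_zero (a c : ℝ) : TP b o U a c 0 (fun _ => 0) := by
  refine ⟨contDiff_const, fun x => by simp, fun x hx => (hx rfl).elim, fun x => by simp [D],
    ⟨0, fun x => by simp [D]⟩, by simp [D]⟩

lemma TP_add (hv : volume U < ⊤) {a c d γ₁ γ₂ : ℝ} {V₁ V₂ : Pl → ℝ} (hac : a ≤ c) (hcd : c ≤ d)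
    (h1 : TP b o U a c γ₁ V₁) (h2 : TP b o U c d γ₂ V₂) : TP b o U a d (γ₁ + γ₂) (V₁ + V₂) := by
  obtain ⟨s1, l1, p1, n1, m1, g1⟩ := h1
  obtain ⟨s2, l2, p2, n2, m2, g2⟩ := h2
  have hD : D (b 1) (V₁ + V₂) = D (b 1) V₁ + D (b 1) V₂ :=
    D_add (s1.differentiable (by simp)) (s2.differentiable (by simp)) _
  refine ⟨s1.add s2, fun x => ?_, fun x hx => ?_, fun x => ?_, ?_, ?_⟩
  · by_cases hx : V₁ x = 0
    · simp only [Pi.add_apply, hx, zero_add]; exact l2 x
    · have : V₂ x = 0 := by
        by_contra h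
        have e1 := (p1 x hx).2
        have e2 := (p2 x h).1
        linarith
      simp only [Pi.add_apply, this, add_zero]; exact l1 x
  · by_cases hx1 : V₁ x = 0
    · have hx2 : V₂ x ≠ 0 := by
        intro h; apply hx; simp [hx1, h]
      obtain ⟨e1, e2⟩ := p2 x hx2
      exact ⟨by linarith, e2⟩
    · obtain ⟨e1, e2⟩ := p1 x hx1
      exact ⟨e1, by linarith⟩
  · rw [hD]; exact add_nonneg (n1 x) (n2 x)
  · obtain ⟨M1, hM1⟩ := m1
    obtain ⟨M2, hM2⟩ := m2
    refine ⟨M1 + M2, fun x => ?_⟩
    rw [hD]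
    exact (abs_add_le _ _).trans (add_le_add (hM1 x) (hM2 x))
  · rw [hD]
    have := integral_add (D1_integrableOn (b := b) hv s1 m1) (D1_integrableOn (b := b) hv s2 m2)
    simp only [Pi.add_apply]
    rw [this]
    exact add_le_add g1 g2

/-- The profile in the first variable. -/
def eta (a c s : ℝ) : ℝ :=
  Real.smoothTransition (3 * ((s - a) / (c - a))) * Real.smoothTransition (3 * ((c - s) / (c - a)))

lemma eta_smooth (a c : ℝ) : ContDiff ℝ ∞ (eta a c) :=
  (Real.smoothTransition.contDiff.comp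
    (contDiff_const.mul ((contDiff_id.sub contDiff_const).div_const _))).mul
  (Real.smoothTransition.contDiff.comp
    (contDiff_const.mul ((contDiff_const.sub contDiff_id).div_const _)))

lemma eta_nonneg (a c s : ℝ) : 0 ≤ eta a c s :=
  mul_nonneg (Real.smoothTransition.nonneg _) (Real.smoothTransition.nonneg _)

lemma eta_le_one (a c s : ℝ) : eta a c s ≤ 1 := by
  have := mul_le_mul (Real.smoothTransition.le_one (3 * ((s - a) / (c - a))))
    (Real.smoothTransition.le_one (3 * ((c - s) / (c - a)))) (Real.smoothTransition.nonneg _)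
    (by norm_num : (0 : ℝ) ≤ 1)
  simpa [eta] using this

lemma eta_supp {a c s : ℝ} (hac : a < c) (h : eta a c s ≠ 0) : a < s ∧ s < c := by
  have hca : 0 < c - a := by linarith
  constructor
  · by_contra hcon
    push Not at hcon
    apply h
    have : Real.smoothTransition (3 * ((s - a) / (c - a))) = 0 := by
      apply Real.smoothTransition.zero_of_nonpos
      have : (s - a) / (c - a) ≤ 0 := div_nonpos_of_nonpos_of_nonneg (by linarith) hca.le
      linarith
    simp [eta, this]
  · by_contra hcon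
    push Not at hcon
    apply h
    have : Real.smoothTransition (3 * ((c - s) / (c - a))) = 0 := by
      apply Real.smoothTransition.zero_of_nonpos
      have : (c - s) / (c - a) ≤ 0 := div_nonpos_of_nonpos_of_nonneg (by linarith) hca.le
      linarith
    simp [eta, this]

lemma eta_one {a c s : ℝ} (hac : a < c) (h1 : a + (c - a) / 3 ≤ s) (h2 : s ≤ c - (c - a) / 3) :
    eta a c s = 1 := by
  have hca : 0 < c - a := by linarith
  have e1 : Real.smoothTransition (3 * ((s - a) / (c - a))) = 1 := by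
    apply Real.smoothTransition.one_of_one_le
    rw [mul_div_assoc', le_div_iff₀ hca]; linarith
  have e2 : Real.smoothTransition (3 * ((c - s) / (c - a))) = 1 := by
    apply Real.smoothTransition.one_of_one_le
    rw [mul_div_assoc', le_div_iff₀ hca]; linarith
  simp [eta, e1, e2]

lemma cx_shift (g : ℝ) (x : Pl) : cx b (o + g • b 1) x = cx b o x := by
  simp only [cx, inner_sub_right, inner_add_right, real_inner_smul_right, inner01]; ring

lemma cy_shift (g : ℝ) (x : Pl) : cy b (o + g • b 1) x = cy b o x - g := by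
  simp only [cy, inner_sub_right, inner_add_right, real_inner_smul_right, inner11]; ring

lemma TP_local (_hUo : IsOpen U) (hv : volume U < ⊤) {a c g δ : ℝ} (hac : a < c) (hδ : 0 < δ)
    (hbox : ∀ x, a ≤ cx b o x → cx b o x ≤ c → |cy b o x - g| ≤ δ → x ∈ U) :
    ∃ V, TP b o U a c (2 / (3 * Real.pi) * (c - a)) V := by
  have hpi := Real.pi_pos
  set o' : Pl := o + g • b 1 with ho'
  set V : Pl → ℝ := fun x => eta a c (cx b o x) * (2 / Real.pi * Real.arctan (δ⁻¹ * cy b o' x))
    with hV
  have hVs : ContDiff ℝ ∞ V :=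
    ((eta_smooth a c).comp (contDiff_cx b o)).mul
      (contDiff_const.mul (Real.contDiff_arctan.comp (contDiff_const.mul (contDiff_cy b o'))))
  have hDV : ∀ x, D (b 1) V x = eta a c (cx b o x) *
      (2 / Real.pi * (1 / (1 + (δ⁻¹ * cy b o' x) ^ 2) * δ⁻¹)) := by
    intro x
    have d1 : HasFDerivAt (fun x => eta a c (cx b o x))
        (deriv (eta a c) (cx b o x) • innerSL ℝ (b 0)) x :=
      (((eta_smooth a c).differentiable (by simp)) _).hasDerivAt.comp_hasFDerivAt x
        (hasFDerivAt_cx b o x)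
    have d2 := (hasFDerivAt_cy b o' x).const_mul δ⁻¹
    have d3 : HasFDerivAt (fun x => Real.arctan (δ⁻¹ * cy b o' x))
        ((1 / (1 + (δ⁻¹ * cy b o' x) ^ 2)) • (δ⁻¹ • innerSL ℝ (b 1))) x :=
      d2.arctan
    have d4 := d1.mul (d3.const_mul (2 / Real.pi))
    change fderiv ℝ ((fun x => eta a c (cx b o x)) *
      fun x => 2 / Real.pi * Real.arctan (δ⁻¹ * cy b o' x)) x (b 1) = _
    rw [d4.fderiv]
    simp
  have hfrac : ∀ x, 0 < 1 / (1 + (δ⁻¹ * cy b o' x) ^ 2) ∧ 1 / (1 + (δ⁻¹ * cy b o' x) ^ 2) ≤ 1 := by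
    intro x
    have h0 : 0 ≤ (δ⁻¹ * cy b o' x) ^ 2 := sq_nonneg _
    exact ⟨by positivity, by rw [div_le_one (by positivity)]; linarith⟩
  refine ⟨V, hVs, fun x => ?_, fun x hx => ?_, fun x => ?_, ⟨δ⁻¹, fun x => ?_⟩, ?_⟩
  · have h1 : |2 / Real.pi * Real.arctan (δ⁻¹ * cy b o' x)| ≤ 1 := by
      rw [abs_mul, abs_of_pos (by positivity), div_mul_eq_mul_div, div_le_one hpi]
      have := abs_lt.2 ⟨Real.neg_pi_div_two_lt_arctan (δ⁻¹ * cy b o' x),
        Real.arctan_lt_pi_div_two (δ⁻¹ * cy b o' x)⟩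
      linarith
    rw [hV]
    simp only
    rw [abs_mul, abs_of_nonneg (eta_nonneg _ _ _)]
    calc eta a c (cx b o x) * |2 / Real.pi * Real.arctan (δ⁻¹ * cy b o' x)| ≤ 1 * 1 :=
          mul_le_mul (eta_le_one _ _ _) h1 (abs_nonneg _) (by norm_num)
      _ = 1 := by norm_num
  · apply eta_supp hac
    intro h; apply hx; simp [hV, h]
  · rw [hDV]
    have := (hfrac x).1
    exact mul_nonneg (eta_nonneg _ _ _) (by positivity)
  · rw [hDV]
    obtain ⟨f1, f2⟩ := hfrac x
    rw [abs_of_nonneg (mul_nonneg (eta_nonneg _ _ _) (by positivity))]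
    have h2pi : 2 / Real.pi ≤ 1 := by
      rw [div_le_one hpi]; linarith [Real.pi_gt_three]
    calc eta a c (cx b o x) * (2 / Real.pi * (1 / (1 + (δ⁻¹ * cy b o' x) ^ 2) * δ⁻¹))
        ≤ 1 * (1 * (1 * δ⁻¹)) := by
          apply mul_le_mul (eta_le_one _ _ _) _ (by positivity) (by norm_num)
          apply mul_le_mul h2pi _ (by positivity) (by norm_num)
          exact mul_le_mul_of_nonneg_right f2 (by positivity)
      _ = δ⁻¹ := by ring
  · set B : Set Pl := {x : Pl | cx b o' x ∈ Icc (a + (c - a) / 3) (c - (c - a) / 3) ∧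
      cy b o' x ∈ Icc (-δ) δ} with hB
    have hBm : MeasurableSet B :=
      ((contDiff_cx b o').continuous.measurable measurableSet_Icc).inter
        ((contDiff_cy b o').continuous.measurable measurableSet_Icc)
    have hBU : B ⊆ U := by
      intro x hx
      obtain ⟨⟨h1, h2⟩, h3, h4⟩ := hx
      rw [ho', cx_shift] at h1 h2
      rw [ho', cy_shift] at h3 h4
      apply hbox x (by linarith) (by linarith)
      rw [abs_le]; exact ⟨h3, h4⟩
    have hBvol : volume.real B = (c - a) / 3 * (2 * δ) := by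
      rw [measureReal_def, hB, volume_rect, ENNReal.toReal_mul,
        ENNReal.toReal_ofReal (by linarith), ENNReal.toReal_ofReal (by positivity)]
      ring
    have : IsFiniteMeasure (volume.restrict U) :=
      ⟨by rw [Measure.restrict_apply_univ]; exact hv⟩
    have hpt : ∀ x, B.indicator (fun _ => (1 / (Real.pi * δ) : ℝ)) x ≤ D (b 1) V x := by
      intro x
      by_cases hx : x ∈ B
      · rw [indicator_of_mem hx, hDV]
        obtain ⟨⟨h1, h2⟩, h3, h4⟩ := hx
        rw [ho', cx_shift] at h1 h2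
        rw [eta_one hac h1 h2, one_mul]
        have h5 : (δ⁻¹ * cy b o' x) ^ 2 ≤ 1 := by
          rw [mul_pow, inv_pow, inv_mul_le_iff₀ (by positivity), mul_one]
          nlinarith
        have h6 : 1 / 2 ≤ 1 / (1 + (δ⁻¹ * cy b o' x) ^ 2) := by
          apply one_div_le_one_div_of_le (by positivity)
          linarith
        calc 1 / (Real.pi * δ) = 2 / Real.pi * (1 / 2 * δ⁻¹) := by field_simp
          _ ≤ _ := by
            apply mul_le_mul_of_nonneg_left _ (by positivity)
            exact mul_le_mul_of_nonneg_right h6 (by positivity)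
      · rw [indicator_of_notMem hx, hDV]
        have := (hfrac x).1
        exact mul_nonneg (eta_nonneg _ _ _) (by positivity)
    have hM : ∃ M, ∀ x, |D (b 1) V x| ≤ M := ⟨δ⁻¹, fun x => by
      rw [hDV]
      obtain ⟨f1, f2⟩ := hfrac x
      rw [abs_of_nonneg (mul_nonneg (eta_nonneg _ _ _) (by positivity))]
      have h2pi : 2 / Real.pi ≤ 1 := by
        rw [div_le_one hpi]; linarith [Real.pi_gt_three]
      calc eta a c (cx b o x) * (2 / Real.pi * (1 / (1 + (δ⁻¹ * cy b o' x) ^ 2) * δ⁻¹))
          ≤ 1 * (1 * (1 * δ⁻¹)) := by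
            apply mul_le_mul (eta_le_one _ _ _) _ (by positivity) (by norm_num)
            apply mul_le_mul h2pi _ (by positivity) (by norm_num)
            exact mul_le_mul_of_nonneg_right f2 (by positivity)
        _ = δ⁻¹ := by ring⟩
    have hint : ∫ x in U, B.indicator (fun _ => (1 / (Real.pi * δ) : ℝ)) x ≤
        ∫ x in U, D (b 1) V x :=
      integral_mono ((integrable_const _).indicator hBm) (D1_integrableOn hv hVs hM) hpt
    rw [setIntegral_indicator hBm, inter_eq_right.2 hBU, setIntegral_const, hBvol,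
      smul_eq_mul] at hint
    refine le_trans (le_of_eq ?_) hint
    field_simp

/-- If all the slices over `[a, c]` are nonempty then there is a transversal potential. -/
lemma TP_interval (hUo : IsOpen U) (hv : volume U < ⊤) {a c : ℝ} (hac : a ≤ c)
    (hs : ∀ s ∈ Icc a c, ∃ z ∈ U, cx b o z = s) :
    ∃ V, TP b o U a c (2 / (3 * Real.pi) * (c - a)) V := by
  classical
  have hr : ∀ z : U, ∃ r > 0, ball (z : Pl) r ⊆ U := fun z => Metric.isOpen_iff.1 hUo z z.2
  choose r hr0 hr1 using hr
  let C : U → Set (Icc a c) := fun z => {s | |(s : ℝ) - cx b o z| < r z / 2}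
  have hC1 : ∀ z, IsOpen (C z) := fun z =>
    isOpen_lt (continuous_subtype_val.sub continuous_const).abs continuous_const
  have hC2 : univ ⊆ ⋃ z, C z := by
    intro s _
    obtain ⟨z, hz, hzs⟩ := hs s s.2
    refine mem_iUnion.2 ⟨⟨z, hz⟩, ?_⟩
    simp only [C, mem_ofPred_eq, hzs, sub_self, abs_zero]
    have := hr0 ⟨z, hz⟩
    positivity
  obtain ⟨t, ht0, htm, ⟨m, hm⟩, htC⟩ := exists_monotone_Icc_subset_open_cover_Icc hac hC1 hC2
  have key : ∀ n : ℕ, ∃ V, TP b o U a (t n) (2 / (3 * Real.pi) * ((t n : ℝ) - a)) V := by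
    intro n
    induction n with
    | zero =>
      have h0 : ((t 0 : Icc a c) : ℝ) = a := ht0
      rw [h0, sub_self, mul_zero]
      exact ⟨_, TP_zero a a⟩
    | succ n ih =>
      obtain ⟨V₁, hV₁⟩ := ih
      have hle : (t n : ℝ) ≤ t (n + 1) := htm (Nat.le_succ n)
      have hle0 : a ≤ t n := (t n).2.1
      rcases hle.lt_or_eq with hlt | heq
      · obtain ⟨z, hz⟩ := htC n
        have hbox : ∀ x, (t n : ℝ) ≤ cx b o x → cx b o x ≤ t (n + 1) →
            |cy b o x - cy b o z| ≤ r z / 2 → x ∈ U := by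
          intro x h1 h2 h3
          apply hr1 z
          rw [mem_ball, dist_eq_norm]
          have h4 : |cx b o x - cx b o z| < r z / 2 := by
            have hmem : (⟨cx b o x, (t n).2.1.trans h1, h2.trans (t (n + 1)).2.2⟩ : Icc a c) ∈
                Icc (t n) (t (n + 1)) := ⟨h1, h2⟩
            exact hz hmem
          have h5 := norm_sub_sq_frame b (z : Pl) x
          have e1 : cx b (z : Pl) x = cx b o x - cx b o z := by
            simp only [cx, inner_sub_right]; ring
          have e2 : cy b (z : Pl) x = cy b o x - cy b o z := by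
            simp only [cy, inner_sub_right]; ring
          rw [e1, e2] at h5
          have h6 : (cx b o x - cx b o z) ^ 2 ≤ (r z / 2) ^ 2 := by
            rw [← sq_abs]; exact pow_le_pow_left₀ (abs_nonneg _) h4.le 2
          have h7 : (cy b o x - cy b o z) ^ 2 ≤ (r z / 2) ^ 2 := by
            rw [← sq_abs]; exact pow_le_pow_left₀ (abs_nonneg _) h3 2
          have h8 : ‖x - z‖ ^ 2 < r z ^ 2 := by
            rw [h5]; nlinarith [hr0 z]
          exact lt_of_pow_lt_pow_left₀ 2 (hr0 z).le h8
        obtain ⟨V₂, hV₂⟩ := TP_local (b := b) (o := o) hUo hv hlt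
          (by have := hr0 z; positivity : 0 < r z / 2) hbox
        refine ⟨V₁ + V₂, ?_⟩
        have := TP_add hv hle0 hle hV₁ hV₂
        convert this using 1
        ring
      · rw [← heq]; exact ⟨V₁, hV₁⟩
  have h := key m
  rw [hm m le_rfl] at h
  exact h

end Pool.Agent.H873R3
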