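import Pool.Agent.H873R3.BuckBound

/-!
# Poincaré inequality on open sets of finite measure
-/

noncomputable section

namespace Pool.Agent.H873R3

open MeasureTheory Set Filter Topology InnerProductSpace
open scoped ContDiff Gradient

variable {b : OrthonormalBasis (Fin 2) ℝ Pl}
variable {U : Set Pl} {u : Pl → ℝ}

lemma norm_fderiv_sq (b : OrthonormalBasis (Fin 2) ℝ Pl) (u : Pl → ℝ) (x : Pl) :
    ‖fderiv ℝ u x‖ ^ 2 = (D (b 0) u x) ^ 2 + (D (b 1) u x) ^ 2 := by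
  rw [← gradient_eq_frame u b x, gradient, LinearIsometryEquiv.norm_map]

/-- Poincaré inequality on sets of finite measure. -/
lemma poincare_finite (b : OrthonormalBasis (Fin 2) ℝ Pl) (hv : volume U < ⊤) :
    ∃ C : ℝ, 0 < C ∧ ∀ u, TF U u → ∫ x, u x ^ 2 ≤ C * Nb b u u := by
  set c : NNReal := lintegralPowLePowLIntegralFDerivConst (volume : Measure Pl) 2 with hc
  set V : ℝ := volume.real U with hV
  have hV0 : 0 ≤ V := measureReal_nonneg
  refine ⟨c * V + 1, by positivity, fun u hu => ?_⟩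
  have hp : Real.HolderConjugate (Module.finrank ℝ Pl) (2 : ℝ) := by
    have : (Module.finrank ℝ Pl : ℝ) = 2 := by simp
    rw [this]; exact Real.HolderConjugate.two_two
  have hu1 : ContDiff ℝ 1 u := hu.1.of_le (by simp)
  have hS := lintegral_pow_le_pow_lintegral_fderiv (volume : Measure Pl) hu1 hu.2.1 hp
  rw [← hc] at hS
  have hgc : Continuous (fun x => ‖fderiv ℝ u x‖) := (hu1.continuous_fderiv (by simp)).norm
  have hgs : HasCompactSupport (fun x => ‖fderiv ℝ u x‖) := (hu.2.1.fderiv (𝕜 := ℝ)).norm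
  have hgi : Integrable (fun x => ‖fderiv ℝ u x‖) := hgc.integrable_of_hasCompactSupport hgs
  have hfi : Integrable (fderiv ℝ u) :=
    (hu1.continuous_fderiv (by simp)).integrable_of_hasCompactSupport (hu.2.1.fderiv (𝕜 := ℝ))
  have hg2 : Integrable (fun x => ‖fderiv ℝ u x‖ ^ 2) := by
    refine (hgc.pow 2).integrable_of_hasCompactSupport ?_
    exact hgs.comp_left (g := fun t : ℝ => t ^ 2) (by simp)
  set I : ℝ := ∫ x, ‖fderiv ℝ u x‖ with hI
  have hI0 : 0 ≤ I := integral_nonneg fun x => norm_nonneg _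
  have hl1 : ∫⁻ x, ‖fderiv ℝ u x‖ₑ = ENNReal.ofReal I :=
    (ofReal_integral_norm_eq_lintegral_enorm hfi).symm
  have hl2 : ∫⁻ x, ‖u x‖ₑ ^ (2 : ℝ) = ENNReal.ofReal (∫ x, u x ^ 2) := by
    rw [ofReal_integral_eq_lintegral_ofReal hu.sq'.integrable (ae_of_all _ fun x => sq_nonneg _)]
    congr 1; ext x
    rw [ENNReal.rpow_two, Real.enorm_eq_ofReal_abs, ← ENNReal.ofReal_pow (abs_nonneg _), sq_abs]
  rw [hl1, hl2, ENNReal.rpow_two, ← ENNReal.ofReal_pow hI0, ← ENNReal.ofReal_coe_nnreal,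
    ← ENNReal.ofReal_mul (NNReal.coe_nonneg c), ENNReal.ofReal_le_ofReal_iff (by positivity)] at hS
  -- Cauchy-Schwarz
  have hG : Nb b u u = ∫ x, ‖fderiv ℝ u x‖ ^ 2 := by
    rw [Nb_self]; congr 1; ext x; rw [norm_fderiv_sq b]
  have hzero : ∀ x, x ∉ U → fderiv ℝ u x = 0 := by
    intro x hx
    have h1 : x ∉ tsupport u := fun h => hx (hu.2.2 h)
    have h2 : u =ᶠ[𝓝 x] 0 := notMem_tsupport_iff_eventuallyEq.1 h1
    rw [h2.fderiv_eq]; simp
  have hIU : I = ∫ x in U, ‖fderiv ℝ u x‖ := by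
    rw [hI, setIntegral_eq_integral_of_forall_compl_eq_zero]
    intro x hx; rw [hzero x hx, norm_zero]
  have hGU : (∫ x, ‖fderiv ℝ u x‖ ^ 2) = ∫ x in U, ‖fderiv ℝ u x‖ ^ 2 := by
    rw [setIntegral_eq_integral_of_forall_compl_eq_zero]
    intro x hx; rw [hzero x hx, norm_zero]; ring
  have : IsFiniteMeasure (volume.restrict U) :=
    ⟨by rw [Measure.restrict_apply_univ]; exact hv⟩
  have hCS : ∀ m : ℝ, 0 ≤ (∫ x, ‖fderiv ℝ u x‖ ^ 2) - 2 * m * I + m ^ 2 * V := by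
    intro m
    have h0 : 0 ≤ ∫ x in U, (‖fderiv ℝ u x‖ - m) ^ 2 := integral_nonneg fun x => sq_nonneg _
    have h1 : ∫ x in U, (‖fderiv ℝ u x‖ - m) ^ 2 =
        ∫ x in U, ((‖fderiv ℝ u x‖ ^ 2 - 2 * m * ‖fderiv ℝ u x‖) + m ^ 2) := by
      congr 1; ext x; ring
    have i1 : Integrable (fun x => ‖fderiv ℝ u x‖ ^ 2) (volume.restrict U) := hg2.restrict
    have i2 : Integrable (fun x => 2 * m * ‖fderiv ℝ u x‖) (volume.restrict U) :=
      (hgi.const_mul _).restrict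
    have i3 : Integrable (fun x => ‖fderiv ℝ u x‖ ^ 2 - 2 * m * ‖fderiv ℝ u x‖)
      (volume.restrict U) := i1.sub i2
    rw [h1, integral_add i3 (integrable_const _), integral_sub i1 i2, integral_const_mul,
      integral_const, ← hIU, ← hGU] at h0
    simp only [measureReal_restrict_apply_univ, smul_eq_mul] at h0
    rw [← hV] at h0
    linarith
  have hI2 : I ^ 2 ≤ V * ∫ x, ‖fderiv ℝ u x‖ ^ 2 := by
    rcases hV0.lt_or_eq with h | h
    · have := hCS (I / V)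
      have e : (∫ x, ‖fderiv ℝ u x‖ ^ 2) - 2 * (I / V) * I + (I / V) ^ 2 * V =
        (∫ x, ‖fderiv ℝ u x‖ ^ 2) - I ^ 2 / V := by field_simp; ring
      rw [e] at this
      have h2 : I ^ 2 / V ≤ ∫ x, ‖fderiv ℝ u x‖ ^ 2 := by linarith
      rw [div_le_iff₀ h] at h2
      linarith
    · rw [← h] at hCS ⊢
      by_contra hcon
      push Not at hcon
      rw [zero_mul] at hcon
      have hIpos : 0 < I := by
        rcases hI0.lt_or_eq with h' | h'
        · exact h'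
        · rw [← h'] at hcon; norm_num at hcon
      have h3 := hCS (((∫ x, ‖fderiv ℝ u x‖ ^ 2) + 1) / I)
      have e : (∫ x, ‖fderiv ℝ u x‖ ^ 2) - 2 * (((∫ x, ‖fderiv ℝ u x‖ ^ 2) + 1) / I) * I
        + (((∫ x, ‖fderiv ℝ u x‖ ^ 2) + 1) / I) ^ 2 * 0 =
        -(∫ x, ‖fderiv ℝ u x‖ ^ 2) - 2 := by field_simp; ring
      rw [e] at h3
      have h4 : 0 ≤ ∫ x, ‖fderiv ℝ u x‖ ^ 2 := integral_nonneg fun x => sq_nonneg _
      linarith
  rw [hG]
  have h5 : 0 ≤ ∫ x, ‖fderiv ℝ u x‖ ^ 2 := integral_nonneg fun x => sq_nonneg _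
  have h6 : (c : ℝ) * I ^ 2 ≤ c * (V * ∫ x, ‖fderiv ℝ u x‖ ^ 2) :=
    mul_le_mul_of_nonneg_left hI2 (NNReal.coe_nonneg c)
  have h7 : ∫ x, u x ^ 2 ≤ (c : ℝ) * I ^ 2 := hS
  linarith

end Pool.Agent.H873R3
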