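import Pool.Agent.H873R3.BuckMain
import Pool.Agent.H873R3.BuckSob
import Pool.Agent.H873R3.BuckSelect

/-!
# No corners, without convexity or boundedness
-/

noncomputable section

namespace Pool.Agent.H873R3

open MeasureTheory Set Filter Topology InnerProductSpace Metric
open scoped ContDiff Gradient Pointwise

variable {b : OrthonormalBasis (Fin 2) ℝ Pl} {o : Pl}
variable {U E : Set Pl} {u : Pl → ℝ}

lemma Nb_le_of_poincare {C : ℝ} (hC0 : 0 < C) (hu : TF U u)
    (hP : ∫ x, u x ^ 2 ≤ C * Nb b u u) : Nb b u u ≤ C * Eb b u u := by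
  have hI := Nb_ibp (b := b) hu
  have i1 := hu.sq'.integrable.const_mul (1 / (2 * C))
  have i2 := (hu.Lp (b := b)).sq'.integrable.const_mul (C / 2)
  have h1 : - ∫ x, u x * Lp b u x ≤ 1 / (2 * C) * (∫ x, u x ^ 2) + C / 2 * Eb b u u := by
    rw [Eb_self, ← integral_neg, ← integral_const_mul, ← integral_const_mul, ← integral_add i1 i2]
    refine integral_mono (hu.mul' (hu.Lp (b := b))).integrable.neg (iadd i1 i2) fun x => ?_
    have h2 : 0 ≤ 1 / (2 * C) * (u x + C * Lp b u x) ^ 2 := by positivity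
    have h3 : 1 / (2 * C) * (u x + C * Lp b u x) ^ 2 =
      1 / (2 * C) * u x ^ 2 + C / 2 * Lp b u x ^ 2 + u x * Lp b u x := by
      field_simp; ring
    simp only
    linarith
  have h4 : 1 / (2 * C) * (∫ x, u x ^ 2) ≤ 1 / 2 * Nb b u u := by
    calc 1 / (2 * C) * (∫ x, u x ^ 2) ≤ 1 / (2 * C) * (C * Nb b u u) :=
          mul_le_mul_of_nonneg_left hP (by positivity)
      _ = 1 / 2 * Nb b u u := by field_simp
  linarith

lemma Nb_pos_of_poincare {C : ℝ} (hu : TF U u) (hP : ∫ x, u x ^ 2 ≤ C * Nb b u u)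
    (hne : u ≠ 0) : 0 < Nb b u u := by
  have h0 := Nb_nonneg (b := b) u
  rcases h0.lt_or_eq with h | h
  · exact h
  · exfalso
    rw [← h, mul_zero] at hP
    have h1 : ∫ x, u x ^ 2 = 0 := le_antisymm hP (integral_nonneg fun x => sq_nonneg _)
    have h2 : (fun x => u x ^ 2) = fun _ => (0 : ℝ) := by
      have := (integral_eq_zero_iff_of_nonneg (fun x => sq_nonneg (u x)) hu.sq'.integrable).1 h1
      exact (Continuous.ae_eq_iff_eq volume hu.sq'.cont continuous_const).1 this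
    apply hne
    ext x
    have := congrFun h2 x
    simpa using this

/-- Basic facts on the buckling load. -/
lemma load_facts (b : OrthonormalBasis (Fin 2) ℝ Pl) (hUo : IsOpen U) (hne : U.Nonempty) {C : ℝ}
    (hC : 0 < C) (hPoin : ∀ u, TF U u → ∫ x, u x ^ 2 ≤ C * Nb b u u) :
    ∃ Λ : ℝ, 0 < Λ ∧ bucklingLoad U = ENNReal.ofReal Λ ∧
      (∀ φ, TF U φ → Λ * Nb b φ φ ≤ Eb b φ φ) ∧
      (∀ δ > (0 : ℝ), ∃ u, TF U u ∧ Nb b u u = 1 ∧ Eb b u u ≤ Λ + δ) := by
  have hfin : bucklingLoad U < ⊤ := by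
    obtain ⟨u, hu, hu0⟩ := exists_TF hUo hne
    refine lt_of_le_of_lt ?_ (ENNReal.ofReal_lt_top (r := rayleigh u))
    exact iInf_le_of_le u (iInf_le_of_le hu (iInf_le _ hu0))
  set Λ : ℝ := (bucklingLoad U).toReal with hΛdef
  have hΛof : ENNReal.ofReal Λ = bucklingLoad U := ENNReal.ofReal_toReal hfin.ne
  have hlow : ∀ φ, TF U φ → φ ≠ 0 → 1 / C ≤ rayleigh φ := by
    intro φ hφ hφ0
    have hN := Nb_pos_of_poincare (b := b) hφ (hPoin φ hφ) hφ0
    rw [rayleigh_eq b hφ, div_le_div_iff₀ hC hN]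
    have := Nb_le_of_poincare (b := b) hC hφ (hPoin φ hφ)
    linarith
  have hΛ0 : 0 < Λ := by
    have h1 : ENNReal.ofReal (1 / C) ≤ bucklingLoad U :=
      le_iInf fun φ => le_iInf fun hφ => le_iInf fun hφ0 =>
        ENNReal.ofReal_le_ofReal (hlow φ hφ hφ0)
    have h2 : 0 < bucklingLoad U := lt_of_lt_of_le (ENNReal.ofReal_pos.2 (by positivity)) h1
    exact ENNReal.toReal_pos h2.ne' hfin.ne
  refine ⟨Λ, hΛ0, hΛof.symm, ?_, ?_⟩
  · intro φ hφ
    by_cases hφ0 : φ = 0
    · subst hφ0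
      have : Nb b (0 : Pl → ℝ) 0 = 0 := by
        rw [Nb_ibp hφ]; simp
      rw [this, mul_zero]; exact Eb_nonneg _
    · have hN := Nb_pos_of_poincare (b := b) hφ (hPoin φ hφ) hφ0
      have h1 : bucklingLoad U ≤ ENNReal.ofReal (rayleigh φ) :=
        iInf_le_of_le φ (iInf_le_of_le hφ (iInf_le _ hφ0))
      have h2 : 0 ≤ rayleigh φ := le_trans (by positivity) (hlow φ hφ hφ0)
      have h3 : Λ ≤ rayleigh φ := by
        rw [← hΛof] at h1
        exact (ENNReal.ofReal_le_ofReal_iff h2).1 h1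
      rw [rayleigh_eq b hφ, le_div_iff₀ hN] at h3
      exact h3
  · intro δ hδ
    have h1 : bucklingLoad U < ENNReal.ofReal (Λ + δ) := by
      rw [← hΛof]; exact (ENNReal.ofReal_lt_ofReal_iff (by linarith)).2 (by linarith)
    obtain ⟨u, h2⟩ := iInf_lt_iff.1 h1
    obtain ⟨hu, h3⟩ := iInf_lt_iff.1 h2
    obtain ⟨hu0, h4⟩ := iInf_lt_iff.1 h3
    have h5 : rayleigh u < Λ + δ := (ENNReal.ofReal_lt_ofReal_iff (by linarith)).1 h4
    have hN := Nb_pos_of_poincare (b := b) hu (hPoin u hu) hu0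
    rw [rayleigh_eq b hu, div_lt_iff₀ hN] at h5
    set s : ℝ := (Real.sqrt (Nb b u u))⁻¹ with hs
    have hs2 : s ^ 2 * Nb b u u = 1 := by
      rw [hs, inv_pow, Real.sq_sqrt hN.le, inv_mul_cancel₀ hN.ne']
    have e0 : (0 : Pl → ℝ) + (fun x => s * u x) = fun x => s * u x := by ext x; simp
    have hz : TF U (0 : Pl → ℝ) := by
      have := hu.smul 0
      convert this using 1; ext x; simp
    have z1 : Nb b (0 : Pl → ℝ) u = 0 := by simp [Nb, D]
    have z2 : Nb b (0 : Pl → ℝ) 0 = 0 := by simp [Nb, D]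
    have z3 : Lp b (0 : Pl → ℝ) = 0 := by
      have := Lp_smul (b := b) hu 0
      ext x
      have h7 := congrFun this x
      simp only [zero_mul] at h7
      exact h7
    have z4 : Eb b (0 : Pl → ℝ) u = 0 := by simp [Eb, z3]
    have z5 : Eb b (0 : Pl → ℝ) 0 = 0 := by simp [Eb, z3]
    have n1 := Nb_expand (b := b) hz hu s
    have n2 := Eb_expand (b := b) hz hu s
    rw [e0, z1, z2] at n1
    rw [e0, z4, z5] at n2
    refine ⟨fun x => s * u x, hu.smul s, ?_, ?_⟩
    · rw [n1]; linarith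
    · rw [n2]
      have : s ^ 2 * Eb b u u ≤ s ^ 2 * ((Λ + δ) * Nb b u u) :=
        mul_le_mul_of_nonneg_left h5.le (sq_nonneg s)
      have h8 : s ^ 2 * ((Λ + δ) * Nb b u u) = Λ + δ := by
        calc _ = (Λ + δ) * (s ^ 2 * Nb b u u) := by ring
          _ = _ := by rw [hs2, mul_one]
      linarith

/-- Comparison of an optimal set with a rescaled competitor of smaller perimeter. -/
lemma compare {p p' Λ : ℝ} {Ω V : Set Pl} {W : Pl → ℝ} (hp : 0 < p) (hp' : 0 < p')
    (hopt : IsOptimal p Ω) (hΛ : bucklingLoad Ω = ENNReal.ofReal Λ) (hVo : IsOpen V)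
    (hVv : volume V < ⊤) (hVp : perimeter V ≤ (p' : EReal)) (hW : TF V W)
    (hN : 0 < Nb b W W) : (p / p') ^ 2 * (Λ * Nb b W W) ≤ Eb b W W := by
  set t : ℝ := p / p' with ht
  have ht0 : 0 < t := by positivity
  have hPt := perimeter_scale ht0 hVp
  have htp : t * p' = p := by rw [ht]; field_simp
  rw [htp] at hPt
  have hvol : volume (t • V) < ⊤ := by
    rw [Measure.addHaar_smul]
    exact ENNReal.mul_lt_top ENNReal.ofReal_lt_top hVv
  have hcomp := hopt.minimal (t • V) (hVo.smul₀ ht0.ne') hvol hPt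
  have hWt := TF_scale ht0 hW
  have hW0 : (fun x => W (t⁻¹ • x)) ≠ 0 := by
    intro h
    have h3 := Nb_scale (b := b) ht0 hW
    rw [h] at h3
    have : Nb b (0 : Pl → ℝ) 0 = 0 := by simp [Nb, D]
    rw [this] at h3
    linarith
  have h4 : bucklingLoad Ω ≤ ENNReal.ofReal (rayleigh (fun x => W (t⁻¹ • x))) :=
    hcomp.trans (iInf_le_of_le _ (iInf_le_of_le hWt (iInf_le _ hW0)))
  rw [rayleigh_eq b hWt, Eb_scale ht0 hW, Nb_scale ht0 hW, hΛ] at h4
  have h5 : 0 ≤ t⁻¹ ^ 2 * Eb b W W / Nb b W W := by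
    have := Eb_nonneg (b := b) W
    positivity
  have h6 := (ENNReal.ofReal_le_ofReal_iff h5).1 h4
  rw [le_div_iff₀ hN] at h6
  have h7 := mul_le_mul_of_nonneg_left h6 (by positivity : 0 ≤ t ^ 2)
  have e : t ^ 2 * (t⁻¹ ^ 2 * Eb b W W) = Eb b W W := by field_simp
  rwa [e] at h7

/-- The part of a test function on one side of an empty slice. -/
lemma TF_split {Ω : Set Pl} {s : ℝ} (hs : ∀ z ∈ Ω, cx b o z ≠ s) (hu : TF Ω u) :
    ∃ u₁ u₂ : Pl → ℝ, TF (Ω ∩ {x | s < cx b o x}) u₁ ∧ TF (Ω ∩ {x | cx b o x < s}) u₂ ∧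
      u = u₁ + fun x => 1 * u₂ x := by
  classical
  have hcont := (contDiff_cx b o).continuous
  set u₁ : Pl → ℝ := fun x => if s < cx b o x then u x else 0 with hu₁
  set u₂ : Pl → ℝ := fun x => if cx b o x < s then u x else 0 with hu₂
  have hzero : ∀ x, cx b o x = s → u =ᶠ[𝓝 x] 0 := by
    intro x hx
    apply notMem_tsupport_iff_eventuallyEq.1
    intro h
    exact hs x (hu.2.2 h) hx
  have hsm1 : ContDiff ℝ ∞ u₁ := by
    rw [contDiff_iff_contDiffAt]
    intro x
    rcases lt_trichotomy (cx b o x) s with h | h | h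
    · have h1 : u₁ =ᶠ[𝓝 x] fun _ => 0 := by
        filter_upwards [hcont.continuousAt.eventually (gt_mem_nhds h)] with y hy
        simp [hu₁, not_lt.2 (le_of_lt hy)]
      exact contDiffAt_const.congr_of_eventuallyEq h1
    · have h1 : u₁ =ᶠ[𝓝 x] fun _ => 0 := by
        filter_upwards [hzero x h] with y hy
        simp [hu₁, hy]
      exact contDiffAt_const.congr_of_eventuallyEq h1
    · have h1 : u₁ =ᶠ[𝓝 x] u := by
        filter_upwards [hcont.continuousAt.eventually (lt_mem_nhds h)] with y hy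
        simp [hu₁, hy]
      exact hu.1.contDiffAt.congr_of_eventuallyEq h1
  have hsm2 : ContDiff ℝ ∞ u₂ := by
    rw [contDiff_iff_contDiffAt]
    intro x
    rcases lt_trichotomy (cx b o x) s with h | h | h
    · have h1 : u₂ =ᶠ[𝓝 x] u := by
        filter_upwards [hcont.continuousAt.eventually (gt_mem_nhds h)] with y hy
        simp [hu₂, hy]
      exact hu.1.contDiffAt.congr_of_eventuallyEq h1
    · have h1 : u₂ =ᶠ[𝓝 x] fun _ => 0 := by
        filter_upwards [hzero x h] with y hy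
        simp [hu₂, hy]
      exact contDiffAt_const.congr_of_eventuallyEq h1
    · have h1 : u₂ =ᶠ[𝓝 x] fun _ => 0 := by
        filter_upwards [hcont.continuousAt.eventually (lt_mem_nhds h)] with y hy
        simp [hu₂, not_lt.2 (le_of_lt hy)]
      exact contDiffAt_const.congr_of_eventuallyEq h1
  have hts1 : tsupport u₁ ⊆ tsupport u := by
    apply closure_mono
    intro x hx h
    apply hx
    simp [hu₁, h]
  have hts2 : tsupport u₂ ⊆ tsupport u := by
    apply closure_mono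
    intro x hx h
    apply hx
    simp [hu₂, h]
  have hle1 : tsupport u₁ ⊆ {x | s ≤ cx b o x} := by
    refine closure_minimal (fun x hx => ?_) (isClosed_le continuous_const hcont)
    by_contra h
    simp only [mem_ofPred_eq, not_le] at h
    apply hx
    simp [hu₁, not_lt.2 h.le]
  have hle2 : tsupport u₂ ⊆ {x | cx b o x ≤ s} := by
    refine closure_minimal (fun x hx => ?_) (isClosed_le hcont continuous_const)
    by_contra h
    simp only [mem_ofPred_eq, not_le] at h
    apply hx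
    simp [hu₂, not_lt.2 h.le]
  refine ⟨u₁, u₂, ⟨hsm1, hu.2.1.of_isClosed_subset (isClosed_tsupport _) hts1, ?_⟩,
    ⟨hsm2, hu.2.1.of_isClosed_subset (isClosed_tsupport _) hts2, ?_⟩, ?_⟩
  · intro x hx
    have hxΩ := hu.2.2 (hts1 hx)
    exact ⟨hxΩ, lt_of_le_of_ne (hle1 hx) (hs x hxΩ).symm⟩
  · intro x hx
    have hxΩ := hu.2.2 (hts2 hx)
    exact ⟨hxΩ, lt_of_le_of_ne (hle2 hx) (hs x hxΩ)⟩
  · ext x
    simp only [Pi.add_apply, hu₁, hu₂, one_mul]
    rcases lt_trichotomy (cx b o x) s with h | h | h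
    · simp [h, not_lt.2 h.le]
    · have : u x = 0 := (hzero x h).eq_of_nhds
      simp [this]
    · simp [h, not_lt.2 h.le]

lemma cross_zero {Ω₁ Ω₂ : Set Pl} (hd : Disjoint Ω₁ Ω₂) {u₁ u₂ : Pl → ℝ} (h1 : TF Ω₁ u₁)
    (h2 : TF Ω₂ u₂) : Eb b u₁ u₂ = 0 ∧ Nb b u₁ u₂ = 0 := by
  have key : ∀ x, x ∉ Ω₁ ∨ x ∉ Ω₂ := by
    intro x
    by_contra h
    push Not at h
    exact Set.disjoint_left.1 hd h.1 h.2
  constructor
  · simp only [Eb]
    have : (fun x => Lp b u₁ x * Lp b u₂ x) = fun _ => 0 := by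
      ext x
      rcases key x with h | h
      · rw [(h1.Lp (b := b)).eq_zero h, zero_mul]
      · rw [(h2.Lp (b := b)).eq_zero h, mul_zero]
    rw [this]; simp
  · simp only [Nb]
    have : (fun x => D (b 0) u₁ x * D (b 0) u₂ x + D (b 1) u₁ x * D (b 1) u₂ x) =
        fun _ => 0 := by
      ext x
      rcases key x with h | h
      · rw [(h1.D (b 0)).eq_zero h, (h1.D (b 1)).eq_zero h]; ring
      · rw [(h2.D (b 0)).eq_zero h, (h2.D (b 1)).eq_zero h]; ring
    rw [this]; simp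

lemma TP.mono_right {a c d γ : ℝ} {V : Pl → ℝ} (hcd : c ≤ d) (h : TP b o U a c γ V) :
    TP b o U a d γ V := by
  obtain ⟨s1, l1, p1, n1, m1, g1⟩ := h
  exact ⟨s1, l1, fun x hx => ⟨(p1 x hx).1, (p1 x hx).2.trans_le hcd⟩, n1, m1, g1⟩

/-- An optimal set is not contained in a proper cone with vertex in its closure. -/
theorem no_coneG {p β : ℝ} {Ω : Set Pl} (hp : 0 < p) (hopt : IsOptimal p Ω)
    (ho : o ∈ closure Ω) (hne : Ω.Nonempty) (hβ : 2 ≤ β)
    (hU : ∀ x ∈ Ω, 0 < cx b o x) (hcone : ∀ x ∈ Ω, |cy b o x| ≤ β * cx b o x) : False := by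
  have hβ0 : 0 < β := by linarith
  have hvol := hopt.volume_lt_top
  obtain ⟨C, hC, hPoin⟩ := poincare_finite b hvol
  obtain ⟨Λ, hΛ0, hΛof, hΛ, hmin⟩ := load_facts b hopt.isOpen hne hC hPoin
  obtain ⟨K, hK1, hK⟩ := sT_deriv_bound
  have hK0 : 0 < K := by linarith
  have hcont := (contDiff_cx b o).continuous
  -- the strip where the Rayleigh quotient is large
  set s₀ : ℝ := 1 / (4 * β ^ 2 * (Λ + 1) + 1) with hs₀
  have hs₀0 : 0 < s₀ := by positivity
  have hs₀1 : s₀ ≤ 1 := by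
    rw [hs₀, div_le_one (by positivity)]
    have : 0 ≤ 4 * β ^ 2 * (Λ + 1) := by positivity
    linarith
  have hstrip : ∀ s, 0 < s → s < s₀ → ∀ v, TF (Ω ∩ {x | cx b o x < s}) v →
      (Λ + 1) * Nb b v v ≤ Eb b v v := by
    intro s hs hss v hv
    have hP := poincare_L2 (b := b) (o := o) (R := s) (β := β)
      (fun x (hx : x ∈ Ω ∩ {x | cx b o x < s}) => hU x hx.1)
      (fun x hx => le_of_lt hx.2) hβ0.le (fun x hx => hcone x hx.1) hv
    have h1 := Nb_le_of_poincare (b := b) (C := 4 * β ^ 2 * s ^ 2) (by positivity) hv hP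
    have hE := Eb_nonneg (b := b) v
    have h2 : (Λ + 1) * (4 * β ^ 2 * s ^ 2) ≤ 1 := by
      have e1 : s ^ 2 ≤ s₀ := by nlinarith
      have e2 : (4 * β ^ 2 * (Λ + 1) + 1) * s₀ = 1 := by rw [hs₀]; field_simp
      have e3 : 4 * β ^ 2 * (Λ + 1) * s ^ 2 ≤ 4 * β ^ 2 * (Λ + 1) * s₀ :=
        mul_le_mul_of_nonneg_left e1 (by positivity)
      nlinarith
    calc (Λ + 1) * Nb b v v ≤ (Λ + 1) * (4 * β ^ 2 * s ^ 2 * Eb b v v) :=
          mul_le_mul_of_nonneg_left h1 (by positivity)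
      _ = (Λ + 1) * (4 * β ^ 2 * s ^ 2) * Eb b v v := by ring
      _ ≤ 1 * Eb b v v := mul_le_mul_of_nonneg_right h2 hE
      _ = Eb b v v := one_mul _
  -- no empty slice near the vertex
  have hslice : ∀ s, 0 < s → s < s₀ → ∃ z ∈ Ω, cx b o z = s := by
    intro s hs hss
    by_contra hcon
    push Not at hcon
    -- a point of Ω below the slice
    have ho0 : cx b o o = 0 := by simp [cx]
    have hopen : IsOpen {x : Pl | cx b o x < s} := isOpen_lt hcont continuous_const
    obtain ⟨z, hzs, hzΩ⟩ := mem_closure_iff.1 ho _ hopen (by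
      simp only [mem_ofPred_eq, ho0]; exact hs)
    simp only [mem_ofPred_eq] at hzs
    obtain ⟨r, hr, hball⟩ := Metric.isOpen_iff.1 hopt.isOpen z hzΩ
    set ρ : ℝ := min (r / 4) ((s - cx b o z) / 2) with hρ
    have hρ0 : 0 < ρ := lt_min (by positivity) (by linarith)
    have hρr : ρ ≤ r / 4 := min_le_left _ _
    have hρs : ρ ≤ (s - cx b o z) / 2 := min_le_right _ _
    have hbox : ∀ x, cx b o z - ρ ≤ cx b o x → cx b o x ≤ cx b o z + ρ →
        |cy b o x - cy b o z| ≤ r / 2 → x ∈ Ω := by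
      intro x h1 h2 h3
      apply hball
      rw [mem_ball, dist_eq_norm]
      have h5 := norm_sub_sq_frame b z x
      have e1 : cx b z x = cx b o x - cx b o z := by
        simp only [cx, inner_sub_right]; ring
      have e2 : cy b z x = cy b o x - cy b o z := by
        simp only [cy, inner_sub_right]; ring
      rw [e1, e2] at h5
      have h6 : (cx b o x - cx b o z) ^ 2 ≤ (r / 4) ^ 2 := by
        rw [← sq_abs]
        refine pow_le_pow_left₀ (abs_nonneg _) ?_ 2
        rw [abs_le]; constructor <;> linarith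
      have h7 : (cy b o x - cy b o z) ^ 2 ≤ (r / 2) ^ 2 := by
        rw [← sq_abs]; exact pow_le_pow_left₀ (abs_nonneg _) h3 2
      have h8 : ‖x - z‖ ^ 2 < r ^ 2 := by
        rw [h5]; nlinarith
      exact lt_of_pow_lt_pow_left₀ 2 hr.le h8
    obtain ⟨V, hV⟩ := TP_local (b := b) (o := o) (U := Ω) hopt.isOpen hvol
      (a := cx b o z - ρ) (c := cx b o z + ρ) (g := cy b o z) (δ := r / 2) (by linarith)
      (by positivity) hbox
    set γ : ℝ := 2 / (3 * Real.pi) * (cx b o z + ρ - (cx b o z - ρ)) with hγ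
    have hγ0 : 0 < γ := by
      have := Real.pi_pos
      have h2ρ : 0 < cx b o z + ρ - (cx b o z - ρ) := by linarith
      positivity
    have hV' := TP.mono_right (by linarith : cx b o z + ρ ≤ s) hV
    set k : ℝ := min 1 (γ / (8 * β * K * s)) with hk
    have hk0 : 0 < k := by positivity
    have hk1 : k ≤ 1 := min_le_left _ _
    have hk2 : k * (8 * β * K * s) ≤ γ := by
      have := min_le_right 1 (γ / (8 * β * K * s))
      rw [le_div_iff₀ (by positivity)] at this
      exact this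
    have hdrop := perim_dropG hopt.isOpen hvol hU hβ0 hcone hopt.perimeter_le hk0.le hk1 hs
      hK0.le hK hV'
    set p' : ℝ := max (p - k * γ / 2) (p / 2) with hp'
    have hp'0 : 0 < p' := lt_max_of_lt_right (by positivity)
    have hp'p : p' < p := max_lt (by have : 0 < k * γ / 2 := by positivity
                                     linarith) (by linarith)
    have hdrop' : perimeter (Ω ∩ {x | s < cx b o x}) ≤ (p' : EReal) := by
      refine hdrop.trans ?_
      rw [EReal.coe_le_coe_iff]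
      refine le_trans ?_ (le_max_left _ _)
      have : k ^ 2 * K * (4 * β * s) ≤ k * γ / 2 := by
        calc k ^ 2 * K * (4 * β * s) = k * (k * (8 * β * K * s)) / 2 := by ring
          _ ≤ k * γ / 2 := by
            have := mul_le_mul_of_nonneg_left hk2 hk0.le
            linarith
      linarith
    set m : ℝ := ((p / p') ^ 2 - 1) * Λ with hm
    have hm0 : 0 < m := by
      have h1 : 1 < p / p' := by rw [one_lt_div hp'0]; exact hp'p
      have h2 : 1 < (p / p') ^ 2 := by nlinarith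
      have h3 : 0 < (p / p') ^ 2 - 1 := by linarith
      positivity
    set δ : ℝ := min (1 / 2) (m / 4) with hδ
    have hδ0 : 0 < δ := by positivity
    have hδ1 : δ ≤ 1 / 2 := min_le_left _ _
    have hδm : δ ≤ m / 4 := min_le_right _ _
    obtain ⟨u, hu, hN, hE⟩ := hmin δ hδ0
    obtain ⟨u₁, u₂, h1, h2, hsum⟩ := TF_split hcon hu
    have hdisj : Disjoint (Ω ∩ {x | s < cx b o x}) (Ω ∩ {x | cx b o x < s}) := by
      rw [Set.disjoint_left]
      rintro x ⟨-, hx1⟩ ⟨-, hx2⟩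
      have a1 : s < cx b o x := hx1
      have a2 : cx b o x < s := hx2
      exact lt_asymm a1 a2
    obtain ⟨cE, cN⟩ := cross_zero (b := b) hdisj h1 h2
    have h1' : TF Ω u₁ := h1.mono inter_subset_left
    have h2' : TF Ω u₂ := h2.mono inter_subset_left
    have xE := Eb_expand (b := b) h1' h2' 1
    have xN := Nb_expand (b := b) h1' h2' 1
    rw [← hsum, cE] at xE
    rw [← hsum, cN] at xN
    have hE1 := hΛ u₁ h1'
    have hE2 := hstrip s hs hss u₂ h2
    have hN1 := Nb_nonneg (b := b) u₁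
    have hN2 := Nb_nonneg (b := b) u₂
    rw [xN] at hN
    rw [xE] at hE
    have hN2δ : Nb b u₂ u₂ ≤ δ := by nlinarith
    have hN1pos : 1 / 2 ≤ Nb b u₁ u₁ := by nlinarith
    have hcmp := compare (b := b) hp hp'0 hopt hΛof
      (hopt.isOpen.inter (isOpen_lt continuous_const hcont))
      (lt_of_le_of_lt (measure_mono inter_subset_left) hvol) hdrop' h1 (by linarith)
    have hE1up : Eb b u₁ u₁ ≤ Λ * Nb b u₁ u₁ + δ := by nlinarith
    have hmN : m * Nb b u₁ u₁ ≤ δ := by
      have e : (p / p') ^ 2 * (Λ * Nb b u₁ u₁) = m * Nb b u₁ u₁ + Λ * Nb b u₁ u₁ := by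
        rw [hm]; ring
      rw [e] at hcmp
      linarith
    nlinarith
  -- linear perimeter drop
  have hpi := Real.pi_pos
  set κ : ℝ := 2 / (3 * Real.pi) with hκ
  have hκ0 : 0 < κ := by positivity
  set k : ℝ := min 1 (κ / (16 * β * K)) with hk
  have hk0 : 0 < k := by positivity
  have hk1 : k ≤ 1 := min_le_left _ _
  have hk2 : k * (16 * β * K) ≤ κ := by
    have := min_le_right 1 (κ / (16 * β * K))
    rw [le_div_iff₀ (by positivity)] at this
    exact this
  set c₀ : ℝ := k * κ / 4 with hc₀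
  have hc₀0 : 0 < c₀ := by positivity
  have hdrop : ∀ ε > (0 : ℝ), ε < s₀ →
      perimeter (Ω ∩ {x | ε < cx b o x}) ≤ ((p - c₀ * ε : ℝ) : EReal) := by
    intro ε hε hεs
    obtain ⟨V, hV⟩ := TP_interval (b := b) (o := o) hopt.isOpen hvol
      (by linarith : ε / 2 ≤ ε) (fun s hs => hslice s (by linarith [hs.1]) (by linarith [hs.2]))
    refine (perim_dropG hopt.isOpen hvol hU hβ0 hcone hopt.perimeter_le hk0.le hk1 hε
      hK0.le hK hV).trans ?_
    rw [EReal.coe_le_coe_iff]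
    have h1 : k ^ 2 * K * (4 * β * ε) ≤ k * κ / 4 * ε := by
      calc k ^ 2 * K * (4 * β * ε) = k * (k * (16 * β * K)) / 4 * ε := by ring
        _ ≤ k * κ / 4 * ε := by
          apply mul_le_mul_of_nonneg_right _ hε.le
          have := mul_le_mul_of_nonneg_left hk2 hk0.le
          linarith
    have h2 : k * (κ * (ε - ε / 2)) = 2 * (k * κ / 4 * ε) := by ring
    rw [hc₀]
    linarith
  obtain ⟨q, hq1, M, ε₀, hε₀, hcut⟩ := cut_corner hU hC.le hPoin hβ hcone hΛ0 hΛ hmin
  have key : ∀ ε > (0 : ℝ), ε < ε₀ → ε < s₀ → ε < p / (2 * c₀) →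
      2 * c₀ * Λ / p * ε ≤ M * ε ^ q := by
    intro ε hε h0 h1 h2
    obtain ⟨W, hW, hWN, hWE⟩ := hcut ε hε h0
    have hP := hdrop ε hε h1
    have hcε : c₀ * ε < p / 2 := by
      rw [lt_div_iff₀ (by positivity)] at h2; linarith
    have hpos : 0 < p - c₀ * ε := by linarith
    have hcmp := compare (b := b) hp hpos hopt hΛof
      (hopt.isOpen.inter (isOpen_lt continuous_const hcont))
      (lt_of_le_of_lt (measure_mono inter_subset_left) hvol) hP hW hWN
    set t : ℝ := p / (p - c₀ * ε) with ht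
    have h9 : t ^ 2 * Λ ≤ Λ + M * ε ^ q := by
      have : t ^ 2 * Λ * Nb b W W ≤ (Λ + M * ε ^ q) * Nb b W W := by
        calc t ^ 2 * Λ * Nb b W W = t ^ 2 * (Λ * Nb b W W) := by ring
          _ ≤ Eb b W W := hcmp
          _ ≤ _ := hWE
      exact le_of_mul_le_mul_right this hWN
    have h10 : 1 + c₀ * ε / p ≤ t := by
      rw [ht, le_div_iff₀ hpos]
      have : (1 + c₀ * ε / p) * (p - c₀ * ε) = p - (c₀ * ε) ^ 2 / p := by field_simp; ring
      rw [this]
      have : 0 ≤ (c₀ * ε) ^ 2 / p := by positivity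
      linarith
    have h11 : 1 + 2 * (c₀ * ε / p) ≤ t ^ 2 := by
      have : 0 ≤ c₀ * ε / p := by positivity
      nlinarith
    have h12 : (1 + 2 * (c₀ * ε / p)) * Λ ≤ t ^ 2 * Λ := mul_le_mul_of_nonneg_right h11 hΛ0.le
    have e13 : 2 * c₀ * Λ / p * ε = 2 * (c₀ * ε / p) * Λ := by ring
    rw [e13]
    linarith
  have hlim : Tendsto (fun ε : ℝ => M * ε ^ (q - 1)) (𝓝[>] 0) (𝓝 0) := by
    have h1 : ContinuousAt (fun ε : ℝ => ε ^ (q - 1)) 0 :=
      Real.continuousAt_rpow_const 0 (q - 1) (Or.inr (by linarith))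
    have h2 : Tendsto (fun ε : ℝ => ε ^ (q - 1)) (𝓝[>] 0) (𝓝 0) := by
      have := h1.tendsto
      rw [Real.zero_rpow (by linarith)] at this
      exact this.mono_left nhdsWithin_le_nhds
    simpa using h2.const_mul M
  have hpos : 0 < 2 * c₀ * Λ / p := by positivity
  have hev : ∀ᶠ ε : ℝ in 𝓝[>] 0, M * ε ^ (q - 1) < 2 * c₀ * Λ / p :=
    hlim.eventually (gt_mem_nhds hpos)
  have hev2 : ∀ᶠ ε : ℝ in 𝓝[>] 0, ε ∈ Ioo (0 : ℝ) (min (min ε₀ s₀) (p / (2 * c₀))) :=
    Ioo_mem_nhdsGT (by positivity)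
  obtain ⟨ε, h1, h2⟩ := (hev.and hev2).exists
  have hε : 0 < ε := h2.1
  have h3 := key ε hε (h2.2.trans_le ((min_le_left _ _).trans (min_le_left _ _)))
    (h2.2.trans_le ((min_le_left _ _).trans (min_le_right _ _)))
    (h2.2.trans_le (min_le_right _ _))
  have h4 : M * ε ^ q = M * ε ^ (q - 1) * ε := by
    rw [Real.rpow_sub_one hε.ne']; field_simp
  rw [h4] at h3
  have h5 := le_of_mul_le_mul_right h3 hε
  linarith

end Pool.Agent.H873R3
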