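import Pool.Agent.H873R3.BuckFrame

/-!
# Weighted second order identities and inequalities
-/

noncomputable section

namespace Pool.Agent.H873R3

open MeasureTheory Set Filter Topology InnerProductSpace
open scoped ContDiff Gradient

variable {b : OrthonormalBasis (Fin 2) ℝ Pl} {o : Pl}
variable {U : Set Pl} {f g h u : Pl → ℝ} {ε : ℝ}

lemma TF.mul' (hf : TF U f) (hg : TF U g) : TF U (fun x => f x * g x) := hf.mul hg

lemma TF.add' (hf : TF U f) (hg : TF U g) : TF U (fun x => f x + g x) := hf.add hg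

lemma TF.sub' (hf : TF U f) (hg : TF U g) : TF U (fun x => f x - g x) := hf.sub hg

lemma TF.sq' (hf : TF U f) : TF U (fun x => f x ^ 2) := by
  have := hf.mul hf
  convert this using 1
  ext x; simp [sq]

lemma iadd {f g : Pl → ℝ} (hf : Integrable f) (hg : Integrable g) :
    Integrable (fun x => f x + g x) := hf.add hg

lemma D_mul' (hf : TF U f) (hg : TF U g) (v : Pl) :
    D v (fun x => f x * g x) = fun x => D v f x * g x + f x * D v g x :=
  D_mul hf.diff hg.diff v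

lemma Iw_ibp0 (hU : ∀ x ∈ U, 0 < cx b o x) (hε : 0 ≤ ε) (r r' : ℝ) (hr : r' = r - 1)
    (hf : TF U f) (hg : TF U g) :
    Iw b o ε r (fun x => D (b 0) f x * g x) =
      - r * Iw b o ε r' (fun x => f x * g x) - Iw b o ε r (fun x => f x * D (b 0) g x) := by
  have h := Iw_D0 hU hε r r' hr (hf.mul' hg)
  rw [D_mul' hf hg, Iw_add hU hε r ((hf.D _).mul' hg) (hf.mul' (hg.D _))] at h
  linarith

lemma Iw_ibp1 (hU : ∀ x ∈ U, 0 < cx b o x) (hε : 0 ≤ ε) (r : ℝ)
    (hf : TF U f) (hg : TF U g) :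
    Iw b o ε r (fun x => D (b 1) f x * g x) = - Iw b o ε r (fun x => f x * D (b 1) g x) := by
  have h := Iw_D1 hU hε r (hf.mul' hg)
  rw [D_mul' hf hg, Iw_add hU hε r ((hf.D _).mul' hg) (hf.mul' (hg.D _))] at h
  linarith

lemma Iw_sq0 (hU : ∀ x ∈ U, 0 < cx b o x) (hε : 0 ≤ ε) (r r' : ℝ) (hr : r' = r - 1)
    (hf : TF U f) :
    Iw b o ε r (fun x => f x * D (b 0) f x) = - (r / 2) * Iw b o ε r' (fun x => f x ^ 2) := by
  have h := Iw_ibp0 hU hε r r' hr hf hf
  have h1 : (fun x => D (b 0) f x * f x) = fun x => f x * D (b 0) f x := by ext x; ring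
  have h2 : (fun x => f x * f x) = fun x => f x ^ 2 := by ext x; ring
  rw [h1, h2] at h
  linarith

/-- Second order data of a function in the frame. -/
lemma Iw_u11u22 (hU : ∀ x ∈ U, 0 < cx b o x) (hε : 0 ≤ ε) (r : ℝ) (hu : TF U u) :
    Iw b o ε r (fun x => D (b 0) (D (b 0) u) x * D (b 1) (D (b 1) u) x) =
      Iw b o ε r (fun x => (D (b 0) (D (b 1) u) x) ^ 2)
        - r * (r - 1) / 2 * Iw b o ε (r - 2) (fun x => (D (b 1) u x) ^ 2) := by
  have h1 := Iw_ibp1 hU hε r (hu.D (b 1)) ((hu.D (b 0)).D (b 0))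
  have e1 : D (b 1) (D (b 0) (D (b 0) u)) = D (b 0) (D (b 0) (D (b 1) u)) := by
    rw [D_comm (hu.D (b 0)).1, D_comm hu.1 (b 1) (b 0)]
  rw [e1] at h1
  have h2 := Iw_ibp0 hU hε r (r - 1) rfl ((hu.D (b 1)).D (b 0)) (hu.D (b 1))
  have h3 := Iw_sq0 hU hε (r - 1) (r - 2) (by ring) (hu.D (b 1))
  have e2 : (fun x => D (b 0) (D (b 0) u) x * D (b 1) (D (b 1) u) x) =
      fun x => D (b 1) (D (b 1) u) x * D (b 0) (D (b 0) u) x := by ext x; ring
  have e3 : (fun x => D (b 0) (D (b 1) u) x * D (b 1) u x) =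
      fun x => D (b 1) u x * D (b 0) (D (b 1) u) x := by ext x; ring
  have e4 : (fun x => D (b 0) (D (b 0) (D (b 1) u)) x * D (b 1) u x) =
      fun x => D (b 1) u x * D (b 0) (D (b 0) (D (b 1) u)) x := by ext x; ring
  have e5 : (fun x => D (b 0) (D (b 1) u) x * D (b 0) (D (b 1) u) x) =
      fun x => (D (b 0) (D (b 1) u) x) ^ 2 := by ext x; ring
  rw [e4, e5, e3] at h2
  rw [e2]
  linear_combination h1 + (-1 : ℝ) * h2 + r * h3

/-- The square of the Laplacian with a weight. -/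
lemma Iw_lap_sq (hU : ∀ x ∈ U, 0 < cx b o x) (hε : 0 ≤ ε) (r : ℝ) (hu : TF U u) :
    Iw b o ε r (fun x => (D (b 0) (D (b 0) u) x + D (b 1) (D (b 1) u) x) ^ 2) =
      Iw b o ε r (fun x => (D (b 0) (D (b 0) u) x) ^ 2)
      + 2 * Iw b o ε r (fun x => (D (b 0) (D (b 1) u) x) ^ 2)
      + Iw b o ε r (fun x => (D (b 1) (D (b 1) u) x) ^ 2)
      - r * (r - 1) * Iw b o ε (r - 2) (fun x => (D (b 1) u x) ^ 2) := by
  have t11 := (hu.D (b 0)).D (b 0)
  have t22 := (hu.D (b 1)).D (b 1)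
  have e : (fun x => (D (b 0) (D (b 0) u) x + D (b 1) (D (b 1) u) x) ^ 2) =
      fun x => ((D (b 0) (D (b 0) u) x) ^ 2 + 2 * (D (b 0) (D (b 0) u) x * D (b 1) (D (b 1) u) x))
        + (D (b 1) (D (b 1) u) x) ^ 2 := by ext x; ring
  rw [e, Iw_add hU hε r (t11.sq'.add' ((t11.mul' t22).smul 2)) t22.sq',
    Iw_add hU hε r t11.sq' ((t11.mul' t22).smul 2), Iw_smul, Iw_u11u22 hU hε r hu]
  ring

/-- The Laplacian of `X^r u`. -/
lemma lap_pw (hU : ∀ x ∈ U, 0 < cx b o x) (hε : 0 ≤ ε) (r : ℝ) (hu : TF U u) (x : Pl) :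
    D (b 0) (D (b 0) (fun x => (cx b o x + ε) ^ r * u x)) x
      + D (b 1) (D (b 1) (fun x => (cx b o x + ε) ^ r * u x)) x
      = (cx b o x + ε) ^ r * (D (b 0) (D (b 0) u) x + D (b 1) (D (b 1) u) x)
        + 2 * r * ((cx b o x + ε) ^ (r - 1) * D (b 0) u x)
        + r * (r - 1) * ((cx b o x + ε) ^ (r - 2) * u x) := by
  have e0 : D (b 0) (fun x => (cx b o x + ε) ^ r * u x) =
      (fun x => r * ((cx b o x + ε) ^ (r - 1) * u x)) +
        (fun x => (cx b o x + ε) ^ r * D (b 0) u x) := by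
    rw [pw_D hU hε r hu (b 0), inner00]
    ext x; simp
  have e1 : D (b 1) (fun x => (cx b o x + ε) ^ r * u x) =
      (fun x => (cx b o x + ε) ^ r * D (b 1) u x) := by
    rw [pw_D hU hε r hu (b 1), inner01]
    ext x; simp
  rw [e0, e1, D_add ((pw_TF hU hε (r - 1) hu).smul r).diff (pw_TF hU hε r (hu.D _)).diff,
    D_smul (pw_TF hU hε (r - 1) hu).diff, pw_D hU hε (r - 1) hu, pw_D hU hε r (hu.D _),
    pw_D hU hε r (hu.D _), inner00, inner01]
  simp only [Pi.add_apply]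
  have : r - 1 - 1 = r - 2 := by ring
  rw [this]
  ring

/-- The form `∫ Δu Δ(X^r u)` in terms of weighted integrals. -/
lemma form_pw (hU : ∀ x ∈ U, 0 < cx b o x) (hε : 0 ≤ ε) (r : ℝ) (hu : TF U u) :
    ∫ x, (D (b 0) (D (b 0) u) x + D (b 1) (D (b 1) u) x) *
      (D (b 0) (D (b 0) (fun x => (cx b o x + ε) ^ r * u x)) x
      + D (b 1) (D (b 1) (fun x => (cx b o x + ε) ^ r * u x)) x)
      = Iw b o ε r (fun x => (D (b 0) (D (b 0) u) x) ^ 2)
      + 2 * Iw b o ε r (fun x => (D (b 0) (D (b 1) u) x) ^ 2)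
      + Iw b o ε r (fun x => (D (b 1) (D (b 1) u) x) ^ 2)
      - r * (r - 1) * (2 * Iw b o ε (r - 2) (fun x => (D (b 0) u x) ^ 2)
        + Iw b o ε (r - 2) (fun x => (D (b 1) u x) ^ 2))
      + r * (r - 1) * (r - 2) * (r - 3) / 2 * Iw b o ε (r - 4) (fun x => u x ^ 2) := by
  have t1 := hu.D (b 0)
  have t2 := hu.D (b 1)
  have t11 := (hu.D (b 0)).D (b 0)
  have t12 := (hu.D (b 1)).D (b 0)
  have t22 := (hu.D (b 1)).D (b 1)
  have tL := t11.add' t22
  have e : (fun x => (D (b 0) (D (b 0) u) x + D (b 1) (D (b 1) u) x) *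
      (D (b 0) (D (b 0) (fun x => (cx b o x + ε) ^ r * u x)) x
      + D (b 1) (D (b 1) (fun x => (cx b o x + ε) ^ r * u x)) x)) =
      fun x => ((cx b o x + ε) ^ r * ((D (b 0) (D (b 0) u) x + D (b 1) (D (b 1) u) x) ^ 2)
        + 2 * r * ((cx b o x + ε) ^ (r - 1) * (D (b 0) u x * D (b 0) (D (b 0) u) x
            + D (b 0) u x * D (b 1) (D (b 1) u) x)))
        + r * (r - 1) * ((cx b o x + ε) ^ (r - 2) * (u x * D (b 0) (D (b 0) u) x
            + u x * D (b 1) (D (b 1) u) x)) := by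
    ext x
    rw [lap_pw hU hε r hu x]
    ring
  rw [e]
  have tA := (t1.mul' t11).add' (t1.mul' t22)
  have tB := (hu.mul' t11).add' (hu.mul' t22)
  rw [integral_add (iadd (Iw_integrable hU hε r tL.sq')
      ((Iw_integrable hU hε (r - 1) tA).const_mul (2 * r)))
      ((Iw_integrable hU hε (r - 2) tB).const_mul (r * (r - 1))),
    integral_add (Iw_integrable hU hε r tL.sq')
      ((Iw_integrable hU hε (r - 1) tA).const_mul (2 * r)), integral_const_mul, integral_const_mul]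
  have a1 := Iw_lap_sq hU hε r hu
  have a2 := Iw_add hU hε (r - 1) (t1.mul' t11) (t1.mul' t22)
  have a3 := Iw_add hU hε (r - 2) (hu.mul' t11) (hu.mul' t22)
  have a4 := Iw_sq0 hU hε (r - 1) (r - 2) (by ring) t1
  have a5 := Iw_ibp1 hU hε (r - 1) t2 t1
  have a6 := Iw_sq0 hU hε (r - 1) (r - 2) (by ring) t2
  have a7 := Iw_ibp0 hU hε (r - 2) (r - 3) (by ring) t1 hu
  have a8 := Iw_sq0 hU hε (r - 3) (r - 4) (by ring) hu
  have a9 := Iw_ibp1 hU hε (r - 2) t2 hu
  have c1 : D (b 1) (D (b 0) u) = D (b 0) (D (b 1) u) := D_comm hu.1 _ _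
  rw [c1] at a5
  have f1 : (fun x => D (b 1) (D (b 1) u) x * D (b 0) u x) =
      fun x => D (b 0) u x * D (b 1) (D (b 1) u) x := by ext x; ring
  have f2 : (fun x => D (b 0) (D (b 0) u) x * u x) =
      fun x => u x * D (b 0) (D (b 0) u) x := by ext x; ring
  have f3 : (fun x => D (b 0) u x * u x) =
      fun x => u x * D (b 0) u x := by ext x; ring
  have f4 : (fun x => D (b 0) u x * D (b 0) u x) =
      fun x => D (b 0) u x ^ 2 := by ext x; ring
  have f5 : (fun x => D (b 1) (D (b 1) u) x * u x) =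
      fun x => u x * D (b 1) (D (b 1) u) x := by ext x; ring
  have f6 : (fun x => D (b 1) u x * D (b 1) u x) =
      fun x => D (b 1) u x ^ 2 := by ext x; ring
  rw [f1] at a5
  rw [f2, f3, f4] at a7
  rw [f5, f6] at a9
  change Iw b o ε r (fun x => (D (b 0) (D (b 0) u) x + D (b 1) (D (b 1) u) x) ^ 2)
    + 2 * r * Iw b o ε (r - 1) (fun x => D (b 0) u x * D (b 0) (D (b 0) u) x
            + D (b 0) u x * D (b 1) (D (b 1) u) x)
    + r * (r - 1) * Iw b o ε (r - 2) (fun x => u x * D (b 0) (D (b 0) u) x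
            + u x * D (b 1) (D (b 1) u) x) = _
  rw [a1, a2, a3, a4, a5, a6, a7, a8, a9]
  ring

lemma rp {X : ℝ} (hX : 0 < X) (r : ℝ) :
    X ^ (r - 1) = X ^ r / X ∧ X ^ (r - 2) = X ^ r / X ^ 2 ∧ X ^ (r - 3) = X ^ r / X ^ 3 ∧
      X ^ (r - 4) = X ^ r / X ^ 4 := by
  have h2 : X ^ (2 : ℝ) = X ^ 2 := by exact_mod_cast Real.rpow_natCast X 2
  have h3 : X ^ (3 : ℝ) = X ^ 3 := by exact_mod_cast Real.rpow_natCast X 3
  have h4 : X ^ (4 : ℝ) = X ^ 4 := by exact_mod_cast Real.rpow_natCast X 4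
  refine ⟨Real.rpow_sub_one hX.ne' r, ?_, ?_, ?_⟩
  · rw [Real.rpow_sub hX, h2]
  · rw [Real.rpow_sub hX, h3]
  · rw [Real.rpow_sub hX, h4]

lemma Iw_square2 (hU : ∀ x ∈ U, 0 < cx b o x) (hε : 0 ≤ ε) (r k : ℝ) (hf : TF U f)
    (hg : TF U g) :
    0 ≤ Iw b o ε r (fun x => f x ^ 2) + 2 * k * Iw b o ε (r - 1) (fun x => g x * f x)
      + k ^ 2 * Iw b o ε (r - 2) (fun x => g x ^ 2) := by
  have h : 0 ≤ ∫ x, (((cx b o x + ε) ^ r * (f x ^ 2)
      + 2 * k * ((cx b o x + ε) ^ (r - 1) * (g x * f x)))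
      + k ^ 2 * ((cx b o x + ε) ^ (r - 2) * (g x ^ 2))) := by
    refine integral_nonneg fun x => ?_
    by_cases hx : x ∈ U
    · have hX : 0 < cx b o x + ε := by linarith [hU x hx]
      obtain ⟨p1, p2, -, -⟩ := rp hX r
      have : ((cx b o x + ε) ^ r * (f x ^ 2)
        + 2 * k * ((cx b o x + ε) ^ (r - 1) * (g x * f x)))
        + k ^ 2 * ((cx b o x + ε) ^ (r - 2) * (g x ^ 2)) =
        (cx b o x + ε) ^ r * (f x + k * g x / (cx b o x + ε)) ^ 2 := by
        rw [p1, p2]; field_simp; ring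
      change 0 ≤ _
      rw [this]
      positivity
    · simp [hf.eq_zero hx, hg.eq_zero hx]
  rw [integral_add (iadd (Iw_integrable hU hε r hf.sq')
      ((Iw_integrable hU hε (r - 1) (hg.mul' hf)).const_mul (2 * k)))
      ((Iw_integrable hU hε (r - 2) hg.sq').const_mul (k ^ 2)),
    integral_add (Iw_integrable hU hε r hf.sq')
      ((Iw_integrable hU hε (r - 1) (hg.mul' hf)).const_mul (2 * k)), integral_const_mul,
    integral_const_mul] at h
  exact h

/-- Weighted Hardy inequality. -/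
lemma Iw_hardy (hU : ∀ x ∈ U, 0 < cx b o x) (hε : 0 ≤ ε) (r : ℝ) (hf : TF U f) :
    (r - 1) ^ 2 / 4 * Iw b o ε (r - 2) (fun x => f x ^ 2) ≤
      Iw b o ε r (fun x => (D (b 0) f x) ^ 2) := by
  have h := Iw_square2 hU hε r ((r - 1) / 2) (hf.D (b 0)) hf
  rw [Iw_sq0 hU hε (r - 1) (r - 2) (by ring) hf] at h
  nlinarith [h]

/-- The three term square. -/
lemma Iw_J1 (hU : ∀ x ∈ U, 0 < cx b o x) (hε : 0 ≤ ε) (r : ℝ) (hu : TF U u) :
    0 ≤ Iw b o ε r (fun x => (D (b 0) (D (b 0) u) x) ^ 2)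
      + 2 * (r - 1) * Iw b o ε (r - 2) (fun x => (D (b 0) u x) ^ 2)
      + 2 * (r - 1) * (r - 2) * Iw b o ε (r - 4) (fun x => u x ^ 2) := by
  have t1 := hu.D (b 0)
  have t11 := (hu.D (b 0)).D (b 0)
  have h : 0 ≤ ∫ x, ((((((cx b o x + ε) ^ r * ((D (b 0) (D (b 0) u) x) ^ 2)
      + 4 * ((cx b o x + ε) ^ (r - 2) * ((D (b 0) u x) ^ 2)))
      + 4 * ((cx b o x + ε) ^ (r - 4) * (u x ^ 2)))
      + (-4) * ((cx b o x + ε) ^ (r - 1) * (D (b 0) u x * D (b 0) (D (b 0) u) x)))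
      + 4 * ((cx b o x + ε) ^ (r - 2) * (D (b 0) (D (b 0) u) x * u x)))
      + (-8) * ((cx b o x + ε) ^ (r - 3) * (u x * D (b 0) u x))) := by
    refine integral_nonneg fun x => ?_
    by_cases hx : x ∈ U
    · have hX : 0 < cx b o x + ε := by linarith [hU x hx]
      obtain ⟨p1, p2, p3, p4⟩ := rp hX r
      have : (((((cx b o x + ε) ^ r * ((D (b 0) (D (b 0) u) x) ^ 2)
        + 4 * ((cx b o x + ε) ^ (r - 2) * ((D (b 0) u x) ^ 2)))
        + 4 * ((cx b o x + ε) ^ (r - 4) * (u x ^ 2)))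
        + (-4) * ((cx b o x + ε) ^ (r - 1) * (D (b 0) u x * D (b 0) (D (b 0) u) x)))
        + 4 * ((cx b o x + ε) ^ (r - 2) * (D (b 0) (D (b 0) u) x * u x)))
        + (-8) * ((cx b o x + ε) ^ (r - 3) * (u x * D (b 0) u x)) =
        (cx b o x + ε) ^ r * (D (b 0) (D (b 0) u) x - 2 * D (b 0) u x / (cx b o x + ε)
          + 2 * u x / (cx b o x + ε) ^ 2) ^ 2 := by
        rw [p1, p2, p3, p4]; field_simp; ring
      change 0 ≤ _
      rw [this]
      positivity
    · simp [hu.eq_zero hx, t1.eq_zero hx, t11.eq_zero hx]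
  have i1 := Iw_integrable hU hε r t11.sq'
  have i2 := (Iw_integrable hU hε (r - 2) t1.sq').const_mul 4
  have i3 := (Iw_integrable hU hε (r - 4) hu.sq').const_mul 4
  have i4 := (Iw_integrable hU hε (r - 1) (t1.mul' t11)).const_mul (-4)
  have i5 := (Iw_integrable hU hε (r - 2) (t11.mul' hu)).const_mul 4
  have i6 := (Iw_integrable hU hε (r - 3) (hu.mul' t1)).const_mul (-8)
  rw [integral_add (iadd (iadd (iadd (iadd i1 i2) i3) i4) i5) i6,
    integral_add (iadd (iadd (iadd i1 i2) i3) i4) i5,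
    integral_add (iadd (iadd i1 i2) i3) i4, integral_add (iadd i1 i2) i3, integral_add i1 i2,
    integral_const_mul, integral_const_mul, integral_const_mul, integral_const_mul,
    integral_const_mul] at h
  have a4 := Iw_sq0 hU hε (r - 1) (r - 2) (by ring) t1
  have a7 := Iw_ibp0 hU hε (r - 2) (r - 3) (by ring) t1 hu
  have a8 := Iw_sq0 hU hε (r - 3) (r - 4) (by ring) hu
  have f3 : (fun x => D (b 0) u x * u x) =
      fun x => u x * D (b 0) u x := by ext x; ring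
  have f4 : (fun x => D (b 0) u x * D (b 0) u x) =
      fun x => D (b 0) u x ^ 2 := by ext x; ring
  rw [f3, f4] at a7
  change 0 ≤ Iw b o ε r (fun x => (D (b 0) (D (b 0) u) x) ^ 2)
    + 4 * Iw b o ε (r - 2) (fun x => (D (b 0) u x) ^ 2)
    + 4 * Iw b o ε (r - 4) (fun x => u x ^ 2)
    + (-4) * Iw b o ε (r - 1) (fun x => D (b 0) u x * D (b 0) (D (b 0) u) x)
    + 4 * Iw b o ε (r - 2) (fun x => D (b 0) (D (b 0) u) x * u x)
    + (-8) * Iw b o ε (r - 3) (fun x => u x * D (b 0) u x) at h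
  rw [a4, a7, a8] at h
  nlinarith [h]

/-- Poincaré inequality across the cone `|y| ≤ β x`. -/
lemma Iw_poincare (hU : ∀ x ∈ U, 0 < cx b o x) (hε : 0 ≤ ε) {β : ℝ} (hβ : 0 ≤ β)
    (hcone : ∀ x ∈ U, |cy b o x| ≤ β * cx b o x) (r : ℝ) (hf : TF U f) :
    Iw b o ε (r - 2) (fun x => f x ^ 2) ≤
      4 * β ^ 2 * Iw b o ε r (fun x => (D (b 1) f x) ^ 2) := by
  have t2 := hf.D (b 1)
  have h := Iw_Dy hU hε (r - 2) hf.sq'
  have e : D (b 1) (fun x => f x ^ 2) = fun x => 2 * (f x * D (b 1) f x) := by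
    have : (fun x => f x ^ 2) = fun x => f x * f x := by ext x; ring
    rw [this, D_mul' hf hf]
    ext x; ring
  rw [e] at h
  have h1 : -Iw b o ε (r - 2) (fun x => cy b o x * (2 * (f x * D (b 1) f x))) ≤
      1 / 2 * Iw b o ε (r - 2) (fun x => f x ^ 2) +
        2 * β ^ 2 * Iw b o ε r (fun x => (D (b 1) f x) ^ 2) := by
    rw [Iw, Iw, Iw, ← integral_neg, ← integral_const_mul, ← integral_const_mul,
      ← integral_add ((Iw_integrable hU hε (r - 2) hf.sq').const_mul _)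
        ((Iw_integrable hU hε r t2.sq').const_mul _)]
    refine integral_mono ?_ ?_ fun x => ?_
    · exact (Iw_integrable hU hε (r - 2) (cy_TF ((hf.mul' t2).smul 2))).neg
    · exact ((Iw_integrable hU hε (r - 2) hf.sq').const_mul _).add
        ((Iw_integrable hU hε r t2.sq').const_mul _)
    · by_cases hx : x ∈ U
      · have h0 := hU x hx
        have hX : 0 < cx b o x + ε := by linarith
        obtain ⟨-, p2, -, -⟩ := rp hX r
        have hy : (cy b o x) ^ 2 ≤ β ^ 2 * (cx b o x + ε) ^ 2 := by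
          have h3 : |cy b o x| ≤ β * (cx b o x + ε) := by nlinarith [hcone x hx]
          rw [← sq_abs, ← mul_pow]
          exact pow_le_pow_left₀ (abs_nonneg _) h3 2
        have hr : 0 < (cx b o x + ε) ^ r := Real.rpow_pos_of_pos hX r
        simp only
        rw [p2]
        have hX2 : 0 < (cx b o x + ε) ^ 2 := by positivity
        have key : -(cy b o x * (2 * (f x * D (b 1) f x))) ≤
            1 / 2 * f x ^ 2 + 2 * β ^ 2 * (cx b o x + ε) ^ 2 * (D (b 1) f x) ^ 2 := by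
          have h4 : 0 ≤ (f x + 2 * cy b o x * D (b 1) f x) ^ 2 := sq_nonneg _
          have h5 : (cy b o x) ^ 2 * (D (b 1) f x) ^ 2 ≤
            β ^ 2 * (cx b o x + ε) ^ 2 * (D (b 1) f x) ^ 2 :=
            mul_le_mul_of_nonneg_right hy (sq_nonneg _)
          nlinarith
        have h6 : (cx b o x + ε) ^ r / (cx b o x + ε) ^ 2 * (-(cy b o x * (2 * (f x * D (b 1) f x))))
          ≤ (cx b o x + ε) ^ r / (cx b o x + ε) ^ 2 *
            (1 / 2 * f x ^ 2 + 2 * β ^ 2 * (cx b o x + ε) ^ 2 * (D (b 1) f x) ^ 2) :=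
          mul_le_mul_of_nonneg_left key (by positivity)
        calc _ = (cx b o x + ε) ^ r / (cx b o x + ε) ^ 2 *
              (-(cy b o x * (2 * (f x * D (b 1) f x)))) := by ring
          _ ≤ _ := h6
          _ = _ := by field_simp
      · simp [hf.eq_zero hx, t2.eq_zero hx]
  linarith

end Pool.Agent.H873R3
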